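import Pool.Agent.TH936.AE.Core1

/-!
# Project AE: assembly (many conjugates have a large central value)
-/

set_option autoImplicit false

open Complex

namespace Pool.Agent.TH936.AE

open Pool.Agent.W192.HK Pool.Agent.TH936.AC Pool.Agent.TH936.AW Pool.Agent.TH936.AD

variable {R : Subring ℂ} {ω : ℂ}

theorem core (hdiv : Pool.Agent.W192.CY.S_DIV) (h1 : H_BASIC) (h3 : H_CNT)
    (h4 : H_MOB) (a1 : A_BAR) (a2 : E_REG) (a3 : E_PHI) (a4 : E_PHI2) (a5 : A_TAIL)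
    (a6 : A_ROUGH) (a7 : A_MERT) (a8 : A_RBD) (a9 : D_DL) (a10 : D_SSUM) (a11 : A_PROD)
    (hR : QP R ω) {V : ℝ → ℝ} {CV : ℝ} (hV : WG V CV)
    {f : Ideal R} {g : Ideal R → ℂ} (hg : GE f g) (hcs : CS g) (hram : Ram f)
    {L0 L1 : ℂ} {CE : ℝ} (hep : EP V f g L0 L1 CE) (x0 : ℝ) (hx0 : 0 < x0)
    (M : ℕ) (hM : 1 ≤ M) (ε : ℝ) (hε : 0 < ε) :
    ∃ q0 : ℝ, ∀ (q : ℕ) (χ : Ideal R → ℂ), RG q χ → IsCoprime f (sp (q : R)) → q0 ≤ q →
      ∀ d : ℕ, Od χ d → (q : ℝ) ^ (2 / 3 + ε) ≤ d → ∀ M₁ : ℕ, 1 ≤ M₁ → M₁ ≤ M → M₁ ∣ d →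
        (d : ℝ) * (q : ℝ) ^ (-5 / 8 : ℝ) ≤ (((Ea d M₁).filter (fun b =>
          (q : ℝ) ^ (-1 / 9 : ℝ) ≤ ‖smo V g (x0 * q) (pw χ b)‖)).card : ℝ) := by
  classical
  obtain ⟨b1, b2, b3, b4, b5, b6, b7, b8, b9⟩ := h1 R ω hR.qr
  obtain ⟨hfin, hsum, C3, hC3, hcnt, hord⟩ := h3 R ω hR.qr
  obtain ⟨-, -, k3, k4, -, -, k7, k8, k9, k10, k11, k12, k13, k14⟩ := a1 R ω hR
  have hπ := Real.pi_pos
  have him := hR.qr.im
  have hf0 : f ≠ ⊥ := hg.ne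
  obtain ⟨CS1, hCS1, hsmo⟩ := smo_le h1 h3 hR hV hg
  obtain ⟨CM1, hCM1, hml⟩ := ml_le h1 h3 a11 hR
  obtain ⟨C5, hC5⟩ : ∃ C5 : ℝ, C5 = CM1 * (CS1 * x0 ^ (13 / 25 : ℝ)) + CM1 := ⟨_, rfl⟩
  have hC50 : 0 < C5 := by rw [hC5]; positivity
  obtain ⟨q1, hphi⟩ := a3 R ω hR V CV hV f g hg hcs L0 L1 CE hep x0 x0 hx0 hx0
  have hL0 := hep.1
  obtain ⟨q4, hssum⟩ := a10 R ω hR f hg.ne hram M hM (1 / 8) (by norm_num)
  have hε' : 0 < min ε (1 / 24) := lt_min hε (by norm_num)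
  obtain ⟨η, δ, CT, hη, hδ, hCT, htail⟩ := a5 R ω hR (min ε (1 / 24)) hε'
    (lt_of_le_of_lt (min_le_right _ _) (by norm_num)) (1 / 100000) (by norm_num)
  obtain ⟨η2, hη2def⟩ : ∃ η2 : ℝ, η2 = min η (δ / 20) := ⟨_, rfl⟩
  have hη2 : 0 < η2 := by rw [hη2def]; exact lt_min hη (by linarith)
  have hη2a : η2 ≤ η := by rw [hη2def]; exact min_le_left _ _
  have hη2b : η2 ≤ δ / 20 := by rw [hη2def]; exact min_le_right _ _
  obtain ⟨C2, hC2, hphi2⟩ := a4 R ω hR V CV hV f g hg η2 hη2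
  obtain ⟨CR, q2, hCR, hrough⟩ := a6 R ω hR
  obtain ⟨CK, hCK, hcard⟩ := card_lower a7 h4
  obtain ⟨CM, hCM, hmert⟩ := a7
  obtain ⟨η3, hη3def⟩ : ∃ η3 : ℝ, η3 = min (δ / 12) (1 / 1500) := ⟨_, rfl⟩
  have hη3 : 0 < η3 := by rw [hη3def]; exact lt_min (by linarith) (by norm_num)
  have hη3a : η3 ≤ δ / 12 := by rw [hη3def]; exact min_le_left _ _
  have hη3b : η3 ≤ 1 / 1500 := by rw [hη3def]; exact min_le_right _ _
  obtain ⟨Cτ, hCτ, hτ, -⟩ := hdiv η3 hη3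
  obtain ⟨Ln, hLn⟩ : ∃ Ln : ℝ, Ln = ‖L0‖ := ⟨_, rfl⟩
  have hLn0 : 0 < Ln := by rw [hLn]; exact norm_pos_iff.2 hL0
  obtain ⟨L1n, hL1n⟩ : ∃ L1n : ℝ, L1n = ‖L1‖ := ⟨_, rfl⟩
  have hL1n0 : 0 ≤ L1n := by rw [hL1n]; exact norm_nonneg _
  obtain ⟨lx, hlx⟩ : ∃ lx : ℝ, lx = |Real.log x0| := ⟨_, rfl⟩
  have hlx0 : 0 ≤ lx := by rw [hlx]; exact abs_nonneg _
  obtain ⟨CΛ, hCΛ⟩ : ∃ CΛ : ℝ, CΛ = Ln * (2 + lx) + L1n + 1 := ⟨_, rfl⟩
  have hCΛ0 : 0 < CΛ := by rw [hCΛ]; positivity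
  obtain ⟨l1, hl1s⟩ := log_pow_small (Ln * (4 * 201 ^ 2 * (CM * 200 ^ 5))) 7
  obtain ⟨a, hadef⟩ : ∃ a : ℝ, a = min (min (1 / 400) (δ / 4)) (1 / 100000) := ⟨_, rfl⟩
  have ha0 : 0 < a := by
    rw [hadef]; exact lt_min (lt_min (by norm_num) (by linarith)) (by norm_num)
  have haa : a ≤ 1 / 400 := by rw [hadef]; exact (min_le_left _ _).trans (min_le_left _ _)
  have hab : a ≤ δ / 4 := by rw [hadef]; exact (min_le_left _ _).trans (min_le_right _ _)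
  have hac : a ≤ 1 / 100000 := by rw [hadef]; exact min_le_right _ _
  have hM0 : (0 : ℝ) < M := by exact_mod_cast hM
  obtain ⟨l00, hl00⟩ := fin_num (Ln / 4 / (CM * 200 ^ 5)) (243 * M * CK * (CΛ * 4 * CR))
    (243 * M * CK * (CΛ * Cτ * C3 + (Cτ * C2 * CT + C5)) + (C3 + 1)) a (by positivity) ha0
  obtain ⟨l0, hl0d⟩ : ∃ l0 : ℝ, l0 = max l00 (max l1 (2 * (lx + L1n / Ln))) := ⟨_, rfl⟩
  -- the threshold
  refine ⟨max (max (max q1 (max q2 q4)) (max C3 (Real.exp (max l0 3))))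
    (max (max 27 (1 / x0)) (max ((8 * x0) ^ 10) 3)), ?_⟩
  intro q χ hχ hcop hqq d hd hdq M₁ hM₁1 hM₁0 hM₁d
  by_contra hcon
  push Not at hcon
  have hq1 : q1 ≤ q := ((le_max_left _ _).trans ((le_max_left _ _).trans (le_max_left _ _))).trans hqq
  have hq24 : max q2 q4 ≤ q :=
    ((le_max_right _ _).trans ((le_max_left _ _).trans (le_max_left _ _))).trans hqq
  have hq2 : q2 ≤ q := (le_max_left _ _).trans hq24
  have hq44 : q4 ≤ q := (le_max_right _ _).trans hq24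
  have hq3 : C3 ≤ q := ((le_max_left _ _).trans ((le_max_right _ _).trans (le_max_left _ _))).trans hqq
  have hq4 : Real.exp (max l0 3) ≤ q :=
    ((le_max_right _ _).trans ((le_max_right _ _).trans (le_max_left _ _))).trans hqq
  have hq5 : (27 : ℝ) ≤ q := ((le_max_left _ _).trans ((le_max_left _ _).trans (le_max_right _ _))).trans hqq
  have hq6 : 1 / x0 ≤ q := ((le_max_right _ _).trans ((le_max_left _ _).trans (le_max_right _ _))).trans hqq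
  have hq7 : (8 * x0) ^ 10 ≤ q :=
    ((le_max_left _ _).trans ((le_max_right _ _).trans (le_max_right _ _))).trans hqq
  have hp := hχ.prime
  obtain ⟨Q, hQ⟩ : ∃ Q : ℝ, Q = q := ⟨_, rfl⟩
  rw [← hQ] at hq1 hq2 hq44 hq3 hq4 hq5 hq6 hq7 hdq
  have hQ0 : 0 < Q := by linarith
  have hQ1 : 1 ≤ Q := by linarith
  obtain ⟨l, hl⟩ : ∃ l : ℝ, l = Real.log Q := ⟨_, rfl⟩
  have hlmax : max l0 3 ≤ l := by
    rw [hl]
    exact (Real.le_log_iff_exp_le hQ0).2 hq4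
  have hl3 : 3 ≤ l := (le_max_right _ _).trans hlmax
  have hll0' : l0 ≤ l := (le_max_left _ _).trans hlmax
  rw [hl0d] at hll0'
  have hll0 : l00 ≤ l := (le_max_left _ _).trans hll0'
  have hll1 : l1 ≤ l := (le_max_left _ _).trans ((le_max_right _ _).trans hll0')
  have hll2 : 2 * (lx + L1n / Ln) ≤ l := (le_max_right _ _).trans ((le_max_right _ _).trans hll0')
  have hlpos : 0 < l := by linarith
  -- the norm of `q`
  have hnq : nm (sp (q : R)) = Q ^ 2 := by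
    rw [b5, hQ]
    push_cast
    rw [Complex.normSq_natCast]
    ring
  obtain ⟨X, hX⟩ : ∃ X : ℝ, X = x0 * q := ⟨_, rfl⟩
  have hXq : X = x0 * Q := by rw [hX, hQ]
  obtain ⟨y, hy⟩ : ∃ y : ℝ, y = l ^ 200 := ⟨_, rfl⟩
  obtain ⟨Z, hZ⟩ : ∃ Z : ℝ, Z = Q ^ (1 / 10 : ℝ) := ⟨_, rfl⟩
  have hZ1 : 1 ≤ Z := by rw [hZ]; exact Real.one_le_rpow hQ1 (by norm_num)
  have hX1 : 1 ≤ X := by
    rw [hXq]
    rw [div_le_iff₀ hx0] at hq6
    linarith
  have hZX : Z * X ≤ Q ^ (6 / 5 : ℝ) / 8 := by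
    have e1 : 8 * x0 ≤ Q ^ (1 / 10 : ℝ) := by
      have e2 : ((8 * x0) ^ 10) ^ (1 / 10 : ℝ) ≤ Q ^ (1 / 10 : ℝ) :=
        Real.rpow_le_rpow (by positivity) hq7 (by norm_num)
      have e3 : ((8 * x0) ^ 10) ^ (1 / 10 : ℝ) = 8 * x0 := by
        rw [← Real.rpow_natCast, ← Real.rpow_mul (by positivity)]
        norm_num
      rwa [e3] at e2
    have e4 : Q ^ (6 / 5 : ℝ) = Q ^ (1 / 10 : ℝ) * (Q ^ (1 / 10 : ℝ) * Q) := by
      rw [← Real.rpow_add_one hQ0.ne', ← Real.rpow_add hQ0]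
      norm_num
    rw [e4, hXq, hZ]
    have e5 : 0 < Q ^ (1 / 10 : ℝ) := Real.rpow_pos_of_pos hQ0 _
    have e6 := mul_le_mul_of_nonneg_right e1 (by positivity : 0 ≤ Q ^ (1 / 10 : ℝ) * Q)
    have e7 : Q ^ (1 / 10 : ℝ) * (x0 * Q) = (8 * x0 * (Q ^ (1 / 10 : ℝ) * Q)) / 8 := by ring
    rw [e7]
    exact div_le_div_of_nonneg_right e6 (by norm_num)
  have hZXpos : 0 < Z * X := by positivity
  have hZX1 : 1 ≤ 8 * (Z * X) := by
    have := one_le_mul_of_one_le_of_one_le hZ1 hX1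
    linarith
  -- the order
  have hdpos := hd.pos
  have hd3 : 3 ≤ d := by
    have e1 : (3 : ℝ) ≤ d := by
      refine le_trans ?_ hdq
      have e2 : Q ^ (1 / 3 : ℝ) ≤ Q ^ (2 / 3 + ε) :=
        Real.rpow_le_rpow_of_exponent_le hQ1 (by linarith)
      refine le_trans ?_ e2
      have e3 : (27 : ℝ) ^ (1 / 3 : ℝ) ≤ Q ^ (1 / 3 : ℝ) :=
        Real.rpow_le_rpow (by norm_num) hq5 (by norm_num)
      refine le_trans (le_of_eq ?_) e3
      rw [show (27 : ℝ) = 3 ^ (3 : ℝ) by norm_num, ← Real.rpow_mul (by norm_num)]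
      norm_num
    exact_mod_cast e1
  have hd0 : (0 : ℝ) < d := by exact_mod_cast hdpos
  have hdQ3 : (d : ℝ) ≤ Q ^ 3 := by
    have e1 := (hord _ χ hχ.rc d hd).1
    rw [hnq] at e1
    calc (d : ℝ) ≤ C3 * Q ^ 2 := e1
      _ ≤ Q * Q ^ 2 := by gcongr
      _ = Q ^ 3 := by ring
  have hlogd : Real.log d ≤ 3 * l := by
    rw [hl]
    calc Real.log d ≤ Real.log (Q ^ 3) := Real.log_le_log hd0 hdQ3
      _ = 3 * Real.log Q := by rw [Real.log_pow]; norm_num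
  have hlogd0 : 0 ≤ Real.log d := Real.log_nonneg (by exact_mod_cast (by omega : 1 ≤ d))
  have hτd : (d.divisors.card : ℝ) ≤ Cτ * Q ^ (3 * η3) := by
    refine (hτ d (by omega)).trans ?_
    refine mul_le_mul_of_nonneg_left ?_ hCτ.le
    calc (d : ℝ) ^ η3 ≤ (Q ^ 3) ^ η3 := Real.rpow_le_rpow hd0.le hdQ3 hη3.le
      _ = Q ^ (3 * η3) := by
          rw [← Real.rpow_natCast Q 3, ← Real.rpow_mul hQ0.le]
          norm_num
  obtain ⟨Y, hY⟩ : ∃ Y : ℝ, Y = Q ^ (1 / 100000 : ℝ) := ⟨_, rfl⟩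
  obtain ⟨Y1, hY1⟩ : ∃ Y1 : ℝ, Y1 = Q ^ (1 / 100 : ℝ) := ⟨_, rfl⟩
  obtain ⟨E, hE⟩ : ∃ E : ℝ, E = Q ^ (-1 / 50000 : ℝ) := ⟨_, rfl⟩
  obtain ⟨Λ, hΛ⟩ : ∃ Λ : ℝ, Λ = Ln * (Real.log X + l) + L1n +
    Ln * (4 * (1 + Real.log y) ^ 2 * (CM * (Real.log y) ^ 5)) := ⟨_, rfl⟩
  have hlogX : Real.log X = Real.log x0 + l := by
    rw [hXq, Real.log_mul hx0.ne' hQ0.ne', hl]
  have hlogX0 : 0 ≤ Real.log X := Real.log_nonneg hX1
  have hlx1 : Real.log x0 ≤ lx := by rw [hlx]; exact le_abs_self _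
  have hlx2 : -lx ≤ Real.log x0 := by rw [hlx]; exact neg_abs_le _
  have hlogy : Real.log y = 200 * Real.log l := by
    rw [hy, Real.log_pow]
    norm_num
  have hlogl1 : 1 ≤ Real.log l := by
    have e1 : Real.exp 1 ≤ l := le_trans (by linarith only [Real.exp_one_lt_d9]) hl3
    exact (Real.le_log_iff_exp_le hlpos).2 e1
  have hlogy0 : 0 < Real.log y := by rw [hlogy]; linarith only [hlogl1]
  have hΛ0 : 0 ≤ Λ := by
    rw [hΛ]
    have := hLn0.le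
    have := hCM.le
    have := hlogy0.le
    have := hlpos.le
    exact add_nonneg (add_nonneg (mul_nonneg hLn0.le (add_nonneg hlogX0 hlpos.le)) hL1n0)
      (mul_nonneg hLn0.le (mul_nonneg (mul_nonneg (by norm_num) (sq_nonneg _))
        (mul_nonneg hCM.le (pow_nonneg hlogy0.le 5))))
  have hΛle : Λ ≤ CΛ * l := by
    rw [hCΛ]
    exact lam_le hLn0.le hL1n0 hlx0 hCM hl3 hlogX hlx1 hlogy (hl1s l hll1) hΛ
  obtain ⟨A, hA⟩ : ∃ A : ℝ, A = C2 * (Z * X) ^ (4 * η2) := ⟨_, rfl⟩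
  have hYone : 1 ≤ Y := by rw [hY]; exact Real.one_le_rpow hQ1 (by norm_num)
  have hYY1 : Y ≤ Y1 := by
    rw [hY, hY1]; exact Real.rpow_le_rpow_of_exponent_le hQ1 (by norm_num)
  have hY1pos : 0 < Y1 := by rw [hY1]; exact Real.rpow_pos_of_pos hQ0 _
  have hE0 : 0 ≤ E := by rw [hE]; exact Real.rpow_nonneg hQ0.le _
  have hA0 : 0 ≤ A := by rw [hA]; exact mul_nonneg hC2.le (Real.rpow_nonneg hZXpos.le _)
  obtain ⟨H, hH⟩ : ∃ H : Ideal R → ℂ, H = fun c => if Pri c then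
      (∑ a ∈ Ea d M₁, pw χ a c) * (g c / (nm c : ℂ) * PhV V f y Z X q g c) else 0 := ⟨_, rfl⟩
  have hHp : ∀ c, (Pri c → H c = (∑ a ∈ Ea d M₁, pw χ a c) *
      (g c / (nm c : ℂ) * PhV V f y Z X q g c)) ∧ (¬ Pri c → H c = 0) := fun c => by
    rw [hH]; exact ⟨fun hc => if_pos hc, fun hc => if_neg hc⟩
  obtain ⟨hHs, hHsum⟩ := regroup a2 hR hV hg hram hχ hd M₁ hZ1 hX1 H hHp
  have hpwle : ∀ (b : ℕ) (c : Ideal R), ‖pw χ b c‖ ≤ 1 :=
    fun b c => Pool.Agent.W768.HK.Finn0.pw_le χ (fun I hI =>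
      Complex.norm_eq_one_of_pow_eq_one (hd.pow I hI) hd.pos.ne') b c
  -- the bound of the sum over the conjugates
  have hT0 : ‖∑' c : Ideal R, H c‖ ≤ d * (C5 * Q ^ (-1 / 200 : ℝ)) := by
    rw [← hHsum]
    obtain ⟨Bd, hBd⟩ : ∃ Bd : ℝ, Bd = CM1 * Z * (CS1 * X ^ (13 / 25 : ℝ)) := ⟨_, rfl⟩
    have hBd0 : 0 ≤ Bd := by rw [hBd]; positivity
    obtain ⟨EE, hEE⟩ : ∃ EE : Finset ℕ, EE = (Ea d M₁).filter
        (fun b => (q : ℝ) ^ (-1 / 9 : ℝ) ≤ ‖smo V g X (pw χ b)‖) := ⟨_, rfl⟩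
    have hEEc : (EE.card : ℝ) ≤ d * Q ^ (-5 / 8 : ℝ) := by
      rw [hEE, hX, hQ]
      exact hcon.le
    obtain ⟨FF, hFF⟩ : ∃ FF : Finset ℕ, FF = (Ea d M₁).filter
        (fun b => ¬ (q : ℝ) ^ (-1 / 9 : ℝ) ≤ ‖smo V g X (pw χ b)‖) := ⟨_, rfl⟩
    have hFFc : (FF.card : ℝ) ≤ d := by
      have e1 : FF.card ≤ (Ea d M₁).card := by rw [hFF]; exact Finset.card_filter_le _ _
      have e2 : (Ea d M₁).card ≤ d := by
        unfold Ea
        exact (Finset.card_filter_le _ _).trans (Finset.card_range d).le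
      exact_mod_cast e1.trans e2
    have e1 : ∑ b ∈ Ea d M₁, Ml f y Z g (pw χ b) * smo V g X (pw χ b) =
        ∑ b ∈ EE, Ml f y Z g (pw χ b) * smo V g X (pw χ b) +
        ∑ b ∈ FF, Ml f y Z g (pw χ b) * smo V g X (pw χ b) := by
      rw [hEE, hFF]
      exact (Finset.sum_filter_add_sum_filter_not _ _ _).symm
    have e2 : ‖∑ b ∈ EE, Ml f y Z g (pw χ b) * smo V g X (pw χ b)‖ ≤
        d * (CM1 * (CS1 * x0 ^ (13 / 25 : ℝ)) * Q ^ (-1 / 200 : ℝ)) := by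
      calc ‖∑ b ∈ EE, Ml f y Z g (pw χ b) * smo V g X (pw χ b)‖ ≤
            ∑ b ∈ EE, ‖Ml f y Z g (pw χ b) * smo V g X (pw χ b)‖ := norm_sum_le _ _
        _ ≤ ∑ _b ∈ EE, Bd := by
            refine Finset.sum_le_sum fun b _ => ?_
            rw [norm_mul, hBd]
            exact mul_le_mul (hml f g hg y Z hZ1 _ (hpwle b)) (hsmo X hX1 _ (hpwle b))
              (norm_nonneg _) (mul_nonneg hCM1.le (by linarith only [hZ1]))
        _ = EE.card * Bd := by rw [Finset.sum_const, nsmul_eq_mul]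
        _ ≤ (d * Q ^ (-5 / 8 : ℝ)) * Bd := mul_le_mul_of_nonneg_right hEEc hBd0
        _ = d * (CM1 * (CS1 * x0 ^ (13 / 25 : ℝ)) *
              (Q ^ (-5 / 8 : ℝ) * Q ^ (1 / 10 : ℝ) * Q ^ (13 / 25 : ℝ))) := by
            rw [hBd, hXq, Real.mul_rpow hx0.le hQ0.le, hZ]
            ring
        _ = _ := by
            rw [← Real.rpow_add hQ0, ← Real.rpow_add hQ0]
            norm_num
    have e3 : ‖∑ b ∈ FF, Ml f y Z g (pw χ b) * smo V g X (pw χ b)‖ ≤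
        d * (CM1 * Q ^ (-1 / 200 : ℝ)) := by
      have e5 : 0 ≤ CM1 * Q ^ (-1 / 200 : ℝ) := mul_nonneg hCM1.le (Real.rpow_nonneg hQ0.le _)
      calc ‖∑ b ∈ FF, Ml f y Z g (pw χ b) * smo V g X (pw χ b)‖ ≤
            ∑ b ∈ FF, ‖Ml f y Z g (pw χ b) * smo V g X (pw χ b)‖ := norm_sum_le _ _
        _ ≤ ∑ _b ∈ FF, (CM1 * Q ^ (-1 / 200 : ℝ)) := by
            refine Finset.sum_le_sum fun b hb => ?_
            rw [hFF, Finset.mem_filter] at hb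
            have e4 : ‖smo V g X (pw χ b)‖ ≤ Q ^ (-1 / 9 : ℝ) := by
              rw [hQ]
              exact (not_le.1 hb.2).le
            rw [norm_mul]
            calc ‖Ml f y Z g (pw χ b)‖ * ‖smo V g X (pw χ b)‖ ≤ (CM1 * Z) * Q ^ (-1 / 9 : ℝ) :=
                  mul_le_mul (hml f g hg y Z hZ1 _ (hpwle b)) e4 (norm_nonneg _)
                    (mul_nonneg hCM1.le (by linarith only [hZ1]))
              _ = CM1 * Q ^ (1 / 10 + -1 / 9 : ℝ) := by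
                  rw [hZ, Real.rpow_add hQ0]
                  ring
              _ ≤ CM1 * Q ^ (-1 / 200 : ℝ) := mul_le_mul_of_nonneg_left
                  (Real.rpow_le_rpow_of_exponent_le hQ1 (by norm_num)) hCM1.le
        _ = FF.card * (CM1 * Q ^ (-1 / 200 : ℝ)) := by rw [Finset.sum_const, nsmul_eq_mul]
        _ ≤ _ := mul_le_mul_of_nonneg_right hFFc e5
    rw [e1, hC5]
    refine (norm_add_le _ _).trans ((add_le_add e2 e3).trans (le_of_eq ?_))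
    ring
  obtain ⟨K, hK⟩ : ∃ K : ℝ, K = ((Ea d M₁).card : ℝ) := ⟨_, rfl⟩
  have hK0 : 0 ≤ K := by rw [hK]; exact Nat.cast_nonneg _
  obtain ⟨DD, hDD⟩ : ∃ DD : Finset ℕ, DD = d.divisors.filter (fun r => Nat.Coprime r M₁) := ⟨_, rfl⟩
  have hDDs : DD ⊆ d.divisors := by rw [hDD]; exact Finset.filter_subset _ _
  have hDDd : ∀ r ∈ DD, r * M₁ ∣ d := by
    intro r hr
    rw [hDD, Finset.mem_filter, Nat.mem_divisors] at hr
    exact Nat.Coprime.mul_dvd_of_dvd_of_dvd hr.2 hr.1.1 hM₁d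
  -- the total bound
  have hQ23 : Q ^ (2 / 3 : ℝ) ≤ d :=
    (Real.rpow_le_rpow_of_exponent_le hQ1 (by linarith only [hε])).trans hdq
  have hQ23' : Q ^ (2 / 3 + min ε (1 / 24)) ≤ d :=
    (Real.rpow_le_rpow_of_exponent_le hQ1 (by linarith only [min_le_left ε (1 / 24 : ℝ)])).trans hdq
  have h8pos : (0 : ℝ) < 8 * (Z * X) := by linarith only [hZX1]
  have h8le : 8 * (Z * X) ≤ Q ^ (6 / 5 : ℝ) := by linarith only [hZX]
  have hCRl : 0 ≤ CR * l ^ (-10 : ℝ) := mul_nonneg hCR.le (Real.rpow_nonneg hlpos.le _)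
  obtain ⟨hbs, hbt⟩ := total hfin hC3 hcnt χ y Y Y1 Y1 (8 * (Z * X)) η K E A Λ CT (Q ^ (-δ))
    (CR * l ^ (-10 : ℝ)) d M₁ (by omega) hM₁1 DD hDDs hYone hK0 hE0 hA0 hΛ0 hY1pos
    hCRl (Real.rpow_nonneg hQ0.le _) hCT.le (fun r hr hk => by
      have e1 := hrough q χ hχ (by rw [← hQ]; exact hq2) d hd (by rw [← hQ]; exact hQ23) (r * M₁)
        (hDDd r hr) (by rw [← hQ, ← hY1]; exact hk)
      rw [← hQ, ← hl, ← hy, ← hY1] at e1
      exact e1) (fun r hr => by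
      have e1 := htail q χ hχ d hd (by rw [← hQ]; exact hQ23') (r * M₁) (hDDd r hr)
        (8 * (Z * X)) hZX1 (by rw [← hQ]; exact h8le)
      rw [← hQ, ← hY] at e1
      exact e1)
  have hdl0 : ∀ c : Ideal R, 0 ≤ dl f y c ∧ dl f y c ≤ 1 := by
    intro c
    unfold dl
    have hpr : ∀ p ∈ SP f y, (0 : ℝ) ≤ 1 - 1 / (p : ℝ) ∧ 1 - 1 / (p : ℝ) ≤ 1 := by
      intro p hp'
      unfold SP at hp'
      rw [Finset.mem_filter] at hp'
      have e1 : (1 : ℝ) ≤ p := by exact_mod_cast hp'.2.1.one_lt.le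
      have e2 : 1 / (p : ℝ) ≤ 1 := by rw [div_le_one (by linarith)]; exact e1
      have e3 : 0 ≤ 1 / (p : ℝ) := by positivity
      exact ⟨by linarith, by linarith⟩
    split_ifs
    · exact ⟨Finset.prod_nonneg fun p hp' => (hpr p hp').1,
        Finset.prod_le_one (fun p hp' => (hpr p hp').1) fun p hp' => (hpr p hp').2⟩
    · exact ⟨le_rfl, zero_le_one⟩
  have hy3 : 3 ≤ y := by
    rw [hy]
    calc (3 : ℝ) ≤ l := hl3
      _ = l ^ 1 := (pow_one l).symm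
      _ ≤ l ^ 200 := pow_le_pow_right₀ (by linarith) (by norm_num)
  have hmy : 1 / (CM * (Real.log y) ^ 5) ≤ ∏ p ∈ SP f y, (1 - 1 / (p : ℝ)) := by
    refine hmert (SP f y) y hy3 (fun p hp' => ?_)
    unfold SP at hp'
    rw [Finset.mem_filter, Finset.mem_range] at hp'
    refine ⟨hp'.2.1, ?_⟩
    have e3 : p ≤ ⌊y⌋₊ := Nat.lt_succ_iff.1 hp'.1
    exact (Nat.le_floor_iff (by linarith)).1 e3
  have hcard0 : ∀ c : Ideal R, (sdv f y c).card = 0 ↔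
      ∀ p ∈ SP f y, ¬ PP f p ∣ c ∧ ¬ bar (PP f p) ∣ c := by
    intro c
    unfold sdv
    rw [Finset.card_eq_zero, Finset.filter_eq_empty_iff]
    constructor
    · intro h p hp'
      have := h hp'
      push Not at this
      exact this
    · intro h p hp'
      have := h p hp'
      push Not
      exact this
  have hdlc : ∀ c : Ideal R, (sdv f y c).card = 0 → dl f y c = ∏ p ∈ SP f y, (1 - 1 / (p : ℝ)) := by
    intro c hc
    unfold dl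
    rw [if_pos ((hcard0 c).1 hc)]
  have hdlz : ∀ c : Ideal R, (sdv f y c).card ≠ 0 → dl f y c = 0 := by
    intro c hc
    unfold dl
    rw [if_neg fun h => hc ((hcard0 c).2 h)]
  obtain ⟨dT, hdT⟩ : ∃ dT : ℝ, dT = dl f y ⊤ := ⟨_, rfl⟩
  have hdT0 : 0 ≤ dT := by rw [hdT]; exact (hdl0 ⊤).1
  have hPc : ∀ c : Ideal R, Pri c → nm c ≤ Y →
      ‖PhV V f y Z X q g c - ((L0 * (Real.log (X / nm c) : ℂ) + L1) * (dl f y c : ℂ) +
        L0 * (dL f y c : ℂ))‖ ≤ E := by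
    intro c hc hcY
    have e1 := hphi q hp hcop (by rw [← hQ]; exact hq1) X (by rw [← hQ, hXq])
      (by rw [← hQ, hXq]) c hc (by rw [← hQ, ← hY]; exact hcY)
    rw [← hQ, ← hl, ← hy, ← hZ, ← hE] at e1
    exact e1
  obtain ⟨sS, hsS⟩ : ∃ sS : Ideal R → ℝ, sS = fun c => if C1 f y c ∧ nm c ≤ Y ∧ χ c ≠ 0
      then ‖∑ a ∈ Ea d M₁, pw χ a c‖ * (Real.log (nm c) * (nm c) ^ (-1 / 2 : ℝ)) else 0 :=
    ⟨_, rfl⟩
  have hnn : ∀ c : Ideal R, 0 ≤ nm c := fun c => Nat.cast_nonneg _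
  have hsS0 : ∀ c, 0 ≤ sS c := by
    intro c
    rw [hsS]
    simp only
    split_ifs with h
    · have e1 : 1 ≤ nm c := b3 c h.1.pri.1
      exact mul_nonneg (norm_nonneg _) (mul_nonneg (Real.log_nonneg e1)
        (Real.rpow_nonneg (hnn c) _))
    · exact le_rfl
  have hsSs : Summable sS := by
    refine summable_of_ne_finset_zero (s := (hfin Y).toFinset) fun c hc => ?_
    rw [Set.Finite.mem_toFinset] at hc
    rw [hsS]
    exact if_neg fun h => hc h.2.1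
  have hsSt : ∑' c, sS c ≤ 1 / 8 * l * K := by
    have e1 := hssum q χ hχ (by rw [← hQ]; exact hq44) d hd (by rw [← hQ]; exact hQ23) M₁ hM₁1
      hM₁0 hM₁d
    rw [← hQ, ← hl, ← hy, ← hY, ← hK] at e1
    rw [hsS]
    exact e1
  have hy1 : 1 ≤ y := by linarith only [hy3]
  have hterm : ∀ c : Ideal R, ‖(if c = ⊤ then 0 else H c : ℂ)‖ ≤
      ((∑ r ∈ DD, (d : ℝ) / (r * M₁) * (Λ * tU χ y (r * M₁) Y1 Y Y1 c)) +
      K * E * tV Y c + ∑ r ∈ DD, (d : ℝ) / (r * M₁) * (A * tT χ (r * M₁) Y (8 * (Z * X)) η c)) +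
        Ln * dT * sS c := by
    intro c
    by_cases hcT : c = ⊤
    · rw [if_pos hcT, norm_zero]
      refine add_nonneg (add_nonneg (add_nonneg ?_ ?_) ?_) ?_
      · exact Finset.sum_nonneg fun r _ => mul_nonneg (by positivity)
          (mul_nonneg hΛ0 (tU_nonneg _ _ _ _ _ _ _))
      · exact mul_nonneg (mul_nonneg hK0 hE0) (tV_nonneg _ _)
      · exact Finset.sum_nonneg fun r _ => mul_nonneg (by positivity)
          (mul_nonneg hA0 (tT_nonneg _ _ _ _ _ _))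
      · exact mul_nonneg (mul_nonneg hLn0.le hdT0) (hsS0 c)
    rw [if_neg hcT]
    refine term_bd h1 a1 a8 hR hg hcs hχ hd hM₁1 hM₁d (L0 := L0) (L1 := L1) (η2 := η2) hX1 hZ1
      hYY1 hE0 hA0 hΛ0 hη2a hdT0 hLn hL1n hK hlogy0 hCM (fun c hc hcY => ?_) hΛ hmy hdl0 hdlc hdlz
      (fun c hc => ?_) hPc (fun c hc => ?_) sS hsS0 (fun c k1 k2 k3 => ?_) DD hDD H hHp c hcT
    · rw [hl]
      have hn0 : 0 < nm c := lt_of_lt_of_le one_pos (b3 c hc.1)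
      refine Real.log_le_log hn0 (hcY.trans ?_)
      rw [hY]
      calc Q ^ (1 / 100000 : ℝ) ≤ Q ^ (1 : ℝ) :=
            Real.rpow_le_rpow_of_exponent_le hQ1 (by norm_num)
        _ = Q := Real.rpow_one Q
    · have e1 := a9 R ω hR f y hf0 hy1 c hc
      rw [← hdT] at e1
      exact e1
    · have e1 := hphi2 y Z X q hp hZ1 hX1 c hc
      rw [← hA] at e1
      exact e1
    · rw [hsS]
      exact if_pos ⟨k1, k2, k3⟩
  have hrest := tsum_of_norm_bounded (hbs.add (hsSs.mul_left (Ln * dT))).hasSum hterm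
  rw [hbs.tsum_add (hsSs.mul_left (Ln * dT)), tsum_mul_left] at hrest
  have hTT := hHs.tsum_eq_add_tsum_ite ⊤
  have hHT2 : ‖H ⊤‖ ≤ d * (Λ * ((1 + Real.log d) * (CR * l ^ (-10 : ℝ)) +
      d.divisors.card * (Y1⁻¹ * (C3 * Y)))) + K * E * (C3 * Y) +
        d * (d.divisors.card * (A * CT * Q ^ (-δ))) + Ln * dT * (1 / 8 * l * K) +
          d * (C5 * Q ^ (-1 / 200 : ℝ)) := by
    have e1 : H ⊤ = ∑' c : Ideal R, H c - ∑' c : Ideal R, (if c = ⊤ then 0 else H c) := by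
      rw [hTT]
      ring
    rw [e1]
    refine (norm_sub_le _ _).trans ?_
    have e2 : Ln * dT * ∑' c, sS c ≤ Ln * dT * (1 / 8 * l * K) :=
      mul_le_mul_of_nonneg_left hsSt (mul_nonneg hLn0.le hdT0)
    linarith only [hT0, hrest, hbt, e2]
  clear hbt hrest hterm hbs hT0 hHsum hHs hTT
  -- the value at the unit ideal
  have hnT : nm (⊤ : Ideal R) = 1 := (b7 ⊤).2 rfl
  have hTb : (⊤ : Ideal R) ≠ ⊥ := by
    intro h0
    rw [h0, b2] at hnT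
    exact zero_ne_one hnT
  have hPr : Pri (⊤ : Ideal R) := by
    refine ⟨hTb, ?_⟩
    rw [← Ideal.one_eq_top]
    exact isCoprime_one_left
  have hs1 : sp ((1 : ℕ) : R) = ⊤ := by
    rw [Nat.cast_one]
    exact Ideal.span_singleton_one
  have hχT : χ ⊤ = 1 := by
    rw [← hs1]
    exact hχ.int 1 (Nat.coprime_one_left q)
  have hgT : g ⊤ = 1 := by
    have e1 : g ⊤ ≠ 0 := by
      intro h0
      rcases (hg.zero ⊤).1 h0 with e2 | e2
      · exact hTb e2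
      · rw [← Ideal.one_eq_top] at e2
        exact e2 isCoprime_one_left
    have e3 := hg.mul ⊤ ⊤
    rw [Ideal.mul_top] at e3
    have e4 : g ⊤ * (g ⊤ - 1) = 0 := by linear_combination -e3
    exact sub_eq_zero.1 ((mul_eq_zero.1 e4).resolve_left e1)
  have hHTeq : ‖H ⊤‖ = K * ‖PhV V f y Z X q g ⊤‖ := by
    have e1 : ∀ b ∈ Ea d M₁, pw χ b ⊤ = 1 := by
      intro b _
      unfold pw
      rw [if_neg (by rw [hχT]; exact one_ne_zero), hχT, one_pow]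
    rw [hH]
    simp only [if_pos hPr]
    rw [Finset.sum_congr rfl e1, Finset.sum_const, nsmul_eq_mul, mul_one, hgT, hnT, norm_mul,
      norm_mul, hK]
    simp
  have hsT : (sdv f y (⊤ : Ideal R)).card = 0 := by
    rw [hcard0]
    intro p hp'
    unfold SP at hp'
    rw [Finset.mem_filter] at hp'
    have hex := hp'.2.2
    have hPP : PP f p = Classical.choose hex := by
      unfold PP
      rw [dif_pos hex]
    have hspec := Classical.choose_spec hex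
    rw [← hPP] at hspec
    have q1' := hspec.1
    have q2' := k12 _ q1'
    constructor
    · intro hdv
      exact q1'.ne_top (eq_top_iff.2 (Ideal.le_of_dvd hdv))
    · intro hdv
      exact q2'.ne_top (eq_top_iff.2 (Ideal.le_of_dvd hdv))
  have hdlT : 1 / (CM * (200 * Real.log l) ^ 5) ≤ dT := by
    rw [hdT, hdlc ⊤ hsT, ← hlogy]
    exact hmy
  have hPhT : dT * (Ln * Real.log X - L1n) - E ≤ ‖PhV V f y Z X q g ⊤‖ := by
    have e1 := hPc ⊤ hPr (by rw [hnT]; exact hYone)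
    have e0 := ((a9 R ω hR f y hf0 hy1 ⊤ hPr).1 hsT).1
    rw [hnT, div_one, ← hdT] at e1
    exact pointT hLn hL1n e0 hlogX0 hdT0 e1
  have hcardK := hcard d M₁ hd3 hM₁1 hM₁d
  rw [← hK] at hcardK
  have hdK : (d : ℝ) ≤ K * (M * CK * (Real.log d) ^ 5) := by
    refine hcardK.trans (mul_le_mul_of_nonneg_left ?_ hK0)
    have e2 : (M₁ : ℝ) ≤ M := by exact_mod_cast hM₁0
    exact mul_le_mul_of_nonneg_right (mul_le_mul_of_nonneg_right e2 hCK.le) (pow_nonneg hlogd0 5)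
  have hAle : A ≤ C2 * Q ^ (24 / 5 * η2) := by
    rw [hA]
    refine mul_le_mul_of_nonneg_left ?_ hC2.le
    have e1 : Z * X ≤ Q ^ (6 / 5 : ℝ) := by linarith only [h8le, hZXpos]
    calc (Z * X) ^ (4 * η2) ≤ (Q ^ (6 / 5 : ℝ)) ^ (4 * η2) :=
          Real.rpow_le_rpow hZXpos.le e1 (by linarith only [hη2])
      _ = Q ^ (24 / 5 * η2) := by
          rw [← Real.rpow_mul hQ0.le]
          congr 1
          ring
  rw [hHTeq] at hHT2
  have hM1 : (1 : ℝ) ≤ M := by exact_mod_cast hM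
  exact numbers hLn0 hL1n0 hlx0 hCΛ0 hC3 hC2 hCT hCR hCK hCM hCτ hC50 hM1 ha0 haa hab hac hη2b
    hη3a hη3b hQ1 hl hl3 hY hY1 hE hA0 hAle (Nat.cast_nonneg _) hτd hΛ0 hΛle hlogd0 hlogd hd0 hK0
    hdK hdT0 hdlT hll2 (by rw [hlogX]; linarith only [hlx2]) hPhT hHT2 (hl00 l hll0)

end Pool.Agent.TH936.AE
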