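import Pool.Agent.TH936.AE.Triv

/-!
# Project AE: assembly, the terms
-/

set_option autoImplicit false

open Complex

namespace Pool.Agent.TH936.AE

open Pool.Agent.W192.HK Pool.Agent.TH936.AC Pool.Agent.TH936.AW Pool.Agent.TH936.AD

variable {R : Subring ℂ} {ω : ℂ}

/-- the average of the mollified sums over the conjugates -/
theorem regroup (h9 : E_REG) (hR : QP R ω) {V : ℝ → ℝ} {CV : ℝ} (hV : WG V CV) {f : Ideal R}
    {g : Ideal R → ℂ} (hg : GE f g) (hram : Ram f) {q : ℕ} {χ : Ideal R → ℂ} (hχ : RG q χ) {d : ℕ} (hd : Od χ d) (M : ℕ)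
    {y Z X : ℝ} (hZ : 1 ≤ Z) (hX : 1 ≤ X) (H : Ideal R → ℂ)
    (hH : ∀ c, (Pri c → H c = (∑ a ∈ Ea d M, pw χ a c) * (g c / (nm c : ℂ) * PhV V f y Z X q g c)) ∧
      (¬ Pri c → H c = 0)) :
    Summable H ∧ ∑ a ∈ Ea d M, Ml f y Z g (pw χ a) * smo V g X (pw χ a) = ∑' c : Ideal R, H c := by
  classical
  have hle : ∀ (a : ℕ) (c : Ideal R), ‖pw χ a c‖ ≤ 1 :=
    fun a c => Pool.Agent.W768.HK.Finn0.pw_le χ (fun I hI =>
      Complex.norm_eq_one_of_pow_eq_one (hd.pow I hI) hd.pos.ne') a c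
  have hs : ∀ a : ℕ, Summable (fun c : Ideal R => if Pri c then
      pw χ a c * (g c / (nm c : ℂ) * PhV V f y Z X q g c) else 0) := by
    intro a
    obtain ⟨s1, -⟩ := h9 R ω hR V CV hV f g hg hram q _ (rg_pw hχ a) y Z X hZ hX
    refine Summable.of_norm_bounded s1 fun c => ?_
    split_ifs
    · rw [norm_mul]
      exact mul_le_of_le_one_left (norm_nonneg _) (hle a c)
    · rw [norm_zero]
  have hHe : H = fun c => ∑ a ∈ Ea d M, (if Pri c then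
      pw χ a c * (g c / (nm c : ℂ) * PhV V f y Z X q g c) else 0) := by
    funext c
    by_cases hc : Pri c
    · simp only [if_pos hc]
      rw [(hH c).1 hc, Finset.sum_mul]
    · simp only [if_neg hc, Finset.sum_const_zero]
      exact (hH c).2 hc
  rw [hHe]
  refine ⟨summable_sum fun a _ => hs a, ?_⟩
  rw [Summable.tsum_finsetSum (fun a _ => hs a)]
  exact Finset.sum_congr rfl fun a _ => (h9 R ω hR V CV hV f g hg hram q _ (rg_pw hχ a) y Z X hZ hX).2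

/-- the bound for one term -/
theorem term_bd (h1 : H_BASIC) (a1 : A_BAR) (a8 : A_RBD) (hR : QP R ω) {V : ℝ → ℝ}
    {f : Ideal R} {g : Ideal R → ℂ} (hg : GE f g) (hcs : CS g) {q : ℕ} {χ : Ideal R → ℂ}
    (hχ : RG q χ) {d : ℕ} (hd : Od χ d) {M₁ : ℕ} (hM₁1 : 1 ≤ M₁) (hM₁d : M₁ ∣ d)
    {y Z X Y Y1 K E A Λ η η2 Ln dT l L1n CM : ℝ} {L0 L1 : ℂ} (hX1 : 1 ≤ X) (hZ1 : 1 ≤ Z)
    (hYY1 : Y ≤ Y1) (hE0 : 0 ≤ E) (hA0 : 0 ≤ A) (hΛ0 : 0 ≤ Λ) (hη2a : η2 ≤ η) (hdT0 : 0 ≤ dT)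
    (hLn : Ln = ‖L0‖) (hL1n : L1n = ‖L1‖) (hK : K = ((Ea d M₁).card : ℝ))
    (hlogy0 : 0 < Real.log y) (hCM : 0 < CM) (hYl : ∀ c : Ideal R, Pri c → nm c ≤ Y → Real.log (nm c) ≤ l)
    (hΛ : Λ = Ln * (Real.log X + l) + L1n +
      Ln * (4 * (1 + Real.log y) ^ 2 * (CM * (Real.log y) ^ 5)))
    (hmy : 1 / (CM * (Real.log y) ^ 5) ≤ ∏ p ∈ SP f y, (1 - 1 / (p : ℝ)))
    (hdl0 : ∀ c : Ideal R, 0 ≤ dl f y c ∧ dl f y c ≤ 1)
    (hdlc : ∀ c : Ideal R, (sdv f y c).card = 0 → dl f y c = ∏ p ∈ SP f y, (1 - 1 / (p : ℝ)))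
    (hdlz : ∀ c : Ideal R, (sdv f y c).card ≠ 0 → dl f y c = 0)
    (hdL : ∀ c : Ideal R, Pri c →
      ((sdv f y c).card = 0 → 0 ≤ dL f y c ∧ dL f y c ≤ 4 * (1 + Real.log y) ^ 2) ∧
      ((sdv f y c).card = 1 → |dL f y c| ≤ Real.log (nm c) * dT) ∧
      (2 ≤ (sdv f y c).card → dL f y c = 0))
    (hPc : ∀ c : Ideal R, Pri c → nm c ≤ Y →
      ‖PhV V f y Z X q g c - ((L0 * (Real.log (X / nm c) : ℂ) + L1) * (dl f y c : ℂ) +
        L0 * (dL f y c : ℂ))‖ ≤ E)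
    (hP2 : ∀ c : Ideal R, Pri c → ‖PhV V f y Z X q g c‖ ≤
      A * (nm c) ^ η2 * Real.exp (-(nm c / (8 * (Z * X)))))
    (sS : Ideal R → ℝ) (hsS0 : ∀ c, 0 ≤ sS c)
    (hsS : ∀ c, C1 f y c → nm c ≤ Y → χ c ≠ 0 → sS c =
      ‖∑ a ∈ Ea d M₁, pw χ a c‖ * (Real.log (nm c) * (nm c) ^ (-1 / 2 : ℝ)))
    (DD : Finset ℕ) (hDD : DD = d.divisors.filter (fun r => Nat.Coprime r M₁))
    (H : Ideal R → ℂ) (hH : ∀ c, (Pri c → H c = (∑ a ∈ Ea d M₁, pw χ a c) *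
      (g c / (nm c : ℂ) * PhV V f y Z X q g c)) ∧ (¬ Pri c → H c = 0))
    (c : Ideal R) (hcT : c ≠ ⊤) :
    ‖H c‖ ≤ ((∑ r ∈ DD, (d : ℝ) / (r * M₁) * (Λ * tU χ y (r * M₁) Y1 Y Y1 c)) +
      K * E * tV Y c + ∑ r ∈ DD, (d : ℝ) / (r * M₁) * (A * tT χ (r * M₁) Y (8 * (Z * X)) η c)) +
        Ln * dT * sS c := by
  classical
  obtain ⟨b1, b2, b3, b4, b5, b6, b7, b8, b9⟩ := h1 R ω hR.qr
  have hLn0 : 0 ≤ Ln := by rw [hLn]; exact norm_nonneg _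
  have hK0 : 0 ≤ K := by rw [hK]; exact Nat.cast_nonneg _
  have hd0 : (0 : ℝ) < d := by exact_mod_cast hd.pos
  have n4 : 0 ≤ Ln * dT * sS c := mul_nonneg (mul_nonneg hLn0 hdT0) (hsS0 c)
  have n1 : 0 ≤ ∑ r ∈ DD, (d : ℝ) / ((r : ℝ) * M₁) * (Λ * tU χ y (r * M₁) Y1 Y Y1 c) :=
    Finset.sum_nonneg fun r _ => mul_nonneg (by positivity)
      (mul_nonneg hΛ0 (tU_nonneg _ _ _ _ _ _ _))
  have n2 : 0 ≤ K * E * tV Y c := mul_nonneg (mul_nonneg hK0 hE0) (tV_nonneg _ _)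
  have n3 : 0 ≤ ∑ r ∈ DD, (d : ℝ) / ((r : ℝ) * M₁) * (A * tT χ (r * M₁) Y (8 * (Z * X)) η c) :=
    Finset.sum_nonneg fun r _ => mul_nonneg (by positivity)
      (mul_nonneg hA0 (tT_nonneg _ _ _ _ _ _))
  obtain ⟨S1, hS1⟩ : ∃ S1 : ℝ, S1 = ∑ r ∈ DD, (d : ℝ) / ((r : ℝ) * M₁) *
    (Λ * tU χ y (r * M₁) Y1 Y Y1 c) := ⟨_, rfl⟩
  obtain ⟨S3, hS3⟩ : ∃ S3 : ℝ, S3 = ∑ r ∈ DD, (d : ℝ) / ((r : ℝ) * M₁) *
    (A * tT χ (r * M₁) Y (8 * (Z * X)) η c) := ⟨_, rfl⟩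
  rw [← hS1, ← hS3]
  rw [← hS1] at n1
  rw [← hS3] at n3
  have n5 : 0 ≤ S1 + K * E * tV Y c + S3 + Ln * dT * sS c :=
    add_nonneg (add_nonneg (add_nonneg n1 n2) n3) n4
  by_cases hc : Pri c
  swap
  · rw [(hH c).2 hc, norm_zero]
    exact n5
  rw [(hH c).1 hc]
  have hn1 : 1 ≤ nm c := b3 c hc.1
  have hn0 : 0 < nm c := lt_of_lt_of_le one_pos hn1
  have hgn : ‖g c‖ ≤ (nm c) ^ (1 / 2 : ℝ) := by
    by_cases hcf : IsCoprime c f
    · have e1 := hg.nrm c hc.1 hcf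
      rw [← Real.sqrt_eq_rpow]
      exact Real.le_sqrt_of_sq_le e1.le
    · rw [(hg.zero c).2 (Or.inr hcf), norm_zero]
      exact Real.rpow_nonneg hn0.le _
  have hgn2 : ‖g c / (nm c : ℂ) * PhV V f y Z X q g c‖ ≤
      (nm c) ^ (-1 / 2 : ℝ) * ‖PhV V f y Z X q g c‖ := by
    rw [norm_mul, norm_div, Complex.norm_real, Real.norm_of_nonneg hn0.le]
    refine mul_le_mul_of_nonneg_right ?_ (norm_nonneg _)
    rw [div_le_iff₀ hn0]
    refine hgn.trans (le_of_eq ?_)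
    rw [← Real.rpow_add_one hn0.ne']
    norm_num
  have hgz : ¬ IsCoprime c f → g c / (nm c : ℂ) * PhV V f y Z X q g c = 0 := by
    intro hcf
    rw [(hg.zero c).2 (Or.inr hcf), zero_div, zero_mul]
  have hcopb : IsCoprime c f → IsCoprime (bar c) f := by
    intro hcf
    by_contra hno
    have e1 := (hg.zero (bar c)).2 (Or.inr hno)
    rw [hcs c, map_eq_zero] at e1
    rcases (hg.zero c).1 e1 with e2 | e2
    · exact hc.1 e2
    · exact e2 hcf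
  have hpwle : ∀ (b : ℕ) (c : Ideal R), ‖pw χ b c‖ ≤ 1 :=
    fun b c => Pool.Agent.W768.HK.Finn0.pw_le χ (fun I hI =>
      Complex.norm_eq_one_of_pow_eq_one (hd.pow I hI) hd.pos.ne') b c
  have hpwK : ‖∑ a ∈ Ea d M₁, pw χ a c‖ ≤ K := by
    refine (norm_sum_le _ _).trans ?_
    rw [hK]
    calc ∑ a ∈ Ea d M₁, ‖pw χ a c‖ ≤ ∑ a ∈ Ea d M₁, (1 : ℝ) :=
          Finset.sum_le_sum fun b _ => hpwle b c
      _ = _ := by rw [Finset.sum_const, nsmul_eq_mul, mul_one]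
  by_cases hone : (sdv f y c).card = 1 ∧ nm c ≤ Y
  · -- one small prime
    by_cases hcf : IsCoprime c f
    swap
    · rw [hgz hcf, mul_zero, norm_zero]
      exact n5
    by_cases hχc : χ c = 0
    · have e1 : ∀ a ∈ Ea d M₁, pw χ a c = 0 := by
        intro a _
        unfold pw
        rw [if_pos hχc]
      rw [Finset.sum_eq_zero e1, zero_mul, norm_zero]
      exact n5
    have hC1 : C1 f y c := ⟨hc, hcf, hcopb hcf, hone.1⟩
    have hsc := hsS c hC1 hone.2 hχc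
    have hdl1 := (hdL c hc).2.1 hone.1
    have hPb : ‖PhV V f y Z X q g c‖ ≤ Ln * (Real.log (nm c) * dT) + E := by
      have e1 := hPc c hc hone.2
      rw [hdlz c (by rw [hone.1]; exact one_ne_zero)] at e1
      exact point1 hLn hdl1 e1
    have hV : tV Y c = 1 := by unfold tV; rw [if_pos hone.2]
    have hnh : (nm c) ^ (-1 / 2 : ℝ) ≤ 1 :=
      Real.rpow_le_one_of_one_le_of_nonpos hn1 (by norm_num)
    have hnh0 : 0 ≤ (nm c) ^ (-1 / 2 : ℝ) := Real.rpow_nonneg hn0.le _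
    rw [norm_mul]
    calc ‖∑ a ∈ Ea d M₁, pw χ a c‖ * ‖g c / (nm c : ℂ) * PhV V f y Z X q g c‖
        ≤ ‖∑ a ∈ Ea d M₁, pw χ a c‖ * ((nm c) ^ (-1 / 2 : ℝ) *
            (Ln * (Real.log (nm c) * dT) + E)) := by
          refine mul_le_mul_of_nonneg_left ?_ (norm_nonneg _)
          exact hgn2.trans (mul_le_mul_of_nonneg_left hPb hnh0)
      _ = Ln * dT * sS c + ‖∑ a ∈ Ea d M₁, pw χ a c‖ * ((nm c) ^ (-1 / 2 : ℝ) * E) := by
          rw [hsc]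
          ring
      _ ≤ Ln * dT * sS c + K * (1 * E) := by
          refine add_le_add le_rfl (mul_le_mul hpwK (mul_le_mul_of_nonneg_right hnh hE0)
            (mul_nonneg hnh0 hE0) hK0)
      _ = Ln * dT * sS c + K * E * tV Y c := by rw [hV]; ring
      _ ≤ _ := by linarith only [n1, n3]
  have hmain : ‖(∑ a ∈ Ea d M₁, pw χ a c) * (g c / (nm c : ℂ) * PhV V f y Z X q g c)‖ ≤
      S1 + K * E * tV Y c + S3 := by
    rw [hS1, hS3]
    refine bound_of (W := Y1) DD hn1 hc hcT hd0.le hΛ0 hE0 hYY1 hA0 hη2a hK0 hpwK ?_ hgn2 ?_ ?_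
      (hdl0 c).2 (hdl0 c).1 (P := PhV V f y Z X q g c) (η2 := η2) (hP2 c hc)
    · rw [hDD]
      exact a8 R q χ hχ d hd M₁ hM₁1 hM₁d c
    · intro hcY
      have e1 := hPc c hc hcY
      by_cases hcard2 : (sdv f y c).card = 0
      · have e2 := (hdL c hc).1 hcard2
        have e3 := hdlc c hcard2
        have e4 : 1 ≤ CM * (Real.log y) ^ 5 * dl f y c := by
          rw [e3]
          have e5 : 0 < CM * (Real.log y) ^ 5 := by positivity
          rw [div_le_iff₀ e5] at hmy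
          linarith only [hmy]
        exact point0 hn1 (hYl c hc hcY) hX1 (hdl0 c).1 e4 e2.1 e2.2 hLn hL1n hΛ e1
      · have hcard3 : 2 ≤ (sdv f y c).card := by
          have : (sdv f y c).card ≠ 1 := fun h => hone ⟨h, hcY⟩
          omega
        have e2 := (hdL c hc).2.2 hcard3
        rw [hdlz c hcard2, e2, Complex.ofReal_zero, mul_zero, mul_zero, add_zero,
          sub_zero] at e1
        rw [hdlz c hcard2, mul_zero, zero_add]
        exact e1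
    · intro hne
      by_cases hcf : IsCoprime c f
      · right
        refine rgh_of h1 a1 hR hc hcf (hcopb hcf) ?_
        by_contra hno
        apply hne
        unfold dl
        rw [if_neg hno]
      · left
        exact hgz hcf
  linarith only [hmain, n4]

end Pool.Agent.TH936.AE
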