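import Pool.Agent.TH936.AD.Stmts
import Pool.Agent.W192.HK.Parts0

/-!
# Project AE (owner helper936): ring class characters, `L(χ, 1/2)`

Notation as in the projects AC, AW and AD.  `R` is the ring of integers of an imaginary quadratic field
of class number one, `P` its ramified prime ideal, `q` a prime number, `χ` a ring class character of
conductor `q` and of order `d ≥ q ^ (2/3 + ε)`.  Aim: `L(χ ^ a, 1/2) ≠ 0` for many Galois conjugates.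
The Euler factor at `P` is put into the weight function.  Every `def E_... : Prop` is the statement of
one part.
-/

set_option autoImplicit false

open Complex

namespace Pool.Agent.TH936.AE

open Pool.Agent.W192.HK Pool.Agent.TH936.AC Pool.Agent.TH936.AW Pool.Agent.TH936.AD

/-- completely multiplicative, supported on the ideals prime to `f`, of size `√N` -/
structure GE {R : Subring ℂ} (f : Ideal R) (g : Ideal R → ℂ) : Prop where
  ne : f ≠ ⊥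
  mul : ∀ I J : Ideal R, g (I * J) = g I * g J
  zero : ∀ I : Ideal R, g I = 0 ↔ (I = ⊥ ∨ ¬ IsCoprime I f)
  nrm : ∀ I : Ideal R, I ≠ ⊥ → IsCoprime I f → ‖g I‖ ^ 2 = nm I

/-- weight functions -/
structure WG (U : ℝ → ℝ) (C : ℝ) : Prop where
  pos : 0 < C
  nonneg : ∀ x : ℝ, 0 < x → 0 ≤ U x
  dec : ∀ x : ℝ, 0 < x → U x ≤ C * Real.exp (-(x / 2))
  anti : AntitoneOn U (Set.Ioi 0)

/-- the asymptotic formula for the sum over the rational integers -/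
def EP {R : Subring ℂ} (U : ℝ → ℝ) (f : Ideal R) (g : Ideal R → ℂ) (L0 L1 : ℂ) (C : ℝ) : Prop :=
  L0 ≠ 0 ∧ 0 < C ∧
  ∀ q : ℕ, q.Prime → IsCoprime f (sp (q : R)) → ∀ w : ℝ, 0 < w →
  Summable (fun m : ℕ => if Nat.Coprime m q then g (sp (m : R)) / (m : ℂ) ^ 2 *
      (U ((m : ℝ) ^ 2 * w) : ℂ) else 0) ∧
  (w ≤ 1 → ‖∑' m : ℕ, (if Nat.Coprime m q then g (sp (m : R)) / (m : ℂ) ^ 2 *
      (U ((m : ℝ) ^ 2 * w) : ℂ) else 0) - (L0 * ((-Real.log w : ℝ) : ℂ) + L1)‖ ≤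
    C * (w ^ (3 / 10 : ℝ) + (1 + |Real.log w| + Real.log q) / q))

/-- the weight function with the Euler factor at the ramified prime, `η = ±1` -/
noncomputable def Ve (p : ℕ) (η : ℝ) (x : ℝ) : ℝ :=
  ∑' k : ℕ, (η / Real.sqrt p) ^ k * V0 ((p : ℝ) ^ k * x)

open Classical in
/-- `√N(I)` for the ideals prime to `P` -/
noncomputable def gP {R : Subring ℂ} (P : Ideal R) (I : Ideal R) : ℂ :=
  if IsCoprime I P then (Real.sqrt (nm I) : ℂ) else 0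

/-- `P` is the ramified prime ideal -/
structure RP {R : Subring ℂ} (p : ℕ) (P : Ideal R) : Prop where
  prime : p.Prime
  isPrime : P.IsPrime
  norm : nm P = p
  bar : bar P = P
  sq : P * P = sp (p : R)
  ram : Ram P

/-- RAM : there is exactly one ramified prime ideal -/
def E_RAM : Prop := ∀ (R : Subring ℂ) (ω : ℂ), QP R ω → ∃ (p : ℕ) (P : Ideal R), RP p P

/-- V : the properties of the weight functions -/
def E_V : Prop := ∀ p : ℕ, p.Prime → ∀ η : ℝ, (η = 1 ∨ η = -1) → ∃ C A : ℝ, WG (Ve p η) C ∧ 0 < A ∧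
  ∀ x : ℝ, 0 < x → |Ve p η x - A| ≤ C * x ^ (2 / 5 : ℝ)

/-- EPS : the sum over the rational integers -/
def E_EPS : Prop := ∀ (R : Subring ℂ) (ω : ℂ), QP R ω → ∀ (p : ℕ) (P : Ideal R), RP p P →
  ∀ (U : ℝ → ℝ) (C A : ℝ), WG U C → 0 < A → (∀ x : ℝ, 0 < x → |U x - A| ≤ C * x ^ (2 / 5 : ℝ)) →
  ∃ (L0 L1 : ℂ) (C' : ℝ), EP U P (gP P) L0 L1 C'

/-- FE : the central value -/
def E_FE : Prop := ∀ (R : Subring ℂ) (ω : ℂ), QP R ω → ∀ (p : ℕ) (P : Ideal R), RP p P →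
  ∀ (q : ℕ) (χ : Ideal R → ℂ), q ≠ p → HC 0 (sp (q : R)) χ → RG q χ →
  (χ P = 1 ∨ χ P = -1) ∧ ∃ F : ℂ → ℂ, Differentiable ℂ F ∧
    (∀ z : ℂ, 1 < z.re → HasSum (fun I : Ideal R => χ I * (nm I : ℂ) ^ (-z)) (F z)) ∧
    F (1 / 2) = 2 * smo (Ve p (χ P).re) (gP P) (ω.im * q / Real.pi) χ

/-- PHI : the coefficients of the small primitive ideals (compare `D_PHI`) -/
def E_PHI : Prop := ∀ (R : Subring ℂ) (ω : ℂ), QP R ω → ∀ (U : ℝ → ℝ) (CU : ℝ), WG U CU →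
  ∀ (f : Ideal R) (g : Ideal R → ℂ), GE f g → CS g → ∀ (L0 L1 : ℂ) (CE : ℝ), EP U f g L0 L1 CE →
  ∀ c0 C0 : ℝ, 0 < c0 → 0 < C0 → ∃ q0 : ℝ,
  ∀ q : ℕ, q.Prime → IsCoprime f (sp (q : R)) → q0 ≤ q → ∀ X : ℝ, c0 * q ≤ X → X ≤ C0 * q →
  ∀ c : Ideal R, Pri c → nm c ≤ (q : ℝ) ^ (1 / 100000 : ℝ) →
    ‖PhV U f ((Real.log q) ^ 200) ((q : ℝ) ^ (1 / 10 : ℝ)) X q g c -
      ((L0 * (Real.log (X / nm c) : ℂ) + L1) * (dl f ((Real.log q) ^ 200) c : ℂ) +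
        L0 * (dL f ((Real.log q) ^ 200) c : ℂ))‖ ≤ (q : ℝ) ^ (-1 / 50000 : ℝ)

/-- PHI2 : the coefficients of all primitive ideals (compare `D_PHI2`) -/
def E_PHI2 : Prop := ∀ (R : Subring ℂ) (ω : ℂ), QP R ω → ∀ (U : ℝ → ℝ) (CU : ℝ), WG U CU →
  ∀ (f : Ideal R) (g : Ideal R → ℂ), GE f g → ∀ η : ℝ, 0 < η → ∃ C : ℝ, 0 < C ∧
  ∀ (y Z X : ℝ) (q : ℕ), q.Prime → 1 ≤ Z → 1 ≤ X → ∀ c : Ideal R, Pri c →
    ‖PhV U f y Z X q g c‖ ≤ C * (Z * X) ^ (4 * η) * (nm c) ^ η * Real.exp (-(nm c / (8 * (Z * X))))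

open Classical in
/-- REG : the product of the mollifier and the smoothed sum as a sum over the primitive ideals
(compare `D_REG`) -/
def E_REG : Prop := ∀ (R : Subring ℂ) (ω : ℂ), QP R ω → ∀ (U : ℝ → ℝ) (CU : ℝ), WG U CU →
  ∀ (f : Ideal R) (g : Ideal R → ℂ), GE f g → Ram f → ∀ (q : ℕ) (χ : Ideal R → ℂ), RG q χ →
  ∀ (y Z X : ℝ), 1 ≤ Z → 1 ≤ X →
    Summable (fun c : Ideal R => if Pri c then ‖g c / (nm c : ℂ) * PhV U f y Z X q g c‖ else 0) ∧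
    Ml f y Z g χ * smo U g X χ =
      ∑' c : Ideal R, if Pri c then χ c * (g c / (nm c : ℂ) * PhV U f y Z X q g c) else 0

end Pool.Agent.TH936.AE
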