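import Mathlib
import Pool.Agent.TH936.AE.Stmts

set_option autoImplicit false

/-!
# Project AE, part EPS: the sum over the rational integers
(job 5043 of helper936, written by helper644)
-/

namespace Pool.Agent.TH936.AE.Eps

open Filter Topology Finset MeasureTheory

section weight

variable {U : ℝ → ℝ} {C A : ℝ}

/-- `U (y) / y` -/
noncomputable def uy (U : ℝ → ℝ) (y : ℝ) : ℝ := U y / y

lemma uy_anti (h : WG U C) : AntitoneOn (uy U) (Set.Ioi 0) := by
  intro x hx y hy hxy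
  unfold uy
  have hx' : (0 : ℝ) < x := hx
  exact div_le_div₀ (h.nonneg x hx) (h.anti hx hy hxy) hx' hxy

lemma uy_ii (h : WG U C) {a b : ℝ} (ha : 0 < a) (hab : a ≤ b) :
    IntervalIntegrable (uy U) volume a b := by
  apply AntitoneOn.intervalIntegrable
  rw [Set.uIcc_of_le hab]
  exact (uy_anti h).mono fun x hx => Set.mem_Ioi.2 (ha.trans_le hx.1)

lemma one_ii {a b : ℝ} (ha : 0 < a) (hab : a ≤ b) :
    IntervalIntegrable (fun y : ℝ => 1 / y) volume a b := by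
  apply AntitoneOn.intervalIntegrable
  rw [Set.uIcc_of_le hab]
  intro x hx y _ hxy
  exact one_div_le_one_div_of_le (ha.trans_le hx.1) hxy

lemma int_le (h : WG U C) {a b : ℝ} (ha : 0 < a) (hab : a ≤ b) :
    ∫ y in a..b, uy U y ≤ U a * Real.log (b / a) := by
  rw [← integral_one_div_of_pos ha (ha.trans_le hab), ← intervalIntegral.integral_const_mul]
  refine intervalIntegral.integral_mono_on hab (uy_ii h ha hab) ((one_ii ha hab).const_mul _) ?_
  intro x hx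
  have hx0 : 0 < x := ha.trans_le hx.1
  unfold uy
  rw [mul_one_div]
  exact div_le_div_of_nonneg_right (h.anti (Set.mem_Ioi.2 ha) (Set.mem_Ioi.2 hx0) hx.1) hx0.le

lemma le_int (h : WG U C) {a b : ℝ} (ha : 0 < a) (hab : a ≤ b) :
    U b * Real.log (b / a) ≤ ∫ y in a..b, uy U y := by
  rw [← integral_one_div_of_pos ha (ha.trans_le hab), ← intervalIntegral.integral_const_mul]
  refine intervalIntegral.integral_mono_on hab ((one_ii ha hab).const_mul _) (uy_ii h ha hab) ?_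
  intro x hx
  have hx0 : 0 < x := ha.trans_le hx.1
  unfold uy
  rw [mul_one_div]
  exact div_le_div_of_nonneg_right
    (h.anti (Set.mem_Ioi.2 hx0) (Set.mem_Ioi.2 (ha.trans_le hab)) hx.2) hx0.le

lemma uy_int (h : WG U C) {x : ℝ} (hx : 0 < x) : IntegrableOn (uy U) (Set.Ioi x) := by
  have h1 : IntegrableOn (fun y : ℝ => C / x * Real.exp (-(1 / 2) * y)) (Set.Ioi x) :=
    (exp_neg_integrableOn_Ioi x (by norm_num)).const_mul _
  refine Integrable.mono' h1 ?_ ?_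
  · exact (aemeasurable_restrict_of_antitoneOn measurableSet_Ioi
      ((uy_anti h).mono fun y hy => Set.mem_Ioi.2 (hx.trans hy))).aestronglyMeasurable
  · refine ae_restrict_of_forall_mem measurableSet_Ioi fun y hy => ?_
    have hxy : x < y := hy
    have hy0 : 0 < y := hx.trans hxy
    have h2 := h.nonneg y hy0
    have h3 := h.dec y hy0
    unfold uy
    rw [Real.norm_eq_abs, abs_of_nonneg (div_nonneg h2 hy0.le)]
    have h4 : -(y / 2) = -(1 / 2) * y := by ring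
    rw [h4] at h3
    have h5 : 0 ≤ C * Real.exp (-(1 / 2) * y) := h2.trans h3
    calc U y / y ≤ C * Real.exp (-(1 / 2) * y) / y := div_le_div_of_nonneg_right h3 hy0.le
      _ ≤ C * Real.exp (-(1 / 2) * y) / x := div_le_div_of_nonneg_left h5 hx hxy.le
      _ = _ := by ring

/-- the integral from `x` to infinity -/
noncomputable def J (U : ℝ → ℝ) (x : ℝ) : ℝ := ∫ y in Set.Ioi x, uy U y

lemma J_sub (h : WG U C) {a b : ℝ} (ha : 0 < a) (hab : a ≤ b) :
    J U a - J U b = ∫ y in a..b, uy U y := by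
  have := intervalIntegral.integral_interval_add_Ioi (uy_int h ha) (uy_int h (ha.trans_le hab))
  unfold J
  linarith

lemma U_le (h : WG U C) (hU : ∀ x : ℝ, 0 < x → |U x - A| ≤ C * x ^ (2 / 5 : ℝ)) {x : ℝ}
    (hx : 0 < x) : U x ≤ A := by
  have h1 : Tendsto (fun y : ℝ => A + C * y ^ (2 / 5 : ℝ)) (𝓝[>] 0) (𝓝 (A + C * 0 ^ (2 / 5 : ℝ))) := by
    refine Tendsto.mono_left ?_ nhdsWithin_le_nhds
    exact ((Real.continuousAt_rpow_const 0 (2 / 5) (Or.inr (by norm_num))).const_mul C).const_add A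
  rw [Real.zero_rpow (by norm_num), mul_zero, add_zero] at h1
  refine ge_of_tendsto h1 ?_
  have h2 : ∀ᶠ y : ℝ in 𝓝[>] 0, y ∈ Set.Ioo (0 : ℝ) x := Ioo_mem_nhdsGT hx
  filter_upwards [h2] with y hy
  have h3 := (abs_le.1 (hU y hy.1)).2
  have h4 := h.anti (Set.mem_Ioi.2 hy.1) (Set.mem_Ioi.2 hx) hy.2.le
  linarith

lemma J_asymp (h : WG U C) (hU : ∀ x : ℝ, 0 < x → |U x - A| ≤ C * x ^ (2 / 5 : ℝ)) :
    ∃ κ : ℝ, ∀ x : ℝ, 0 < x → |J U x + A * Real.log x - κ| ≤ 5 / 2 * C * x ^ (2 / 5 : ℝ) := by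
  obtain ⟨ψ, hψ⟩ : ∃ ψ : ℝ → ℝ, ψ = fun x => J U x + A * Real.log x := ⟨_, rfl⟩
  have key : ∀ a b : ℝ, 0 < a → a ≤ b → 0 ≤ ψ b - ψ a ∧ ψ b - ψ a ≤ 5 / 2 * C * b ^ (2 / 5 : ℝ) := by
    intro a b ha hab
    have hb := ha.trans_le hab
    have e1 : ψ b - ψ a = A * Real.log (b / a) - ∫ y in a..b, uy U y := by
      rw [← J_sub h ha hab, Real.log_div hb.ne' ha.ne', hψ]
      ring
    have e2 : ψ b - ψ a = ∫ y in a..b, (A * (1 / y) - uy U y) := by
      rw [e1, intervalIntegral.integral_sub ((one_ii ha hab).const_mul _) (uy_ii h ha hab),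
        intervalIntegral.integral_const_mul, integral_one_div_of_pos ha hb]
    have hint : IntervalIntegrable (fun y : ℝ => A * (1 / y) - uy U y) volume a b :=
      ((one_ii ha hab).const_mul _).sub (uy_ii h ha hab)
    rw [e2]
    constructor
    · refine intervalIntegral.integral_nonneg hab fun y hy => ?_
      have hy0 : 0 < y := ha.trans_le hy.1
      have e3 : A * (1 / y) - uy U y = (A - U y) / y := by unfold uy; ring
      rw [e3]
      exact div_nonneg (sub_nonneg.2 (U_le h hU hy0)) hy0.le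
    · have hr : IntervalIntegrable (fun y : ℝ => C * y ^ (-3 / 5 : ℝ)) volume a b :=
        (intervalIntegral.intervalIntegrable_rpow' (by norm_num)).const_mul _
      calc ∫ y in a..b, (A * (1 / y) - uy U y) ≤ ∫ y in a..b, C * y ^ (-3 / 5 : ℝ) := by
            refine intervalIntegral.integral_mono_on hab hint hr fun y hy => ?_
            have hy0 : 0 < y := ha.trans_le hy.1
            have e3 : A * (1 / y) - uy U y = (A - U y) / y := by unfold uy; ring
            rw [e3, div_le_iff₀ hy0, mul_assoc]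
            have e4 : y ^ (-3 / 5 : ℝ) * y = y ^ (2 / 5 : ℝ) := by
              nth_rewrite 2 [← Real.rpow_one y]
              rw [← Real.rpow_add hy0]
              norm_num
            rw [e4]
            have := (abs_le.1 (hU y hy0)).1
            linarith
        _ = C * ((b ^ (2 / 5 : ℝ) - a ^ (2 / 5 : ℝ)) / (2 / 5)) := by
            rw [intervalIntegral.integral_const_mul, integral_rpow (Or.inl (by norm_num))]
            norm_num
        _ ≤ 5 / 2 * C * b ^ (2 / 5 : ℝ) := by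
            have h1 : 0 ≤ C * a ^ (2 / 5 : ℝ) := mul_nonneg h.pos.le (Real.rpow_nonneg ha.le _)
            have e5 : C * ((b ^ (2 / 5 : ℝ) - a ^ (2 / 5 : ℝ)) / (2 / 5)) =
              5 / 2 * C * b ^ (2 / 5 : ℝ) - 5 / 2 * (C * a ^ (2 / 5 : ℝ)) := by ring
            rw [e5]
            linarith
  have hbd : BddBelow (ψ '' Set.Ioi 0) := by
    refine ⟨ψ 1 - 5 / 2 * C * (1 : ℝ) ^ (2 / 5 : ℝ), ?_⟩
    rintro _ ⟨a, ha, rfl⟩
    have ha' : (0 : ℝ) < a := ha
    rcases le_total a 1 with h1 | h1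
    · have := (key a 1 ha' h1).2
      linarith
    · have := (key 1 a one_pos h1).1
      have h2 : 0 ≤ 5 / 2 * C * (1 : ℝ) ^ (2 / 5 : ℝ) := by
        have := h.pos
        positivity
      linarith
  refine ⟨sInf (ψ '' Set.Ioi 0), fun x hx => ?_⟩
  have h1 : sInf (ψ '' Set.Ioi 0) ≤ ψ x := csInf_le hbd ⟨x, hx, rfl⟩
  have h2 : ψ x - 5 / 2 * C * x ^ (2 / 5 : ℝ) ≤ sInf (ψ '' Set.Ioi 0) := by
    refine le_csInf ⟨ψ x, x, hx, rfl⟩ ?_
    rintro _ ⟨a, ha, rfl⟩
    have ha' : (0 : ℝ) < a := ha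
    rcases le_total a x with h1 | h1
    · have := (key a x ha' h1).2
      linarith
    · have := (key x a hx h1).1
      have h2 : 0 ≤ 5 / 2 * C * x ^ (2 / 5 : ℝ) := by
        have := h.pos
        positivity
      linarith
  have e : J U x + A * Real.log x = ψ x := by rw [hψ]
  rw [e, abs_le]
  constructor <;> linarith

end weight

section sums

variable {U : ℝ → ℝ} {C A : ℝ}

/-- the terms, shifted -/
noncomputable def Hw (U : ℝ → ℝ) (w : ℝ) (i : ℕ) : ℝ := U (((i : ℝ) + 1) ^ 2 * w) / ((i : ℝ) + 1)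

/-- `1 / m - log (1 + 1 / m)` -/
noncomputable def ee (i : ℕ) : ℝ := 1 / ((i : ℝ) + 1) - Real.log (1 + 1 / ((i : ℝ) + 1))

/-- `(i + 1) ^ (- 6 / 5)` -/
noncomputable def zz (i : ℕ) : ℝ := ((i : ℝ) + 1) ^ (-6 / 5 : ℝ)

lemma zz_nonneg (i : ℕ) : 0 ≤ zz i := by
  unfold zz
  positivity

lemma zz_sum : Summable zz := by
  have h1 : Summable (fun n : ℕ => (n : ℝ) ^ (-6 / 5 : ℝ)) := Real.summable_nat_rpow.2 (by norm_num)
  have h2 := (summable_nat_add_iff 1).2 h1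
  refine h2.congr fun i => ?_
  unfold zz
  push_cast
  rfl

/-- the sum -/
noncomputable def ZZ : ℝ := ∑' i, zz i

lemma zz_le (N : ℕ) : ∑ i ∈ range N, zz i ≤ ZZ := zz_sum.sum_le_tsum _ fun i _ => zz_nonneg i

lemma zz_le' (N : ℕ) : ∑ i ∈ range N, zz (i + 1) ≤ ZZ := by
  refine le_trans ?_ (zz_le (N + 1))
  rw [Finset.sum_range_succ' zz N]
  have := zz_nonneg 0
  linarith

lemma ee_nonneg (i : ℕ) : 0 ≤ ee i := by
  unfold ee
  have : Real.log (1 + 1 / ((i : ℝ) + 1)) ≤ 1 / ((i : ℝ) + 1) := by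
    have := Real.log_le_sub_one_of_pos (show (0 : ℝ) < 1 + 1 / ((i : ℝ) + 1) by positivity)
    linarith
  linarith

lemma ee_le (i : ℕ) : ee i ≤ 1 / ((i : ℝ) + 1) ^ 2 := by
  unfold ee
  have hx : (0 : ℝ) < (i : ℝ) + 1 := by positivity
  have h1 : 1 / ((i : ℝ) + 1 + 1) ≤ Real.log (1 + 1 / ((i : ℝ) + 1)) := by
    have h2 := Real.one_sub_inv_le_log_of_pos (show (0 : ℝ) < 1 + 1 / ((i : ℝ) + 1) by positivity)
    refine le_trans (le_of_eq ?_) h2
    field_simp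
    ring
  have h3 : 1 / ((i : ℝ) + 1) - 1 / ((i : ℝ) + 1 + 1) ≤ 1 / ((i : ℝ) + 1) ^ 2 := by
    rw [div_sub_div _ _ hx.ne' (by positivity), div_le_div_iff₀ (by positivity) (by positivity)]
    nlinarith
  linarith

lemma pow_ee (i : ℕ) : ((i : ℝ) + 1) ^ (4 / 5 : ℝ) * ee i ≤ zz i := by
  have hx : (0 : ℝ) < (i : ℝ) + 1 := by positivity
  calc ((i : ℝ) + 1) ^ (4 / 5 : ℝ) * ee i ≤ ((i : ℝ) + 1) ^ (4 / 5 : ℝ) * (1 / ((i : ℝ) + 1) ^ 2) :=
        mul_le_mul_of_nonneg_left (ee_le i) (by positivity)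
    _ = zz i := by
        unfold zz
        rw [one_div, ← Real.rpow_natCast, ← Real.rpow_neg hx.le, ← Real.rpow_add hx]
        norm_num

lemma ee_sum : Summable ee := by
  refine Summable.of_nonneg_of_le ee_nonneg (fun i => ?_) zz_sum
  have hx : (1 : ℝ) ≤ (i : ℝ) + 1 := by
    have : (0 : ℝ) ≤ i := Nat.cast_nonneg i
    linarith
  have h1 : (1 : ℝ) ≤ ((i : ℝ) + 1) ^ (4 / 5 : ℝ) := Real.one_le_rpow hx (by norm_num)
  have h2 := pow_ee i
  have h3 := ee_nonneg i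
  nlinarith

/-- Abel summation -/
lemma abel (v : ℕ → ℝ) (hv : 0 ≤ v 0) (N : ℕ) :
    ∑ i ∈ range N, (v (i + 1) - v i) / ((i : ℝ) + 1) ≤
      v N / ((N : ℝ) + 1) + ∑ i ∈ range N, v (i + 1) / (((i : ℝ) + 1) * ((i : ℝ) + 2)) := by
  induction N with
  | zero => simpa using hv
  | succ N ih =>
    rw [Finset.sum_range_succ, Finset.sum_range_succ]
    have e : (v (N + 1) - v N) / ((N : ℝ) + 1) = v (N + 1) / (((N + 1 : ℕ) : ℝ) + 1) -
        v N / ((N : ℝ) + 1) + v (N + 1) / (((N : ℝ) + 1) * ((N : ℝ) + 2)) := by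
      push_cast
      field_simp
      ring
    rw [e]
    linarith

lemma rp (w : ℝ) (hw : 0 < w) (x : ℝ) (hx : 0 < x) :
    (x ^ 2 * w) ^ (2 / 5 : ℝ) = x ^ (4 / 5 : ℝ) * w ^ (2 / 5 : ℝ) := by
  rw [Real.mul_rpow (by positivity) hw.le, ← Real.rpow_natCast, ← Real.rpow_mul hx.le]
  norm_num

lemma log_sq (i : ℕ) {w : ℝ} (hw : 0 < w) :
    Real.log (((i : ℝ) + 1 + 1) ^ 2 * w / (((i : ℝ) + 1) ^ 2 * w)) =
      2 * Real.log (1 + 1 / ((i : ℝ) + 1)) := by
  have e : ((i : ℝ) + 1 + 1) ^ 2 * w / (((i : ℝ) + 1) ^ 2 * w) = (1 + 1 / ((i : ℝ) + 1)) ^ 2 := by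
    field_simp
  rw [e, Real.log_pow]
  norm_num

lemma main_fin (h : WG U C) (hU : ∀ x : ℝ, 0 < x → |U x - A| ≤ C * x ^ (2 / 5 : ℝ)) {w : ℝ}
    (hw : 0 < w) (N : ℕ) :
    |∑ i ∈ range N, Hw U w i - 1 / 2 * (∫ y in w..((N : ℝ) + 1) ^ 2 * w, uy U y) -
      A * ∑ i ∈ range N, ee i| ≤ C * (1 + 3 * ZZ) * w ^ (2 / 5 : ℝ) := by
  have hC := h.pos
  obtain ⟨u, hu⟩ : ∃ u : ℕ → ℝ, u = fun i : ℕ => U (((i : ℝ) + 1) ^ 2 * w) :=
    ⟨_, rfl⟩
  have hu1 : ∀ i : ℕ, u (i + 1) = U (((i : ℝ) + 1 + 1) ^ 2 * w) := fun i => by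
    rw [hu]
    push_cast
    rfl
  have hu0 : ∀ i : ℕ, u i = U (((i : ℝ) + 1) ^ 2 * w) := fun i => by rw [hu]
  have hA1 : ∀ i : ℕ, |u i - A| ≤ C * (((i : ℝ) + 1) ^ (4 / 5 : ℝ) * w ^ (2 / 5 : ℝ)) := by
    intro i
    rw [hu0, ← rp w hw _ (by positivity)]
    exact hU _ (by positivity)
  have hA2 : ∀ i : ℕ, u i ≤ A := fun i => by
    rw [hu0]
    exact U_le h hU (by positivity)
  -- the intervals
  obtain ⟨a, ha⟩ : ∃ a : ℕ → ℝ, a = fun i : ℕ => ((i : ℝ) + 1) ^ 2 * w := ⟨_, rfl⟩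
  have ha0 : ∀ i, a i = ((i : ℝ) + 1) ^ 2 * w := fun i => by rw [ha]
  have ha1 : ∀ i : ℕ, a (i + 1) = ((i : ℝ) + 1 + 1) ^ 2 * w := fun i => by
    rw [ha]
    push_cast
    rfl
  have hapos : ∀ i, 0 < a i := fun i => by rw [ha0]; positivity
  have hamono : ∀ i, a i ≤ a (i + 1) := fun i => by
    rw [ha0, ha1]
    gcongr
    linarith
  have hadj := intervalIntegral.sum_integral_adjacent_intervals (f := uy U) (μ := volume) (a := a)
    (n := N) fun k _ => uy_ii h (hapos k) (hamono k)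
  have hw0 : a 0 = w := by rw [ha0]; simp
  rw [hw0, ha0 N] at hadj
  rw [← hadj]
  have hlow : ∀ i, 2 * (u (i + 1) * Real.log (1 + 1 / ((i : ℝ) + 1))) ≤
      ∫ y in a i..a (i + 1), uy U y := by
    intro i
    have := le_int h (hapos i) (hamono i)
    rw [ha1 i, ha0 i, log_sq i hw, ← hu1] at this
    rw [ha1 i, ha0 i]
    linarith
  have hupp : ∀ i, ∫ y in a i..a (i + 1), uy U y ≤
      2 * (u i * Real.log (1 + 1 / ((i : ℝ) + 1))) := by
    intro i
    have := int_le h (hapos i) (hamono i)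
    rw [ha1 i, ha0 i, log_sq i hw, ← hu0] at this
    rw [ha1 i, ha0 i]
    linarith
  have hH : ∀ i, Hw U w i = u i / ((i : ℝ) + 1) := fun i => by
    rw [hu0]
    rfl
  have e0 : ∑ i ∈ range N, Hw U w i - 1 / 2 * (∑ i ∈ range N, ∫ y in a i..a (i + 1), uy U y) -
      A * ∑ i ∈ range N, ee i =
      ∑ i ∈ range N, (u i / ((i : ℝ) + 1) - 1 / 2 * (∫ y in a i..a (i + 1), uy U y) - A * ee i) := by
    rw [Finset.sum_sub_distrib, Finset.sum_sub_distrib, Finset.mul_sum, Finset.mul_sum]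
    simp only [hH]
  rw [e0]
  -- bounds of the terms
  have hterm : ∀ i, |u i / ((i : ℝ) + 1) - 1 / 2 * (∫ y in a i..a (i + 1), uy U y) - A * ee i| ≤
      C * w ^ (2 / 5 : ℝ) * zz i + ((A - u (i + 1)) - (A - u i)) / ((i : ℝ) + 1) := by
    intro i
    have h1 := hlow i
    have h2 := hupp i
    have hlog : Real.log (1 + 1 / ((i : ℝ) + 1)) = 1 / ((i : ℝ) + 1) - ee i := by
      unfold ee
      ring
    rw [hlog] at h1 h2
    have h3 : |(u i - A) * ee i| ≤ C * w ^ (2 / 5 : ℝ) * zz i := by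
      rw [abs_mul, abs_of_nonneg (ee_nonneg i)]
      calc |u i - A| * ee i ≤ C * (((i : ℝ) + 1) ^ (4 / 5 : ℝ) * w ^ (2 / 5 : ℝ)) * ee i :=
            mul_le_mul_of_nonneg_right (hA1 i) (ee_nonneg i)
        _ = C * w ^ (2 / 5 : ℝ) * (((i : ℝ) + 1) ^ (4 / 5 : ℝ) * ee i) := by ring
        _ ≤ _ := mul_le_mul_of_nonneg_left (pow_ee i) (by positivity)
    have h4 := abs_le.1 h3
    have h5 : u (i + 1) ≤ u i := by
      rw [hu1, hu0]
      refine h.anti (Set.mem_Ioi.2 (by positivity)) (Set.mem_Ioi.2 (by positivity)) ?_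
      gcongr
      linarith
    have h6 : 0 ≤ (u i - u (i + 1)) * ee i := mul_nonneg (by linarith) (ee_nonneg i)
    have e1 : ((A - u (i + 1)) - (A - u i)) / ((i : ℝ) + 1) = (u i - u (i + 1)) * (1 / ((i : ℝ) + 1)) := by
      ring
    have h7 : 0 ≤ (u i - u (i + 1)) * (1 / ((i : ℝ) + 1)) := mul_nonneg (by linarith) (by positivity)
    have e2 : u i / ((i : ℝ) + 1) = u i * (1 / ((i : ℝ) + 1)) := by ring
    rw [e1, e2, abs_le]
    constructor
    · nlinarith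
    · nlinarith
  refine (Finset.abs_sum_le_sum_abs _ _).trans ((Finset.sum_le_sum fun i _ => hterm i).trans ?_)
  rw [Finset.sum_add_distrib, ← Finset.mul_sum]
  have hab := abel (fun i => A - u i) (by
    have := hA2 0
    linarith) N
  have hv : ∀ i, A - u i ≤ C * w ^ (2 / 5 : ℝ) * ((i : ℝ) + 1) ^ (4 / 5 : ℝ) := by
    intro i
    have := (abs_le.1 (hA1 i)).1
    linarith
  have hb1 : (A - u N) / ((N : ℝ) + 1) ≤ C * w ^ (2 / 5 : ℝ) := by
    rw [div_le_iff₀ (by positivity)]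
    refine (hv N).trans ?_
    refine mul_le_mul_of_nonneg_left ?_ (by positivity)
    have hx : (1 : ℝ) ≤ (N : ℝ) + 1 := by
      have : (0 : ℝ) ≤ N := Nat.cast_nonneg N
      linarith
    calc ((N : ℝ) + 1) ^ (4 / 5 : ℝ) ≤ ((N : ℝ) + 1) ^ (1 : ℝ) :=
          Real.rpow_le_rpow_of_exponent_le hx (by norm_num)
      _ = (N : ℝ) + 1 := Real.rpow_one _
  have hb2 : ∀ i : ℕ, (A - u (i + 1)) / (((i : ℝ) + 1) * ((i : ℝ) + 2)) ≤
      2 * (C * w ^ (2 / 5 : ℝ)) * zz (i + 1) := by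
    intro i
    have hx : (0 : ℝ) < (i : ℝ) + 2 := by positivity
    have h1 := hv (i + 1)
    have e1 : (((i + 1 : ℕ) : ℝ) + 1) = (i : ℝ) + 2 := by
      push_cast
      ring
    rw [e1] at h1
    have e2 : ((i : ℝ) + 2) ^ (4 / 5 : ℝ) = zz (i + 1) * ((i : ℝ) + 2) ^ 2 := by
      unfold zz
      rw [e1, ← Real.rpow_natCast, ← Real.rpow_add hx]
      norm_num
    rw [e2] at h1
    rw [div_le_iff₀ (by positivity)]
    refine h1.trans ?_
    have h3 := zz_nonneg (i + 1)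
    have h4 : 0 ≤ C * w ^ (2 / 5 : ℝ) * zz (i + 1) := by positivity
    have h5 : ((i : ℝ) + 2) ^ 2 ≤ 2 * (((i : ℝ) + 1) * ((i : ℝ) + 2)) := by
      have : (0 : ℝ) ≤ i := Nat.cast_nonneg i
      nlinarith
    calc C * w ^ (2 / 5 : ℝ) * (zz (i + 1) * ((i : ℝ) + 2) ^ 2) =
          C * w ^ (2 / 5 : ℝ) * zz (i + 1) * ((i : ℝ) + 2) ^ 2 := by ring
      _ ≤ C * w ^ (2 / 5 : ℝ) * zz (i + 1) * (2 * (((i : ℝ) + 1) * ((i : ℝ) + 2))) :=
          mul_le_mul_of_nonneg_left h5 h4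
      _ = _ := by ring
  have hb3 : ∑ i ∈ range N, (A - u (i + 1)) / (((i : ℝ) + 1) * ((i : ℝ) + 2)) ≤
      2 * (C * w ^ (2 / 5 : ℝ)) * ZZ := by
    refine (Finset.sum_le_sum fun i _ => hb2 i).trans ?_
    rw [← Finset.mul_sum]
    exact mul_le_mul_of_nonneg_left (zz_le' N) (by positivity)
  have hb4 : C * w ^ (2 / 5 : ℝ) * ∑ i ∈ range N, zz i ≤ C * w ^ (2 / 5 : ℝ) * ZZ :=
    mul_le_mul_of_nonneg_left (zz_le N) (by positivity)
  calc _ ≤ C * w ^ (2 / 5 : ℝ) * ZZ + (C * w ^ (2 / 5 : ℝ) + 2 * (C * w ^ (2 / 5 : ℝ)) * ZZ) :=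
        add_le_add hb4 (hab.trans (add_le_add hb1 hb3))
    _ = _ := by ring

/-- the terms -/
noncomputable def G (U : ℝ → ℝ) (w : ℝ) (m : ℕ) : ℝ := U ((m : ℝ) ^ 2 * w) / m

/-- the sum -/
noncomputable def SS (U : ℝ → ℝ) (w : ℝ) : ℝ := ∑' m, G U w m

lemma G_zero (w : ℝ) : G U w 0 = 0 := by simp [G]

lemma G_succ (w : ℝ) (i : ℕ) : G U w (i + 1) = Hw U w i := by
  unfold G Hw
  push_cast
  rfl

lemma G_nonneg (h : WG U C) {w : ℝ} (hw : 0 < w) (m : ℕ) : 0 ≤ G U w m := by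
  rcases Nat.eq_zero_or_pos m with hm | hm
  · rw [hm, G_zero]
  · have : (0 : ℝ) < m := by exact_mod_cast hm
    exact div_nonneg (h.nonneg _ (by positivity)) this.le

lemma G_summable (h : WG U C) {w : ℝ} (hw : 0 < w) : Summable (G U w) := by
  have hC := h.pos
  have h1 : Summable (fun m : ℕ => C * Real.exp (-(w / 2)) ^ m) :=
    (summable_geometric_of_lt_one (Real.exp_pos _).le (by
      have := Real.exp_lt_exp.2 (show -(w / 2) < 0 by linarith)
      rwa [Real.exp_zero] at this)).mul_left _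
  refine Summable.of_nonneg_of_le (G_nonneg h hw) (fun m => ?_) h1
  rcases Nat.eq_zero_or_pos m with hm | hm
  · rw [hm, G_zero]
    positivity
  · have hm1 : (1 : ℝ) ≤ m := by exact_mod_cast hm
    have hm0 : (0 : ℝ) < m := by linarith
    have hu0 : 0 < (m : ℝ) ^ 2 * w := by positivity
    have h2 := h.dec _ hu0
    have h3 : Real.exp (-((m : ℝ) ^ 2 * w / 2)) ≤ Real.exp (-(w / 2)) ^ m := by
      rw [← Real.exp_nat_mul]
      refine Real.exp_le_exp.2 ?_
      have : (m : ℝ) ≤ (m : ℝ) ^ 2 := by nlinarith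
      nlinarith
    unfold G
    calc U ((m : ℝ) ^ 2 * w) / m ≤ U ((m : ℝ) ^ 2 * w) / 1 :=
          div_le_div_of_nonneg_left (h.nonneg _ hu0) one_pos hm1
      _ = U ((m : ℝ) ^ 2 * w) := div_one _
      _ ≤ C * Real.exp (-((m : ℝ) ^ 2 * w / 2)) := h2
      _ ≤ C * Real.exp (-(w / 2)) ^ m := mul_le_mul_of_nonneg_left h3 hC.le

lemma SS_nonneg (h : WG U C) {w : ℝ} (hw : 0 < w) : 0 ≤ SS U w :=
  tsum_nonneg (G_nonneg h hw)

lemma SS_anti (h : WG U C) {w w' : ℝ} (hw : 0 < w) (hww : w ≤ w') : SS U w' ≤ SS U w := by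
  have hw' := hw.trans_le hww
  refine (G_summable h hw').tsum_le_tsum (fun m => ?_) (G_summable h hw)
  rcases Nat.eq_zero_or_pos m with hm | hm
  · rw [hm, G_zero, G_zero]
  · have hm0 : (0 : ℝ) < m := by exact_mod_cast hm
    unfold G
    refine div_le_div_of_nonneg_right ?_ hm0.le
    exact h.anti (Set.mem_Ioi.2 (by positivity)) (Set.mem_Ioi.2 (by positivity)) (by gcongr)

lemma SS_asymp (h : WG U C) (hU : ∀ x : ℝ, 0 < x → |U x - A| ≤ C * x ^ (2 / 5 : ℝ)) :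
    ∃ c K : ℝ, 0 < K ∧ ∀ w : ℝ, 0 < w →
      |SS U w - (A / 2 * (-Real.log w) + c)| ≤ K * w ^ (2 / 5 : ℝ) := by
  have hC := h.pos
  obtain ⟨κ, hκ⟩ := J_asymp h hU
  have hZ : 0 ≤ ZZ := tsum_nonneg zz_nonneg
  refine ⟨1 / 2 * κ + A * ∑' i, ee i, C * (1 + 3 * ZZ) + 5 / 4 * C, by positivity, ?_⟩
  intro w hw
  have hs : Tendsto (fun N : ℕ => ∑ i ∈ range N, Hw U w i) atTop (𝓝 (SS U w)) := by
    have h1 : SS U w = ∑' i, Hw U w i := by
      unfold SS
      rw [(G_summable h hw).tsum_eq_zero_add, G_zero, zero_add]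
      simp only [G_succ]
    have h2 : Summable (Hw U w) := by
      have := (summable_nat_add_iff 1).2 (G_summable h hw)
      simpa only [G_succ] using this
    rw [h1]
    exact h2.hasSum.tendsto_sum_nat
  have hb : Tendsto (fun N : ℕ => ((N : ℝ) + 1) ^ 2 * w) atTop atTop := by
    refine Tendsto.atTop_mul_const hw ?_
    refine tendsto_atTop_mono (fun N => ?_) tendsto_natCast_atTop_atTop
    have : (0 : ℝ) ≤ N := Nat.cast_nonneg N
    nlinarith
  have hj : Tendsto (fun N : ℕ => ∫ y in w..((N : ℝ) + 1) ^ 2 * w, uy U y) atTop (𝓝 (J U w)) :=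
    intervalIntegral_tendsto_integral_Ioi w (uy_int h hw) hb
  have he : Tendsto (fun N : ℕ => ∑ i ∈ range N, ee i) atTop (𝓝 (∑' i, ee i)) :=
    ee_sum.hasSum.tendsto_sum_nat
  have hlim := ((hs.sub (hj.const_mul (1 / 2))).sub (he.const_mul A)).abs
  have h1 := le_of_tendsto hlim (Eventually.of_forall fun N => main_fin h hU hw N)
  have h2 := abs_le.1 (hκ w hw)
  have h3 := abs_le.1 h1
  rw [abs_le]
  constructor <;> nlinarith [h2.1, h2.2, h3.1, h3.2]

lemma SS_bound (h : WG U C) (hA : 0 < A)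
    (hU : ∀ x : ℝ, 0 < x → |U x - A| ≤ C * x ^ (2 / 5 : ℝ)) :
    ∃ K : ℝ, 0 < K ∧ ∀ w : ℝ, 0 < w → SS U w ≤ K * (1 + |Real.log w|) := by
  obtain ⟨c, K, hK, h1⟩ := SS_asymp h hU
  have h2 : ∀ w : ℝ, 0 < w → w ≤ 1 → SS U w ≤ (A + |c| + K) * (1 + |Real.log w|) := by
    intro w hw hw1
    have h3 := (abs_le.1 (h1 w hw)).2
    have h4 : w ^ (2 / 5 : ℝ) ≤ 1 := Real.rpow_le_one hw.le hw1 (by norm_num)
    have h5 := le_abs_self c
    have h6 : A / 2 * (-Real.log w) ≤ A * |Real.log w| := by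
      have a1 := neg_abs_le (Real.log w)
      have a2 := abs_nonneg (Real.log w)
      nlinarith
    have h7 : K * w ^ (2 / 5 : ℝ) ≤ K * 1 := mul_le_mul_of_nonneg_left h4 hK.le
    have h8 := abs_nonneg (Real.log w)
    have h9 := abs_nonneg c
    have h10 : 0 ≤ |c| * |Real.log w| := by positivity
    have h11 : 0 ≤ K * |Real.log w| := by positivity
    nlinarith
  refine ⟨A + |c| + K, by positivity, ?_⟩
  intro w hw
  rcases le_total w 1 with hw1 | hw1
  · exact h2 w hw hw1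
  · have h3 := SS_anti h one_pos hw1
    have h4 := h2 1 one_pos le_rfl
    rw [Real.log_one, abs_zero, add_zero] at h4
    have h8 : 0 ≤ (A + |c| + K) * |Real.log w| := by positivity
    linarith

/-- the multiples of `d` -/
lemma dvd_sum (h : WG U C) {w : ℝ} (hw : 0 < w) {d : ℕ} (hd : 0 < d) :
    HasSum (fun m : ℕ => if d ∣ m then G U w m else 0) (1 / d * SS U ((d : ℝ) ^ 2 * w)) := by
  have hd' : (0 : ℝ) < d := by exact_mod_cast hd
  have hinj : Function.Injective (fun k : ℕ => d * k) := fun a b hab =>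
    Nat.eq_of_mul_eq_mul_left hd hab
  have h0 : ∀ m : ℕ, m ∉ Set.range (fun k : ℕ => d * k) →
      (if d ∣ m then G U w m else 0) = 0 := by
    intro m hm
    rw [if_neg]
    rintro ⟨k, rfl⟩
    exact hm ⟨k, rfl⟩
  rw [← hinj.hasSum_iff h0]
  have h1 := ((G_summable h (show 0 < (d : ℝ) ^ 2 * w by positivity)).hasSum).mul_left (1 / (d : ℝ))
  have h2 : ((fun m : ℕ => if d ∣ m then G U w m else 0) ∘ fun k : ℕ => d * k) =
      fun k : ℕ => 1 / (d : ℝ) * G U ((d : ℝ) ^ 2 * w) k := by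
    funext k
    show (if d ∣ d * k then G U w (d * k) else 0) = _
    rw [if_pos (dvd_mul_right d k)]
    unfold G
    have h6 : ((d * k : ℕ) : ℝ) ^ 2 * w = (k : ℝ) ^ 2 * ((d : ℝ) ^ 2 * w) := by
      push_cast
      ring
    rw [h6]
    push_cast
    rw [div_mul_eq_div_div]
    ring
  rw [h2]
  exact h1

/-- the numbers prime to `p q` -/
lemma cop_sum (h : WG U C) {w : ℝ} (hw : 0 < w) {p q : ℕ} (hp : p.Prime) (hq : q.Prime)
    (hpq : p ≠ q) :
    HasSum (fun m : ℕ => if Nat.Coprime m q ∧ Nat.Coprime m p then G U w m else 0)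
      (SS U w - 1 / p * SS U ((p : ℝ) ^ 2 * w) - 1 / q * SS U ((q : ℝ) ^ 2 * w) +
        1 / ((p * q : ℕ) : ℝ) * SS U (((p * q : ℕ) : ℝ) ^ 2 * w)) := by
  have h1 := (((G_summable h hw).hasSum.sub (dvd_sum h hw hp.pos)).sub (dvd_sum h hw hq.pos)).add
    (dvd_sum h hw (Nat.mul_pos hp.pos hq.pos))
  have h2 : (fun m : ℕ => if Nat.Coprime m q ∧ Nat.Coprime m p then G U w m else 0) =
      fun m : ℕ => G U w m - (if p ∣ m then G U w m else 0) - (if q ∣ m then G U w m else 0) +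
        (if p * q ∣ m then G U w m else 0) := by
    funext m
    have a1 : Nat.Coprime m q ↔ ¬ q ∣ m := by
      rw [Nat.coprime_comm]
      exact hq.coprime_iff_not_dvd
    have a2 : Nat.Coprime m p ↔ ¬ p ∣ m := by
      rw [Nat.coprime_comm]
      exact hp.coprime_iff_not_dvd
    have a3 : p * q ∣ m ↔ p ∣ m ∧ q ∣ m := by
      constructor
      · intro h3
        exact ⟨(dvd_mul_right p q).trans h3, (dvd_mul_left q p).trans h3⟩
      · rintro ⟨h3, h4⟩
        exact Nat.Coprime.mul_dvd_of_dvd_of_dvd ((Nat.coprime_primes hp hq).2 hpq) h3 h4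
    simp only [a1, a2, a3]
    by_cases h3 : p ∣ m <;> by_cases h4 : q ∣ m <;> simp [h3, h4]
  rw [h2]
  exact h1

lemma final (h : WG U C) (hA : 0 < A)
    (hU : ∀ x : ℝ, 0 < x → |U x - A| ≤ C * x ^ (2 / 5 : ℝ)) {p : ℕ} (hp : p.Prime) :
    ∃ c' K : ℝ, 0 < K ∧ ∀ q : ℕ, q.Prime → p ≠ q → ∀ w : ℝ, 0 < w → w ≤ 1 →
      |∑' m : ℕ, (if Nat.Coprime m q ∧ Nat.Coprime m p then G U w m else 0) -
        ((1 - 1 / p) * (A / 2) * (-Real.log w) + c')| ≤
      K * (w ^ (3 / 10 : ℝ) + (1 + |Real.log w| + Real.log q) / q) := by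
  obtain ⟨c, K, hK, h1⟩ := SS_asymp h hU
  obtain ⟨K2, hK2, h2⟩ := SS_bound h hA hU
  have hp1 : (1 : ℝ) ≤ p := by exact_mod_cast hp.one_lt.le
  have hp0 : (0 : ℝ) < p := by linarith
  refine ⟨(1 - 1 / p) * c + A / p * Real.log p, 2 * K + 6 * K2, by positivity, ?_⟩
  intro q hq hpq w hw hw1
  have hq1 : (1 : ℝ) ≤ q := by exact_mod_cast hq.one_lt.le
  have hq0 : (0 : ℝ) < q := by linarith
  have hlq : 0 ≤ Real.log q := Real.log_nonneg hq1
  have hlp : 0 ≤ Real.log p := Real.log_nonneg hp1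
  have hlw := abs_nonneg (Real.log w)
  rw [(cop_sum h hw hp hq hpq).tsum_eq]
  obtain ⟨W, hW⟩ : ∃ W, W = w ^ (2 / 5 : ℝ) := ⟨_, rfl⟩
  have hW0 : 0 ≤ W := by rw [hW]; positivity
  have hW1 : W ≤ w ^ (3 / 10 : ℝ) := by
    rw [hW]
    exact Real.rpow_le_rpow_of_exponent_ge hw hw1 (by norm_num)
  have b1 := h1 w hw
  rw [← hW] at b1
  have b2 := h1 ((p : ℝ) ^ 2 * w) (by positivity)
  rw [rp w hw p hp0, ← hW, Real.log_mul (by positivity) hw.ne', Real.log_pow] at b2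
  push_cast at b2
  have hpp : (p : ℝ) ^ (4 / 5 : ℝ) ≤ p := by
    calc (p : ℝ) ^ (4 / 5 : ℝ) ≤ (p : ℝ) ^ (1 : ℝ) :=
          Real.rpow_le_rpow_of_exponent_le hp1 (by norm_num)
      _ = p := Real.rpow_one _
  have b2' : |1 / p * (SS U ((p : ℝ) ^ 2 * w) -
      (A / 2 * -(2 * Real.log p + Real.log w) + c))| ≤ K * W := by
    rw [abs_mul, abs_of_pos (by positivity : (0 : ℝ) < 1 / p)]
    have : 1 / (p : ℝ) * (K * ((p : ℝ) ^ (4 / 5 : ℝ) * W)) ≤ K * W := by
      have h3 : 1 / (p : ℝ) * (K * ((p : ℝ) ^ (4 / 5 : ℝ) * W)) ≤ 1 / (p : ℝ) * (K * (p * W)) := by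
        gcongr
      refine h3.trans (le_of_eq ?_)
      field_simp
    exact (mul_le_mul_of_nonneg_left b2 (by positivity)).trans this
  obtain ⟨Y, hY⟩ : ∃ Y, Y = 1 + |Real.log w| + Real.log q := ⟨_, rfl⟩
  have hY1 : 1 ≤ Y := by rw [hY]; linarith
  have b3 : |1 / q * SS U ((q : ℝ) ^ 2 * w)| ≤ 2 * K2 * (Y / q) := by
    have h3 := SS_nonneg h (show 0 < (q : ℝ) ^ 2 * w by positivity)
    rw [abs_of_nonneg (by positivity)]
    have h4 := h2 ((q : ℝ) ^ 2 * w) (by positivity)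
    have h5 : |Real.log ((q : ℝ) ^ 2 * w)| ≤ 2 * Real.log q + |Real.log w| := by
      rw [Real.log_mul (by positivity) hw.ne', Real.log_pow]
      refine (abs_add_le _ _).trans ?_
      rw [abs_of_nonneg (by positivity)]
      push_cast
      linarith
    have h6 : SS U ((q : ℝ) ^ 2 * w) ≤ K2 * (2 * Y) := by
      refine h4.trans (mul_le_mul_of_nonneg_left ?_ hK2.le)
      rw [hY]
      linarith
    calc 1 / (q : ℝ) * SS U ((q : ℝ) ^ 2 * w) ≤ 1 / (q : ℝ) * (K2 * (2 * Y)) :=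
          mul_le_mul_of_nonneg_left h6 (by positivity)
      _ = _ := by ring
  have b4 : |1 / ((p * q : ℕ) : ℝ) * SS U (((p * q : ℕ) : ℝ) ^ 2 * w)| ≤ 4 * K2 * (Y / q) := by
    have hpq0 : (0 : ℝ) < ((p * q : ℕ) : ℝ) := by
      push_cast
      positivity
    have h3 := SS_nonneg h (show 0 < ((p * q : ℕ) : ℝ) ^ 2 * w by positivity)
    rw [abs_of_nonneg (by positivity)]
    have h4 := h2 (((p * q : ℕ) : ℝ) ^ 2 * w) (by positivity)
    have h5 : |Real.log (((p * q : ℕ) : ℝ) ^ 2 * w)| ≤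
        2 * Real.log p + 2 * Real.log q + |Real.log w| := by
      rw [Real.log_mul (by positivity) hw.ne', Real.log_pow]
      refine (abs_add_le _ _).trans ?_
      push_cast
      rw [Real.log_mul hp0.ne' hq0.ne', abs_of_nonneg (by positivity)]
      linarith
    have hlp' : Real.log p ≤ p := (Real.log_le_sub_one_of_pos hp0).trans (by linarith)
    have h6 : SS U (((p * q : ℕ) : ℝ) ^ 2 * w) ≤ K2 * (p * (4 * Y)) := by
      refine h4.trans (mul_le_mul_of_nonneg_left ?_ hK2.le)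
      have h7 : 1 + |Real.log w| + 2 * Real.log q ≤ 2 * Y := by
        rw [hY]
        linarith
      have h8 : 2 * Y ≤ p * (2 * Y) := by nlinarith
      have h9 : 2 * Real.log p ≤ p * (2 * Y) := by nlinarith
      linarith
    calc 1 / ((p * q : ℕ) : ℝ) * SS U (((p * q : ℕ) : ℝ) ^ 2 * w)
        ≤ 1 / ((p * q : ℕ) : ℝ) * (K2 * (p * (4 * Y))) :=
          mul_le_mul_of_nonneg_left h6 (by positivity)
      _ = _ := by
          push_cast
          field_simp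
  have e : SS U w - 1 / p * SS U ((p : ℝ) ^ 2 * w) - 1 / q * SS U ((q : ℝ) ^ 2 * w) +
        1 / ((p * q : ℕ) : ℝ) * SS U (((p * q : ℕ) : ℝ) ^ 2 * w) -
        ((1 - 1 / p) * (A / 2) * (-Real.log w) + ((1 - 1 / p) * c + A / p * Real.log p)) =
      (SS U w - (A / 2 * (-Real.log w) + c)) - 1 / p * (SS U ((p : ℝ) ^ 2 * w) -
      (A / 2 * -(2 * Real.log p + Real.log w) + c)) - 1 / q * SS U ((q : ℝ) ^ 2 * w) +
        1 / ((p * q : ℕ) : ℝ) * SS U (((p * q : ℕ) : ℝ) ^ 2 * w) := by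
    ring
  rw [e, ← hY]
  have f1 := abs_le.1 b1
  have f2 := abs_le.1 b2'
  have f3 := abs_le.1 b3
  have f4 := abs_le.1 b4
  have hKW : K * W ≤ K * w ^ (3 / 10 : ℝ) := mul_le_mul_of_nonneg_left hW1 hK.le
  have hYq : 0 ≤ Y / q := by positivity
  have hw3 : 0 ≤ w ^ (3 / 10 : ℝ) := by positivity
  have g1 : 0 ≤ K * (Y / q) := by positivity
  have g2 : 0 ≤ K2 * w ^ (3 / 10 : ℝ) := by positivity
  have e2 : (2 * K + 6 * K2) * (w ^ (3 / 10 : ℝ) + Y / q) = 2 * (K * w ^ (3 / 10 : ℝ)) +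
      6 * K2 * (Y / q) + 2 * (K * (Y / q)) + 6 * (K2 * w ^ (3 / 10 : ℝ)) := by ring
  rw [e2, abs_le]
  constructor
  · linarith [f1.1, f2.2, f3.2, f4.1]
  · linarith [f1.2, f2.1, f3.1, f4.2]

end sums

end Pool.Agent.TH936.AE.Eps

namespace Pool.Agent.TH936.AE

open Pool.Agent.W192.HK Pool.Agent.TH936.AC Pool.Agent.TH936.AW Pool.Agent.TH936.AD

namespace Eps

lemma cop_P {R : Subring ℂ} {p : ℕ} {P : Ideal R} (hP : RP p P) (m : ℕ) :
    IsCoprime (sp (m : R)) P ↔ Nat.Coprime m p := by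
  constructor
  · intro h
    have h1 : IsCoprime (sp (m : R)) (sp (p : R)) := by
      rw [← hP.sq]
      exact h.mul_right h
    rw [Ideal.isCoprime_span_singleton_iff] at h1
    by_contra hcon
    have h2 : p ∣ m := by
      by_contra h3
      exact hcon ((Nat.coprime_comm.1 ((hP.prime.coprime_iff_not_dvd).2 h3)))
    obtain ⟨k, rfl⟩ := h2
    push_cast at h1
    have h3 : IsUnit (p : R) := by
      have h4 : IsCoprime (p : R) (p : R) := h1.of_mul_left_left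
      exact isCoprime_self.1 h4
    have h4 : sp (p : R) = ⊤ := Ideal.span_singleton_eq_top.2 h3
    have h5 : P = ⊤ := by
      rw [eq_top_iff, ← h4, ← hP.sq]
      exact Ideal.mul_le_left
    exact hP.isPrime.ne_top h5
  · intro h
    have h1 : IsCoprime (sp (m : R)) (sp (p : R)) := by
      rw [Ideal.isCoprime_span_singleton_iff]
      exact h.cast
    rw [← hP.sq] at h1
    exact h1.of_mul_right_left

lemma ne_of_cop {R : Subring ℂ} {p : ℕ} {P : Ideal R} (hP : RP p P) {q : ℕ}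
    (h : IsCoprime P (sp (q : R))) : p ≠ q := by
  rintro rfl
  rw [← hP.sq] at h
  have h1 := isCoprime_self.1 h.of_mul_right_left
  rw [Ideal.isUnit_iff] at h1
  exact hP.isPrime.ne_top h1

lemma gP_eq (h1 : H_BASIC) {R : Subring ℂ} {ω : ℂ} (hqr : QR R ω) {p : ℕ} {P : Ideal R}
    (hP : RP p P) (m : ℕ) : gP P (sp (m : R)) = if Nat.Coprime m p then (m : ℂ) else 0 := by
  have h2 := (h1 R ω hqr).2.2.2.2.1 (m : R)
  unfold gP
  by_cases h3 : Nat.Coprime m p
  · rw [if_pos ((cop_P hP m).2 h3), if_pos h3, h2]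
    have h4 : Complex.normSq (((m : R) : R) : ℂ) = (m : ℝ) ^ 2 := by
      have : (((m : R) : R) : ℂ) = (m : ℂ) := by push_cast; rfl
      rw [this, Complex.normSq_natCast]
      ring
    rw [h4, Real.sqrt_sq (Nat.cast_nonneg m)]
    push_cast
    rfl
  · rw [if_neg (fun h => h3 ((cop_P hP m).1 h)), if_neg h3]

end Eps

theorem e_eps (h1 : H_BASIC) (h3 : A_BAR) : E_EPS := by
  have _ := h3
  intro R ω hqp p P hP U C A hU hA hUA
  obtain ⟨c', K, hK, hfin⟩ := Eps.final hU hA hUA hP.prime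
  refine ⟨(((1 - 1 / p) * (A / 2) : ℝ) : ℂ), (c' : ℂ), K, ?_, hK, ?_⟩
  · have hp1 : (1 : ℝ) < p := by exact_mod_cast hP.prime.one_lt
    have h4 : (0 : ℝ) < 1 - 1 / p := by
      rw [sub_pos, div_lt_one (by linarith)]
      exact hp1
    exact Complex.ofReal_ne_zero.2 (by positivity)
  intro q hq hcop w hw
  have hpq := Eps.ne_of_cop hP hcop
  have hterm : (fun m : ℕ => if Nat.Coprime m q then gP P (sp (m : R)) / (m : ℂ) ^ 2 *
      (U ((m : ℝ) ^ 2 * w) : ℂ) else 0)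
      = fun m : ℕ => (((if Nat.Coprime m q ∧ Nat.Coprime m p then Eps.G U w m else 0 : ℝ)) : ℂ) := by
    funext m
    rw [Eps.gP_eq h1 hqp.qr hP m]
    by_cases a1 : Nat.Coprime m q
    · by_cases a2 : Nat.Coprime m p
      · rw [if_pos a1, if_pos a2, if_pos ⟨a1, a2⟩]
        unfold Eps.G
        rcases Nat.eq_zero_or_pos m with hm | hm
        · subst hm
          simp
        · have : (m : ℂ) ≠ 0 := by exact_mod_cast hm.ne'
          push_cast
          field_simp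
      · rw [if_pos a1, if_neg a2, if_neg (fun h => a2 h.2)]
        simp
    · rw [if_neg a1, if_neg (fun h => a1 h.1)]
      simp
  rw [hterm]
  have hs := (Eps.cop_sum hU hw hP.prime hq hpq).summable
  refine ⟨Complex.ofRealCLM.summable hs, fun hw1 => ?_⟩
  have h5 := hfin q hq hpq w hw hw1
  rw [← Complex.ofReal_tsum, ← Complex.ofReal_mul, ← Complex.ofReal_add, ← Complex.ofReal_sub,
    Complex.norm_real, Real.norm_eq_abs]
  exact h5

end Pool.Agent.TH936.AE
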