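import Pool.Agent.TH936.AE.Stmts
import Pool.Agent.TH936.AC.Wcc

/-!
# Project AE (owner helper936), part FE (helper147): the central value of `L(χ, s)` for a ring class
character of prime conductor
-/

set_option autoImplicit false

open Complex

namespace Pool.Agent.TH936.AE

open Pool.Agent.W192.HK Pool.Agent.TH936.AC Pool.Agent.TH936.AW Pool.Agent.TH936.AD
open Pool.Agent.W192.CM (ez nu)

namespace Fe

open Pool.Agent.TH936.AC.Wcc

variable {R : Subring ℂ} {ω : ℂ}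

/-- ring class characters are conjugation symmetric -/
theorem cs_rg (h1 : H_BASIC) (h2 : H_FPR) (a1 : A_BAR) (hR : QP R ω) {q : ℕ} {χ : Ideal R → ℂ}
    (h : RG q χ) : CS χ := by
  obtain ⟨-, -, k3, k4, -, -, k7, k8, k9, k10, k11, k12, k13, k14⟩ := a1 R ω hR
  obtain ⟨p1, p2, p3, -⟩ := h2 R ω hR.qr _ χ h.rc
  intro I
  by_cases hI : χ I = 0
  · have h0 : χ (bar I) = 0 := by
      rcases (h.rc.zero I).1 hI with h3 | h3
      · rw [h3, k10]
        exact (h.rc.zero _).2 (Or.inl rfl)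
      · refine (h.rc.zero _).2 (Or.inr fun h4 => h3 ?_)
        rw [← k7 q, k14] at h4
        exact h4
    rw [h0, hI, map_zero]
  · have hIb : I ≠ ⊥ := fun e => hI ((h.rc.zero I).2 (Or.inl e))
    have hIq : IsCoprime I (sp (q : R)) := by
      by_contra e
      exact hI ((h.rc.zero I).2 (Or.inr e))
    have hIq' : IsCoprime (bar I) (sp (q : R)) := by
      rw [← k7 q, k14]
      exact hIq
    have hN : IsCoprime (I * bar I) (sp (q : R)) := IsCoprime.mul_left hIq hIq'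
    rw [k9 I hIb] at hN
    have hcop : Nat.Coprime (Nat.card (R ⧸ I)) q :=
      Wcc.nat_cop h.prime hN (Wcc.q_ne_top h1 hR.qr h.prime)
    have e1 : χ I * χ (bar I) = 1 := by rw [← h.rc.mul, k9 I hIb, h.int _ hcop]
    have e2 : ‖χ I‖ = 1 := p2 I hI
    have e3 : χ I * (starRingEnd ℂ) (χ I) = 1 := by
      rw [Complex.mul_conj, Complex.normSq_eq_norm_sq, e2]
      simp
    exact mul_left_cancel₀ hI (e1.trans e3.symm)

theorem nm_q (h1 : H_BASIC) (hQ : QR R ω) (q : ℕ) : nm (sp (q : R)) = (q : ℝ) ^ 2 := by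
  obtain ⟨-, -, -, -, b5, -⟩ := h1 R ω hQ
  rw [b5, Subring.coe_natCast, Complex.normSq_natCast]
  ring

/-- the root number is one -/
theorem wz_one (h1 : H_BASIC) (h3 : H_FP) (hR : QP R ω) {q : ℕ} {χ : Ideal R → ℂ}
    (hχ : HC 0 (sp (q : R)) χ) (hrg : RG q χ) :
    ∃ T : Finset R, Sys (sp (q : R)) {⊤} ⊤ (q : R) T ∧
      Wz ω (sp (q : R)) ⊤ (q : R) T χ = 1 := by
  classical
  have hq := hrg.prime
  have : Fact q.Prime := ⟨hq⟩
  have : IsDedekindDomain R := hR.qr.ded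
  have hqt : sp (q : R) ≠ ⊤ := q_ne_top h1 hR.qr hq
  have hR0 : (⊤ : Ideal R) ≠ ⊥ := top_ne_bot
  have hsys : Sys (sp (q : R)) {⊤} ⊤ (q : R)
      ((Finset.univ : Finset (ZMod q × ZMod q)).image (gg hR.qr)) := by
    refine ⟨⟨?_, ?_⟩, ?_, ?_, hR0, ?_, ?_, ⟨fun x _ => trivial, ?_⟩⟩
    · intro b hb
      rw [Finset.mem_singleton.1 hb]
      exact hR0
    · intro I _
      refine ⟨⊤, ⟨Finset.mem_singleton_self _, ?_⟩, fun b hb => Finset.mem_singleton.1 hb.1⟩
      rw [Ideal.mul_top]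
      exact (hR.pid.principal I).principal
    · intro b hb
      rw [Finset.mem_singleton.1 hb, ← Ideal.one_eq_top]
      exact isCoprime_one_left
    · intro b hb
      rw [Finset.mem_singleton.1 hb]
    · rw [← Ideal.one_eq_top]
      exact isCoprime_one_left
    · rw [Ideal.mul_top]
    · intro α
      obtain ⟨p, hp⟩ := gg_ex (q := q) hR.qr α
      refine ⟨gg hR.qr p, ⟨Finset.mem_image.2 ⟨p, Finset.mem_univ _, rfl⟩, hp⟩, ?_⟩
      rintro y ⟨hy1, hy2⟩
      obtain ⟨p', -, rfl⟩ := Finset.mem_image.1 hy1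
      congr 1
      apply gg_inj hR.qr
      have e : gg hR.qr p' - gg hR.qr p = (α - gg hR.qr p) - (α - gg hR.qr p') := by ring
      rw [e]
      exact Submodule.sub_mem _ hp hy2
  refine ⟨_, hsys, ?_⟩
  obtain ⟨-, cmul, -, -, cper⟩ := h3 R ω hR.qr 0 (sp (q : R)) χ hχ hqt
  have hC0 : ∀ α : R, fp 0 χ α = χ (sp α) := by
    intro α
    unfold fp
    rw [pow_zero, div_one]
  obtain ⟨α0, -, -, hα2, hα3⟩ := hχ.prim ⊤ (lt_top_iff_ne_top.2 hqt)
  have hG := gauss_q hR.qr hq (fp 0 χ) cmul cper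
    (by
      intro m hm
      rw [hC0]
      exact hrg.int m hm)
    (by
      rw [hC0, hχ.zero]
      left
      simp)
    α0 (by rw [hC0]; simpa using hα3) hα2
  unfold Wz gT
  rw [Finset.sum_image]
  · simp only [Subring.coe_natCast]
    have hqc : (q : ℂ) ≠ 0 := by exact_mod_cast hq.ne_zero
    rw [hG, nm_q h1 hR.qr q, Real.sqrt_sq (Nat.cast_nonneg q), hc_top hχ, mul_one]
    push_cast
    exact div_self hqc
  · intro p _ p' _ he
    apply gg_inj hR.qr
    rw [he, sub_self]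
    exact Submodule.zero_mem _

/-- regrouping a sum over the nonzero ideals by the powers of a prime ideal -/
theorem regroup [IsDedekindDomain R] {P : Ideal R} (hP : P.IsPrime) (hP0 : P ≠ ⊥)
    {G : Ideal R → ℂ} (hG : Summable G) (hG0 : G ⊥ = 0) :
    ∑' I, G I = ∑' J : {J : Ideal R // IsCoprime J P ∧ J ≠ ⊥}, ∑' k : ℕ, G (P ^ k * J) := by
  have hmax : P.IsMaximal := hP.isMaximal hP0
  have hprime : Prime P := Ideal.prime_of_isPrime hP0 hP
  have hcop : ∀ J : Ideal R, IsCoprime J P ↔ ¬ P ∣ J := by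
    intro J
    rw [Ideal.isCoprime_iff_sup_eq, Ideal.dvd_iff_le]
    constructor
    · intro h h'
      rw [sup_eq_right.2 h'] at h
      exact hP.ne_top h
    · intro h
      refine hmax.out.2 (J ⊔ P) (lt_of_le_of_ne le_sup_right ?_)
      intro h'
      apply h
      rw [h']
      exact le_sup_left
  let g : {J : Ideal R // IsCoprime J P ∧ J ≠ ⊥} × ℕ → Ideal R := fun x => P ^ x.2 * x.1
  have hinj0 : ∀ (J J' : Ideal R) (k l : ℕ), ¬ P ∣ J → ¬ P ∣ J' → k ≤ l →
      P ^ k * J = P ^ l * J' → k = l ∧ J = J' := by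
    intro J J' k l hJ hJ' hkl he
    obtain ⟨n, rfl⟩ := Nat.exists_eq_add_of_le hkl
    rw [pow_add, mul_assoc] at he
    have h1 : J = P ^ n * J' := mul_left_cancel₀ (pow_ne_zero k hprime.ne_zero) he
    rcases Nat.eq_zero_or_pos n with rfl | hn
    · rw [pow_zero, one_mul] at h1
      exact ⟨rfl, h1⟩
    · exfalso
      apply hJ
      rw [h1]
      exact Dvd.dvd.mul_right (dvd_pow_self P (by omega)) _
  have hginj : Function.Injective g := by
    rintro ⟨⟨J, hJ, hJ0⟩, k⟩ ⟨⟨J', hJ', hJ0'⟩, l⟩ he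
    simp only [g] at he
    rw [hcop] at hJ hJ'
    rcases le_total k l with h | h
    · obtain ⟨h1, h2⟩ := hinj0 J J' k l hJ hJ' h he
      subst h1; subst h2; rfl
    · obtain ⟨h1, h2⟩ := hinj0 J' J l k hJ' hJ h he.symm
      subst h1; subst h2; rfl
  have hsup : Function.support G ⊆ Set.range g := by
    intro I hI
    have hI0 : I ≠ ⊥ := by
      rintro rfl
      exact hI hG0
    have hfm : FiniteMultiplicity P I := FiniteMultiplicity.of_prime_left hprime hI0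
    obtain ⟨J, hJ1, hJ2⟩ := hfm.exists_eq_pow_mul_and_not_dvd
    refine ⟨(⟨J, (hcop J).2 hJ2, ?_⟩, multiplicity P I), hJ1.symm⟩
    rintro rfl
    exact hJ2 (dvd_zero P)
  have h1 : ∑' x, G (g x) = ∑' I, G I := hginj.tsum_eq hsup
  have h2 : Summable (fun x => G (g x)) := hG.comp_injective hginj
  rw [← h1, h2.tsum_prod]

theorem summG (h1 : H_BASIC) (h4 : H_FPR) (h5 : H_CNT) (h10 : N_V) (hR : QP R ω) {q : ℕ}
    {χ : Ideal R → ℂ} (hrg : RG q χ) {X : ℝ} (hX : 0 < X) :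
    Summable (fun I : Ideal R => χ I / (Real.sqrt (nm I) : ℂ) * (V0 (nm I / X) : ℂ)) := by
  obtain ⟨-, b2, b3, -⟩ := h1 R ω hR.qr
  obtain ⟨-, p2, -, -⟩ := h4 R ω hR.qr _ χ hrg.rc
  obtain ⟨-, c2, -⟩ := h5 R ω hR.qr
  obtain ⟨C, hC⟩ := h10
  have hs := (c2 2 (by norm_num)).mul_left (8 * C * X ^ 2)
  refine Summable.of_norm_bounded hs ?_
  intro I
  by_cases hI : I = ⊥
  · rw [hI, (hrg.rc.zero ⊥).2 (Or.inl rfl), zero_div, zero_mul, norm_zero, b2]
    have := hC.pos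
    positivity
  · have hn : 1 ≤ nm I := b3 I hI
    have hn0 : 0 < nm I := by linarith
    have hx : 0 < nm I / X := by positivity
    have e1 : ‖χ I‖ ≤ 1 := by
      by_cases h : χ I = 0
      · rw [h, norm_zero]; exact zero_le_one
      · exact (p2 I h).le
    have e2 : ‖(Real.sqrt (nm I) : ℂ)‖ = Real.sqrt (nm I) := by
      rw [Complex.norm_real, Real.norm_of_nonneg (Real.sqrt_nonneg _)]
    have e3 : 1 ≤ Real.sqrt (nm I) := by
      rw [Real.one_le_sqrt]; exact hn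
    have e4 : ‖(V0 (nm I / X) : ℂ)‖ ≤ C * Real.exp (-(nm I / X / 2)) := by
      rw [Complex.norm_real, Real.norm_eq_abs]
      exact hC.dec _ hx.le
    have e5 : Real.exp (-(nm I / X / 2)) ≤ 8 * X ^ 2 * (nm I) ^ (-(2 : ℝ)) := by
      have h6 := Real.quadratic_le_exp_of_nonneg (x := nm I / X / 2) (by positivity)
      have h7 : (nm I / X) ^ 2 / 8 ≤ Real.exp (nm I / X / 2) := by nlinarith
      rw [Real.exp_neg, Real.rpow_neg hn0.le, Real.rpow_two]
      rw [inv_le_comm₀ (Real.exp_pos _) (by positivity)]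
      refine le_trans (le_of_eq ?_) h7
      field_simp
    rw [norm_mul, norm_div, e2]
    have e6 : ‖χ I‖ / Real.sqrt (nm I) ≤ 1 := by
      rw [div_le_one (by linarith)]
      linarith
    calc ‖χ I‖ / Real.sqrt (nm I) * ‖(V0 (nm I / X) : ℂ)‖
        ≤ 1 * (C * Real.exp (-(nm I / X / 2))) :=
          mul_le_mul e6 e4 (norm_nonneg _) zero_le_one
      _ ≤ 1 * (C * (8 * X ^ 2 * (nm I) ^ (-(2 : ℝ)))) := by
          have := hC.pos
          gcongr
      _ = 8 * C * X ^ 2 * (nm I) ^ (-(2 : ℝ)) := by ring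

end Fe

open Fe Pool.Agent.TH936.AC.Wcc in
theorem e_fe (h1 : H_BASIC) (h2 : H_CLS) (h3 : H_FP) (h4 : H_FPR) (h5 : H_CNT) (h6 : H_PW)
    (h7 : H_GAUSS) (h8 : N_AFE) (h9 : A_BAR) (h10 : N_V) : E_FE := by
  intro R ω hR p P hRP q χ hqp hχ hrg
  have hq := hrg.prime
  have : Fact q.Prime := ⟨hq⟩
  have : IsDedekindDomain R := hR.qr.ded
  obtain ⟨-, -, k3, k4, -, -, k7, k8, k9, k10, k11, k12, k13, k14⟩ := h9 R ω hR
  obtain ⟨b1, b2, b3, b4, b5, -, b7, -⟩ := h1 R ω hR.qr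
  have hp0 : (0 : ℝ) < p := by exact_mod_cast hRP.prime.pos
  have hP0 : P ≠ ⊥ := by
    rintro h
    have := hRP.norm
    rw [h, b2] at this
    linarith
  have hχt : χ ⊤ = 1 := hc_top hχ
  -- the value at `P`
  have hPP : χ P * χ P = 1 := by
    rw [← hrg.rc.mul, hRP.sq]
    exact hrg.int p ((Nat.coprime_primes hRP.prime hq).2 (Ne.symm hqp))
  have hP1 : χ P = 1 ∨ χ P = -1 := by
    have : (χ P - 1) * (χ P + 1) = 0 := by linear_combination hPP
    rcases mul_eq_zero.1 this with h | h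
    · exact Or.inl (by linear_combination h)
    · exact Or.inr (by linear_combination h)
  refine ⟨hP1, ?_⟩
  have hPre : χ P = (((χ P).re : ℝ) : ℂ) := by
    rcases hP1 with h | h <;> rw [h] <;> simp
  set η : ℝ := (χ P).re with hη
  have hqt : sp (q : R) ≠ ⊤ := q_ne_top h1 hR.qr hq
  obtain ⟨T, hT, hW⟩ := wz_one h1 h3 hR hχ hrg
  obtain ⟨F, hFd, hFs, hFc⟩ := h8 R ω hR.qr (sp (q : R)) χ hχ hqt {⊤} ⊤ (q : R) T hT
  refine ⟨F, hFd, hFs, ?_⟩
  set X : ℝ := ω.im * q / Real.pi with hX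
  have hω := hR.qr.im
  have hpi := Real.pi_pos
  have hq0 : (0 : ℝ) < q := by exact_mod_cast hq.pos
  have hX0 : 0 < X := by positivity
  have hv := hFc X X hX0 hX0 (by
    rw [nm_q h1 hR.qr q, hX]
    ring)
  set G : Ideal R → ℂ := fun I => χ I / (Real.sqrt (nm I) : ℂ) * (V0 (nm I / X) : ℂ) with hG
  have hcs := cs_rg h1 h4 h9 hR hrg
  have hconj : ∑' I : Ideal R, (starRingEnd ℂ) (χ I) / (Real.sqrt (nm I) : ℂ) *
      (V0 (nm I / X) : ℂ) = ∑' I, G I := by
    let e : Ideal R ≃ Ideal R := Function.Involutive.toPerm bar k3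
    rw [← e.tsum_eq G]
    refine tsum_congr fun I => ?_
    show _ = χ (bar I) / (Real.sqrt (nm (bar I)) : ℂ) * (V0 (nm (bar I) / X) : ℂ)
    rw [hcs I, k8]
  rw [hconj, hW, one_mul] at hv
  rw [hv, ← two_mul]
  congr 1
  -- regrouping
  have hGs : Summable G := summG h1 h4 h5 h10 hR hrg hX0
  have hG0 : G ⊥ = 0 := by
    rw [hG]
    simp only
    rw [(hrg.rc.zero ⊥).2 (Or.inl rfl), zero_div, zero_mul]
  rw [regroup hRP.isPrime hP0 hGs hG0]
  have hpow : ∀ k : ℕ, χ (P ^ k) = (η : ℂ) ^ k := by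
    intro k
    induction k with
    | zero => rw [pow_zero, pow_zero, Ideal.one_eq_top, hχt]
    | succ k ih => rw [pow_succ, pow_succ, hrg.rc.mul, ih, ← hPre]
  have hnpow : ∀ k : ℕ, nm (P ^ k) = (p : ℝ) ^ k := by
    intro k
    induction k with
    | zero => rw [pow_zero, pow_zero, Ideal.one_eq_top]; exact (b7 ⊤).2 rfl
    | succ k ih => rw [pow_succ, pow_succ, b4, ih, hRP.norm]
  unfold smo
  have hsub : ∑' J : {J : Ideal R // IsCoprime J P ∧ J ≠ ⊥},
      (χ J * gP P J / (nm (J : Ideal R) : ℂ) * (Ve p η (nm (J : Ideal R) / X) : ℂ)) =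
      ∑' J : Ideal R, χ J * gP P J / (nm J : ℂ) * (Ve p η (nm J / X) : ℂ) := by
    refine Function.Injective.tsum_eq (f := fun J : Ideal R =>
      χ J * gP P J / (nm J : ℂ) * (Ve p η (nm J / X) : ℂ)) Subtype.val_injective ?_
    intro J hJ
    rw [Function.mem_support] at hJ
    have hJ1 : IsCoprime J P := by
      by_contra h
      apply hJ
      unfold gP
      rw [if_neg h]
      simp
    have hJ2 : J ≠ ⊥ := by
      intro h
      apply hJ
      rw [(hrg.rc.zero J).2 (Or.inl h)]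
      simp
    exact ⟨⟨J, hJ1, hJ2⟩, rfl⟩
  rw [← hsub]
  refine tsum_congr fun J => ?_
  obtain ⟨J, hJ1, hJ2⟩ := J
  have hn : 1 ≤ nm J := b3 J hJ2
  have hn0 : 0 < nm J := by linarith
  have hsn : 0 < Real.sqrt (nm J) := Real.sqrt_pos.2 hn0
  have hsp : 0 < Real.sqrt p := Real.sqrt_pos.2 hp0
  have hterm : ∀ k : ℕ, G (P ^ k * J) = χ J / (Real.sqrt (nm J) : ℂ) *
      (((η / Real.sqrt p) ^ k * V0 ((p : ℝ) ^ k * (nm J / X)) : ℝ) : ℂ) := by
    intro k
    rw [hG]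
    simp only
    rw [hrg.rc.mul, hpow, b4, hnpow, Real.sqrt_mul (by positivity)]
    have e1 : Real.sqrt ((p : ℝ) ^ k) = Real.sqrt p ^ k := by
      rw [Real.sqrt_eq_iff_mul_self_eq (by positivity) (by positivity), ← mul_pow,
        Real.mul_self_sqrt hp0.le]
    rw [e1, mul_div_assoc ((p : ℝ) ^ k)]
    push_cast
    have e2 : (Real.sqrt (nm J) : ℂ) ≠ 0 := by exact_mod_cast hsn.ne'
    have e3 : (Real.sqrt p : ℂ) ≠ 0 := by exact_mod_cast hsp.ne'
    rw [div_pow]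
    field_simp
  simp only [hterm]
  rw [tsum_mul_left, ← Complex.ofReal_tsum]
  show χ J / (Real.sqrt (nm J) : ℂ) * (Ve p η (nm J / X) : ℂ) = _
  congr 1
  unfold gP
  rw [if_pos hJ1]
  have e4 : (nm J : ℂ) = (Real.sqrt (nm J) : ℂ) * (Real.sqrt (nm J) : ℂ) := by
    rw [← Complex.ofReal_mul, Real.mul_self_sqrt hn0.le]
  have e2 : (Real.sqrt (nm J) : ℂ) ≠ 0 := by exact_mod_cast hsn.ne'
  rw [e4]
  field_simp

end Pool.Agent.TH936.AE
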