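import Pool.Agent.TH936.AE.Core
import Pool.Agent.TH936.CM.Fin

/-!
# Project AE: the functions `L(χ, s)`
-/

set_option autoImplicit false

open Complex

namespace Pool.Agent.TH936.AE

open Pool.Agent.W192.HK Pool.Agent.TH936.AC Pool.Agent.TH936.AW Pool.Agent.TH936.AD

variable {R : Subring ℂ} {ω : ℂ}

theorem ge_gP (h1 : H_BASIC) (hR : QP R ω) {P : Ideal R} (hP : P ≠ ⊥) : GE P (gP P) := by
  classical
  obtain ⟨b1, b2, b3, b4, -⟩ := h1 R ω hR.qr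
  have hnn : ∀ I : Ideal R, 0 ≤ nm I := fun I => Nat.cast_nonneg _
  refine ⟨hP, fun I J => ?_, fun I => ?_, fun I hI hc => ?_⟩
  · unfold gP
    by_cases hI : IsCoprime I P
    · by_cases hJ : IsCoprime J P
      · rw [if_pos (hI.mul_left hJ), if_pos hI, if_pos hJ, b4, Real.sqrt_mul (hnn I)]
        push_cast
        rfl
      · rw [if_neg hJ, mul_zero, if_neg fun h => hJ h.of_mul_left_right]
    · rw [if_neg hI, zero_mul, if_neg fun h => hI h.of_mul_left_left]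
  · unfold gP
    by_cases hc : IsCoprime I P
    · rw [if_pos hc]
      constructor
      · intro h0
        left
        by_contra hI
        have h2 := b3 I hI
        have h3 : 0 < Real.sqrt (nm I) := Real.sqrt_pos.2 (by linarith)
        have h4 : Real.sqrt (nm I) = 0 := by exact_mod_cast h0
        linarith
      · rintro (h0 | h0)
        · rw [h0, b2, Real.sqrt_zero, Complex.ofReal_zero]
        · exact absurd hc h0
    · rw [if_neg hc]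
      exact ⟨fun _ => Or.inr hc, fun _ => rfl⟩
  · unfold gP
    rw [if_pos hc, Complex.norm_real, Real.norm_of_nonneg (Real.sqrt_nonneg _),
      Real.sq_sqrt (hnn I)]

theorem cs_gP (a1 : A_BAR) (hR : QP R ω) {P : Ideal R} (hP : bar P = P) : CS (gP P) := by
  classical
  obtain ⟨-, -, k3, k4, -, -, k7, k8, k9, k10, k11, k12, k13, k14⟩ := a1 R ω hR
  intro I
  have h1 : IsCoprime (bar I) P ↔ IsCoprime I P := by
    nth_rewrite 1 [← hP]
    exact k14 I P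
  unfold gP
  by_cases hc : IsCoprime I P
  · rw [if_pos hc, if_pos (h1.2 hc), k8, Complex.conj_ofReal]
  · rw [if_neg hc, if_neg fun h => hc (h1.1 h), map_zero]

theorem cop_of_ne {p : ℕ} {P : Ideal R} (hP : RP p P) {q : ℕ} (hq : q.Prime) (hne : q ≠ p) :
    IsCoprime P (sp (q : R)) := by
  have h1 : Nat.Coprime p q := (Nat.coprime_primes hP.prime hq).2 (Ne.symm hne)
  have h2 : IsCoprime (p : ℤ) (q : ℤ) := Nat.isCoprime_iff_coprime.2 h1
  have h3 : IsCoprime (p : R) (q : R) := by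
    have := h2.map (Int.castRingHom R)
    simpa using this
  have h4 : IsCoprime (sp (p : R)) (sp (q : R)) := Ideal.isCoprime_span_singleton_iff _ _ |>.2 h3
  rw [← hP.sq] at h4
  exact h4.of_mul_left_left

theorem pw_P {P : Ideal R} {χ : Ideal R → ℂ} (h : χ P = 1 ∨ χ P = -1) {d : ℕ} (hd : Od χ d) {a : ℕ}
    (ha : Nat.Coprime a d) : pw χ a P = χ P := by
  unfold pw
  rcases h with h | h
  · rw [h, if_neg one_ne_zero, one_pow]
  · have h0 : χ P ≠ 0 := by rw [h]; norm_num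
    have h1 := hd.pow P h0
    rw [if_neg h0]
    rw [h] at h1 ⊢
    have hde : Even d := by
      by_contra hno
      have hodd := Nat.not_even_iff_odd.1 hno
      rw [hodd.neg_one_pow] at h1
      norm_num at h1
    have hao : Odd a := by
      by_contra hno
      have hae := Nat.not_odd_iff_even.1 hno
      have h2 : 2 ∣ Nat.gcd a d := Nat.dvd_gcd hae.two_dvd hde.two_dvd
      rw [ha] at h2
      norm_num at h2
    exact hao.neg_one_pow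

/-- `F` is entire and is `L(χ, s)` for `Re s > 1` -/
structure IsL0 (χ : Ideal R → ℂ) (F : ℂ → ℂ) : Prop where
  diff : Differentiable ℂ F
  sum : ∀ z : ℂ, 1 < z.re → HasSum (fun I : Ideal R => χ I * (nm I : ℂ) ^ (-z)) (F z)

/-- many conjugates have a large central value -/
theorem many (h1 : H_BASIC) (h4 : H_PW) (a1 : A_BAR) (a2 : E_V) (a3 : E_EPS) (a4 : E_FE)
    (hR : QP R ω) {p : ℕ} {P : Ideal R} (hP : RP p P)
    (hcore : ∀ (V : ℝ → ℝ) (CV : ℝ), WG V CV → ∀ (L0 L1 : ℂ) (CE : ℝ), EP V P (gP P) L0 L1 CE →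
      ∀ x0 : ℝ, 0 < x0 → ∀ M : ℕ, 1 ≤ M → ∀ ε : ℝ, 0 < ε → ∃ q0 : ℝ, ∀ (q : ℕ) (χ : Ideal R → ℂ),
        RG q χ → IsCoprime P (sp (q : R)) → q0 ≤ q → ∀ d : ℕ, Od χ d → (q : ℝ) ^ (2 / 3 + ε) ≤ d →
        ∀ M₁ : ℕ, 1 ≤ M₁ → M₁ ≤ M → M₁ ∣ d →
        (d : ℝ) * (q : ℝ) ^ (-5 / 8 : ℝ) ≤ (((Ea d M₁).filter (fun b =>
          (q : ℝ) ^ (-1 / 9 : ℝ) ≤ ‖smo V (gP P) (x0 * q) (pw χ b)‖)).card : ℝ)) :
    ∃ L : (Ideal R → ℂ) → ℂ → ℂ,
      (∀ (q : ℕ) (χ : Ideal R → ℂ), q ≠ p → HC 0 (sp (q : R)) χ → RG q χ → IsL0 χ (L χ)) ∧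
      ∀ M : ℕ, 1 ≤ M → ∀ ε : ℝ, 0 < ε → ∃ q0 : ℝ, ∀ (q : ℕ) (χ : Ideal R → ℂ),
        HC 0 (sp (q : R)) χ → RG q χ → q0 ≤ q → ∀ d : ℕ, Od χ d → (q : ℝ) ^ (2 / 3 + ε) ≤ d →
        ∀ M₁ : ℕ, 1 ≤ M₁ → M₁ ≤ M → M₁ ∣ d →
        (d : ℝ) * (q : ℝ) ^ (-5 / 8 : ℝ) ≤ (Set.ncard {a : ℕ | a < d ∧ Nat.Coprime a d ∧
          a % M₁ = 1 % M₁ ∧ (q : ℝ) ^ (-1 / 9 : ℝ) ≤ ‖L (pw χ a) (1 / 2)‖} : ℝ) := by
  classical
  obtain ⟨Lx, hLx⟩ : ∃ Lx : (Ideal R → ℂ) → ℂ → ℂ, ∀ (χ : Ideal R → ℂ) (F : ℂ → ℂ),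
      IsL0 χ F → Lx χ = F := by
    refine ⟨fun χ => if h : ∃ F, IsL0 χ F then Classical.choose h
      else fun _ => 0, fun χ F hF => ?_⟩
    have h : ∃ F, IsL0 χ F := ⟨F, hF⟩
    have e1 := Classical.choose_spec h
    show (if h : ∃ F, IsL0 χ F then Classical.choose h else fun _ => 0) = F
    rw [dif_pos h]
    exact Pool.Agent.TH936.CM.entire_eq e1.diff hF.diff 1 fun z hz =>
      (e1.sum z hz).unique (hF.sum z hz)
  have him := hR.qr.im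
  have hx0 : 0 < ω.im / Real.pi := div_pos him Real.pi_pos
  refine ⟨Lx, fun q χ hqp hχ hrg => ?_, fun M hM ε hε => ?_⟩
  · obtain ⟨-, F, k1, k2, -⟩ := a4 R ω hR p P hP q χ hqp hχ hrg
    rw [hLx χ F ⟨k1, k2⟩]
    exact ⟨k1, k2⟩
  · have key : ∀ η : ℝ, (η = 1 ∨ η = -1) → ∃ q0 : ℝ, ∀ (q : ℕ) (χ : Ideal R → ℂ),
        RG q χ → IsCoprime P (sp (q : R)) → q0 ≤ q → ∀ d : ℕ, Od χ d → (q : ℝ) ^ (2 / 3 + ε) ≤ d →
        ∀ M₁ : ℕ, 1 ≤ M₁ → M₁ ≤ M → M₁ ∣ d →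
        (d : ℝ) * (q : ℝ) ^ (-5 / 8 : ℝ) ≤ (((Ea d M₁).filter (fun b =>
          (q : ℝ) ^ (-1 / 9 : ℝ) ≤ ‖smo (Ve p η) (gP P) (ω.im / Real.pi * q) (pw χ b)‖)).card
            : ℝ) := by
      intro η hη
      obtain ⟨C, A, hW, hA, hV⟩ := a2 p hP.prime η hη
      obtain ⟨L0, L1, C', hE⟩ := a3 R ω hR p P hP (Ve p η) C A hW hA hV
      exact hcore _ _ hW _ _ _ hE _ hx0 M hM ε hε
    obtain ⟨q1, hq1⟩ := key 1 (Or.inl rfl)
    obtain ⟨q2, hq2⟩ := key (-1) (Or.inr rfl)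
    refine ⟨max (max q1 q2) (p + 1), fun q χ hχ hrg hq d hd hdq M₁ m1 m2 m3 => ?_⟩
    have hqq1 : q1 ≤ q := ((le_max_left _ _).trans (le_max_left _ _)).trans hq
    have hqq2 : q2 ≤ q := ((le_max_right _ _).trans (le_max_left _ _)).trans hq
    have hqp' : (p : ℝ) + 1 ≤ q := (le_max_right _ _).trans hq
    have hqp : q ≠ p := by
      intro h
      rw [h] at hqp'
      linarith
    have hcop := cop_of_ne hP hrg.prime hqp
    have hfe := a4 R ω hR p P hP q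
    have hsgn := (hfe χ hqp hχ hrg).1
    have hre : (χ P).re = 1 ∨ (χ P).re = -1 := by
      rcases hsgn with h | h
      · left; rw [h]; simp
      · right; rw [h]; simp
    have hmain : (d : ℝ) * (q : ℝ) ^ (-5 / 8 : ℝ) ≤ (((Ea d M₁).filter (fun b =>
          (q : ℝ) ^ (-1 / 9 : ℝ) ≤ ‖smo (Ve p (χ P).re) (gP P) (ω.im / Real.pi * q)
            (pw χ b)‖)).card : ℝ) := by
      rcases hre with h | h
      · rw [h]
        exact hq1 q χ hrg hcop hqq1 d hd hdq M₁ m1 m2 m3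
      · rw [h]
        exact hq2 q χ hrg hcop hqq2 d hd hdq M₁ m1 m2 m3
    refine hmain.trans ?_
    rw [← Set.ncard_coe_finset]
    have hfin : {a : ℕ | a < d ∧ Nat.Coprime a d ∧ a % M₁ = 1 % M₁ ∧
        (q : ℝ) ^ (-1 / 9 : ℝ) ≤ ‖Lx (pw χ a) (1 / 2)‖}.Finite :=
      (Set.finite_Iio d).subset fun a ha => ha.1
    refine Nat.cast_le.2 (Set.ncard_le_ncard ?_ hfin)
    intro a ha
    rw [Finset.mem_coe, Finset.mem_filter] at ha
    obtain ⟨ha1, ha2⟩ := ha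
    unfold Ea at ha1
    rw [Finset.mem_filter, Finset.mem_range] at ha1
    obtain ⟨k1, k2, k3⟩ := ha1
    refine ⟨k1, k2, k3, ?_⟩
    obtain ⟨-, F, l1, l2, l3⟩ := hfe (pw χ a) hqp (h4 R ω hR.qr _ χ hχ d hd a k2) (rg_pw hrg a)
    rw [hLx _ F ⟨l1, l2⟩, l3, pw_P hsgn hd k2, norm_mul]
    have e1 : ω.im * (q : ℝ) / Real.pi = ω.im / Real.pi * q := by ring
    rw [e1]
    have e2 : ‖(2 : ℂ)‖ = 2 := by norm_num
    rw [e2]
    have e3 := norm_nonneg (smo (Ve p (χ P).re) (gP P) (ω.im / Real.pi * q) (pw χ a))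
    linarith

end Pool.Agent.TH936.AE
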