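import Pool.Agent.TH936.AD.Phi
import Pool.Agent.TH936.AE.Stmts

/-!
# AE-PHI: the coefficients of the small primitive ideals (helper374 for helper936)

Adapted from Pool/Agent/TH936/AD/Phi.lean (helper150), Pool/Agent/TH936/AW/Phi.lean (helper574) and
Pool/Agent/TH936/AC/Phi.lean (helper147).
-/

set_option autoImplicit false

open Complex

namespace Pool.Agent.TH936.AE.Phi

open Pool.Agent.W192.HK Filter Topology
open Pool.Agent.TH936.AC Pool.Agent.TH936.AC.Phi

section arith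
variable {R : Subring ℂ} {f : Ideal R} {g : Ideal R → ℂ}

lemma g_one (hg : GE f g) : g (sp (1 : R)) = 1 := by
  rw [sp_one]
  have h1 := hg.mul ⊤ ⊤
  rw [Ideal.top_mul] at h1
  have h2 : g ⊤ ≠ 0 := by
    intro h
    rcases (hg.zero ⊤).1 h with h3 | h3
    · exact top_ne_bot h3
    · exact h3 (Ideal.isCoprime_iff_sup_eq.2 (top_sup_eq _))
  exact (mul_left_cancel₀ h2 (by rw [← h1, mul_one])).symm

lemma g_p (h1 : H_BASIC) (h3 : A_BAR) {ω : ℂ} (hR : QP R ω) (hg : GE f g)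
    (cs : CS g) {p : ℕ} (hp : p ≠ 0) {P : Ideal R} (hP : IsPP f p P) :
    g (sp (p : R)) = (p : ℂ) := by
  obtain ⟨-, h4, -, h6⟩ := hP
  have hp0 : (p : R) ≠ 0 := by
    intro h
    have h' := congrArg (fun z : R => (z : ℂ)) h
    simp only [Subring.coe_natCast, ZeroMemClass.coe_zero, Nat.cast_eq_zero] at h'
    exact hp h'
  have hsp : sp (p : R) ≠ ⊥ := by
    rw [Ne, Ideal.span_singleton_eq_bot]
    exact hp0
  have hP0 : P ≠ ⊥ := by
    rintro rfl
    rw [Ideal.bot_mul] at h4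
    exact hsp h4.symm
  have hPc : IsCoprime P f := by
    rw [← h4] at h6
    exact h6.of_mul_left_left
  obtain ⟨-, -, -, hmul, hnorm, -⟩ := h1 R ω hR.qr
  obtain ⟨-, -, -, -, -, -, -, hbar, -⟩ := h3 R ω hR
  have h7 := hg.nrm P hP0 hPc
  have h8 : nm P * nm P = (p : ℝ) * p := by
    have := hmul P (bar P)
    rw [hbar, h4, hnorm] at this
    rw [← this]
    simp
  have h9 : nm P = (p : ℝ) := by
    have hn : 0 ≤ nm P := by unfold nm; positivity
    exact (mul_self_inj hn (Nat.cast_nonneg p)).1 h8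
  rw [← h4, hg.mul, cs P, Complex.mul_conj, Complex.normSq_eq_norm_sq, h7, h9]
  simp

lemma g_mc (h1 : H_BASIC) (h3 : A_BAR) {ω : ℂ} (hR : QP R ω) (hg : GE f g)
    (cs : CS g) (y : ℝ) (c : Ideal R) (b : Finset ℕ × Finset ℕ) :
    g (sp ((mc f y c b : ℕ) : R)) = ((mc f y c b : ℕ) : ℂ) := by
  classical
  have key : ∀ s : Finset ℕ, s ⊆ SP f y →
      g (sp ((∏ p ∈ s, mloc f c b p : ℕ) : R)) = ((∏ p ∈ s, mloc f c b p : ℕ) : ℂ) := by
    intro s
    induction s using Finset.induction_on with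
    | empty =>
      intro _
      rw [Finset.prod_empty, Nat.cast_one, Nat.cast_one]
      exact g_one hg
    | insert p s hp ih =>
      intro hs
      rw [Finset.prod_insert hp, Nat.cast_mul, Nat.cast_mul, sp_mul, hg.mul,
        ih fun x hx => hs (Finset.mem_insert_of_mem hx)]
      congr 1
      obtain ⟨h4, ⟨P, hP⟩, -⟩ := mem_SP (hs (Finset.mem_insert_self p s))
      rcases mloc_cases (f := f) c b p with h | h
      · rw [h]; exact g_p h1 h3 hR hg cs h4.ne_zero hP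
      · rw [h, Nat.cast_one, Nat.cast_one]; exact g_one hg
  exact key _ (Finset.Subset.refl _)

end arith

end Pool.Agent.TH936.AE.Phi

namespace Pool.Agent.TH936.AE

open Pool.Agent.W192.HK Pool.Agent.TH936.AC Pool.Agent.TH936.AW Pool.Agent.TH936.AD
open Pool.Agent.TH936.AC.Phi (mc_pos mc_coprime mem_BB primes_of nB_pos card_BB)
open Pool.Agent.TH936.AW.Phi (us Ph_eq)
open Pool.Agent.TH936.AD.Phi
open Pool.Agent.TH936.AE.Phi (g_mc)

/-- AE-PHI -/
theorem e_phi (h1 : H_BASIC) (h3 : A_BAR) (h5 : A_PROD) (h6 : A_RANK) : E_PHI := by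
  classical
  intro R ω hR U CU hU f g hg cs L0 L1 C hEP c0 C0 hc0 hC0
  obtain ⟨hL0, hC, hE⟩ := hEP
  obtain ⟨q0, hq0⟩ := numeric2 (6 * ‖L0‖ + ‖L1‖) C c0 C0 hc0 (by positivity) hC.le
  refine ⟨q0, ?_⟩
  intro q hq hfq hqq0 X hX1 hX2 c hc hcn
  obtain ⟨n1, n2, n3, n4, n5, n6, n7⟩ := hq0 q hqq0
  set y : ℝ := (Real.log q) ^ 200 with hy
  set Z : ℝ := (q : ℝ) ^ (1 / 10 : ℝ) with hZ
  have hq0' : (0 : ℝ) < q := by linarith
  have hy1 : 1 ≤ y := one_le_pow₀ n3
  have hZ1 : 1 ≤ Z := Real.one_le_rpow n1 (by norm_num)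
  have hZq : Z ≤ q := by
    rw [hZ]
    conv_rhs => rw [← Real.rpow_one (q : ℝ)]
    exact Real.rpow_le_rpow_of_exponent_le n1 (by norm_num)
  obtain ⟨-, -, hnorm1, -, -, -⟩ := h1 R ω hR.qr
  have hX : 0 < X := lt_of_lt_of_le (by positivity) hX1
  have hnc : 1 ≤ nm c := hnorm1 c hc.1
  have hnc0 : 0 < nm c := by linarith
  obtain ⟨-, -, hP⟩ := h5 R ω hR f y hg.ne
  obtain ⟨hPd, hPs⟩ := hP c hc
  have hyq : ⌊y⌋₊ < q := by
    rw [Nat.floor_lt (by linarith)]
    exact n2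
  have hsum : ∀ w : ℝ, 0 < w → Summable (us U g q w) ∧
      (w ≤ 1 → ‖∑' m, us U g q w m - (L0 * ((-Real.log w : ℝ) : ℂ) + L1)‖ ≤
        C * (w ^ (3 / 10 : ℝ) + (1 + |Real.log w| + Real.log q) / q)) :=
    fun w hw => hE q hq hfq w hw
  have hPh := Ph_eq (V := U) (g := g) (f := f) (y := y) (Z := Z) (X := X) (q := q) (c := c) hg.mul
    (fun b hb m => (hPd b (mem_BB.1 hb).1).1 m) (fun b => mc_coprime hq hyq c b)
    (fun b => g_mc h1 h3 hR hg cs y c b) (fun w hw => (hsum w hw).1) hnc0 hX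
    (fun b hb => nB_pos (mem_BB.1 hb).1)
  have hsB : ∀ b, ‖(sB b : ℂ)‖ = 1 := by
    intro b
    unfold sB
    push_cast
    rw [norm_pow, norm_neg, norm_one, one_pow]
  have hmc1 : ∀ b, (1 : ℝ) ≤ mc f y c b := fun b => by
    exact_mod_cast (mc_pos (f := f) y c b)
  -- the function that is summed
  set A : ℂ := L0 * (Real.log (X / nm c) : ℂ) + L1 with hA
  have hmain : A * (dl f y c : ℂ) + L0 * (dL f y c : ℂ) =
      ∑ b ∈ BB f y Z, (sB b : ℂ) / ((mc f y c b : ℕ) : ℂ) *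
        (A + L0 * (Real.log ((nB b : ℝ) / (mc f y c b : ℝ) ^ 2) : ℂ)) +
      ∑ b ∈ ((SP f y).powerset ×ˢ (SP f y).powerset).filter (fun b => ¬ ((nB b : ℝ) ≤ Z)),
        (sB b : ℂ) / ((mc f y c b : ℕ) : ℂ) *
        (A + L0 * (Real.log ((nB b : ℝ) / (mc f y c b : ℝ) ^ 2) : ℂ)) := by
    have e1 : A * (dl f y c : ℂ) + L0 * (dL f y c : ℂ) =
        ∑ b ∈ (SP f y).powerset ×ˢ (SP f y).powerset, (sB b : ℂ) / ((mc f y c b : ℕ) : ℂ) *
        (A + L0 * (Real.log ((nB b : ℝ) / (mc f y c b : ℝ) ^ 2) : ℂ)) := by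
      rw [← hPs]
      unfold dL
      push_cast
      rw [Finset.mul_sum, Finset.mul_sum, ← Finset.sum_add_distrib]
      refine Finset.sum_congr rfl fun b _ => ?_
      ring
    rw [e1, ← Finset.sum_filter_add_sum_filter_not _ (fun b => (nB b : ℝ) ≤ Z)]
    congr 1
  have hdec : PhV U f y Z X q g c - (A * (dl f y c : ℂ) + L0 * (dL f y c : ℂ)) =
      ∑ b ∈ BB f y Z, (sB b : ℂ) / ((mc f y c b : ℕ) : ℂ) *
        (∑' m, us U g q (((mc f y c b : ℕ) : ℝ) ^ 2 * (nm c / (nB b * X))) m -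
          (A + L0 * (Real.log ((nB b : ℝ) / (mc f y c b : ℝ) ^ 2) : ℂ))) -
      ∑ b ∈ ((SP f y).powerset ×ˢ (SP f y).powerset).filter (fun b => ¬ ((nB b : ℝ) ≤ Z)),
        (sB b : ℂ) / ((mc f y c b : ℕ) : ℂ) *
        (A + L0 * (Real.log ((nB b : ℝ) / (mc f y c b : ℝ) ^ 2) : ℂ)) := by
    rw [hPh, hmain, ← sub_sub, ← Finset.sum_sub_distrib]
    congr 1
    refine Finset.sum_congr rfl fun b _ => ?_
    ring
  rw [hdec]
  have hA1 : ‖∑ b ∈ BB f y Z, (sB b : ℂ) / ((mc f y c b : ℕ) : ℂ) *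
        (∑' m, us U g q (((mc f y c b : ℕ) : ℝ) ^ 2 * (nm c / (nB b * X))) m -
          (A + L0 * (Real.log ((nB b : ℝ) / (mc f y c b : ℝ) ^ 2) : ℂ)))‖ ≤
      Z ^ 2 * (C * ((q : ℝ) ^ (-(24 / 100) : ℝ) + (1 + 4 * Real.log q) / q)) := by
    have hB : ∀ b ∈ BB f y Z, ‖(sB b : ℂ) / ((mc f y c b : ℕ) : ℂ) *
        (∑' m, us U g q (((mc f y c b : ℕ) : ℝ) ^ 2 * (nm c / (nB b * X))) m -
          (A + L0 * (Real.log ((nB b : ℝ) / (mc f y c b : ℝ) ^ 2) : ℂ)))‖ ≤
        C * ((q : ℝ) ^ (-(24 / 100) : ℝ) + (1 + 4 * Real.log q) / q) := by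
      intro b hb
      obtain ⟨hb1, hb2⟩ := mem_BB.1 hb
      have hnB : (1 : ℝ) ≤ nB b := by exact_mod_cast nB_pos hb1
      have hm := hmc1 b
      have hm0 : (0 : ℝ) < mc f y c b := by linarith
      have hmn : (mc f y c b : ℝ) ≤ nB b := by exact_mod_cast mc_le_nB c hb1
      have hmZ : (mc f y c b : ℝ) ≤ Z := hmn.trans hb2
      have hw : 0 < ((mc f y c b : ℕ) : ℝ) ^ 2 * (nm c / (nB b * X)) := by positivity
      have hw8 : ((mc f y c b : ℕ) : ℝ) ^ 2 * (nm c / (nB b * X)) ≤ (q : ℝ) ^ (-(8 / 10) : ℝ) := by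
        refine le_trans ?_ n5
        have e1 : ((mc f y c b : ℕ) : ℝ) ^ 2 * (nm c / (nB b * X)) =
            (mc f y c b : ℝ) * ((mc f y c b : ℝ) / nB b) * (nm c / X) := by
          field_simp
        rw [e1]
        have e2 : (mc f y c b : ℝ) / nB b ≤ 1 := (div_le_one (by linarith)).2 hmn
        calc (mc f y c b : ℝ) * ((mc f y c b : ℝ) / nB b) * (nm c / X)
            ≤ Z * 1 * ((q : ℝ) ^ (1 / 100000 : ℝ) / (c0 * q)) := by gcongr
          _ = _ := by rw [mul_one]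
      have hw1 : ((mc f y c b : ℕ) : ℝ) ^ 2 * (nm c / (nB b * X)) ≤ 1 :=
        hw8.trans (Real.rpow_le_one_of_one_le_of_nonpos n1 (by norm_num))
      have hlw : Real.log (((mc f y c b : ℕ) : ℝ) ^ 2 * (nm c / (nB b * X))) =
          -(Real.log (X / nm c) + Real.log ((nB b : ℝ) / (mc f y c b : ℝ) ^ 2)) := by
        rw [← Real.log_mul (by positivity) (by positivity), ← Real.log_inv]
        congr 1
        field_simp
      have hlog : |Real.log (((mc f y c b : ℕ) : ℝ) ^ 2 * (nm c / (nB b * X)))| ≤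
          3 * Real.log q := by
        rw [abs_of_nonpos (Real.log_nonpos hw.le hw1), ← Real.log_inv]
        have e1 : (((mc f y c b : ℕ) : ℝ) ^ 2 * (nm c / (nB b * X)))⁻¹ ≤ (q : ℝ) ^ 3 := by
          have e2 : (((mc f y c b : ℕ) : ℝ) ^ 2 * (nm c / (nB b * X)))⁻¹ =
              (nB b * X) / (((mc f y c b : ℕ) : ℝ) ^ 2 * nm c) := by
            field_simp
          rw [e2]
          have e3 : (1 : ℝ) ≤ ((mc f y c b : ℕ) : ℝ) ^ 2 * nm c :=
            one_le_mul_of_one_le_of_one_le (one_le_pow₀ hm) hnc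
          calc (nB b * X) / (((mc f y c b : ℕ) : ℝ) ^ 2 * nm c) ≤ (nB b * X) / 1 := by
                gcongr
            _ = nB b * X := div_one _
            _ ≤ q * (q * q) := by
                have e4 : (nB b : ℝ) ≤ q := hb2.trans hZq
                have e5 : X ≤ q * q := hX2.trans (by gcongr)
                gcongr
            _ = (q : ℝ) ^ 3 := by ring
        calc Real.log (((mc f y c b : ℕ) : ℝ) ^ 2 * (nm c / (nB b * X)))⁻¹
            ≤ Real.log ((q : ℝ) ^ 3) := Real.log_le_log (by positivity) e1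
          _ = 3 * Real.log q := by rw [Real.log_pow]; norm_num
      have h7 := (hsum _ hw).2 hw1
      have e8 : L0 * ((-Real.log (((mc f y c b : ℕ) : ℝ) ^ 2 * (nm c / (nB b * X))) : ℝ) : ℂ) + L1
          = A + L0 * (Real.log ((nB b : ℝ) / (mc f y c b : ℝ) ^ 2) : ℂ) := by
        rw [hlw, hA]
        push_cast
        ring
      rw [e8] at h7
      rw [norm_mul, norm_div, hsB, Complex.norm_natCast]
      have h8 : 1 / ((mc f y c b : ℕ) : ℝ) ≤ 1 := by
        rw [div_le_one hm0]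
        exact hm
      calc 1 / ((mc f y c b : ℕ) : ℝ) *
            ‖∑' m, us U g q (((mc f y c b : ℕ) : ℝ) ^ 2 * (nm c / (nB b * X))) m -
              (A + L0 * (Real.log ((nB b : ℝ) / (mc f y c b : ℝ) ^ 2) : ℂ))‖
          ≤ 1 * ‖∑' m, us U g q (((mc f y c b : ℕ) : ℝ) ^ 2 * (nm c / (nB b * X))) m -
              (A + L0 * (Real.log ((nB b : ℝ) / (mc f y c b : ℝ) ^ 2) : ℂ))‖ :=
            mul_le_mul_of_nonneg_right h8 (norm_nonneg _)
        _ ≤ C * ((((mc f y c b : ℕ) : ℝ) ^ 2 * (nm c / (nB b * X))) ^ (3 / 10 : ℝ) +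
            (1 + |Real.log (((mc f y c b : ℕ) : ℝ) ^ 2 * (nm c / (nB b * X)))| + Real.log q) / q) := by
            rw [one_mul]
            exact h7
        _ ≤ _ := by
            refine mul_le_mul_of_nonneg_left (add_le_add ?_ ?_) hC.le
            · calc (((mc f y c b : ℕ) : ℝ) ^ 2 * (nm c / (nB b * X))) ^ (3 / 10 : ℝ)
                  ≤ ((q : ℝ) ^ (-(8 / 10) : ℝ)) ^ (3 / 10 : ℝ) :=
                    Real.rpow_le_rpow hw.le hw8 (by norm_num)
                _ = (q : ℝ) ^ (-(24 / 100) : ℝ) := by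
                    rw [← Real.rpow_mul hq0'.le]
                    norm_num
            · refine div_le_div_of_nonneg_right ?_ hq0'.le
              linarith
    calc _ ≤ ∑ b ∈ BB f y Z, C * ((q : ℝ) ^ (-(24 / 100) : ℝ) + (1 + 4 * Real.log q) / q) :=
          (norm_sum_le _ _).trans (Finset.sum_le_sum hB)
      _ = (BB f y Z).card * (C * ((q : ℝ) ^ (-(24 / 100) : ℝ) + (1 + 4 * Real.log q) / q)) := by
          rw [Finset.sum_const, nsmul_eq_mul]
      _ ≤ _ := by
          have := card_BB (f := f) y Z (by linarith)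
          have h9 : 0 ≤ C * ((q : ℝ) ^ (-(24 / 100) : ℝ) + (1 + 4 * Real.log q) / q) := by
            positivity
          exact mul_le_mul_of_nonneg_right this h9
  have hAn : ‖A‖ ≤ 2 * ‖L0‖ * Real.log q + ‖L1‖ := by
    have e0 : 0 ≤ Real.log (X / nm c) := by
      apply Real.log_nonneg
      rw [le_div_iff₀ hnc0, one_mul]
      exact hcn.trans (n6.trans hX1)
    have e1 : Real.log (X / nm c) ≤ 2 * Real.log q := by
      have e2 : X / nm c ≤ (q : ℝ) ^ 2 := by
        calc X / nm c ≤ X / 1 := by gcongr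
          _ = X := div_one _
          _ ≤ C0 * q := hX2
          _ ≤ q * q := by gcongr
          _ = (q : ℝ) ^ 2 := by ring
      calc Real.log (X / nm c) ≤ Real.log ((q : ℝ) ^ 2) := Real.log_le_log (by positivity) e2
        _ = 2 * Real.log q := by rw [Real.log_pow]; norm_num
    rw [hA]
    refine (norm_add_le _ _).trans ?_
    rw [norm_mul, Complex.norm_real, Real.norm_eq_abs, abs_of_nonneg e0]
    have := mul_le_mul_of_nonneg_left e1 (norm_nonneg L0)
    linarith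
  have hD : ‖∑ b ∈ ((SP f y).powerset ×ˢ (SP f y).powerset).filter
        (fun b => ¬ ((nB b : ℝ) ≤ Z)), (sB b : ℂ) / ((mc f y c b : ℕ) : ℂ) *
        (A + L0 * (Real.log ((nB b : ℝ) / (mc f y c b : ℝ) ^ 2) : ℂ))‖ ≤
      ((6 * ‖L0‖ + ‖L1‖) * (Real.log q) ^ 400) *
        ((q : ℝ) ^ (1 / 100000 : ℝ) * (Z ^ (-(1 / 1600) : ℝ) *
        Real.exp (3 * (1 + y ^ (2 * (1 / 1600) : ℝ) / (2 * (1 / 1600)))))) := by
    have h7 := h6 R f y Z (1 / 1600) hy1 hZ1 (by norm_num) (by norm_num)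
    have hl400 : Real.log q ≤ (Real.log q) ^ 400 := le_self_pow₀ n3 (by norm_num)
    have hl1 : (1 : ℝ) ≤ (Real.log q) ^ 400 := one_le_pow₀ n3
    have hy2 : y ^ 2 = (Real.log q) ^ 400 := by
      rw [hy, ← pow_mul]
    calc _ ≤ ∑ b ∈ ((SP f y).powerset ×ˢ (SP f y).powerset).filter
          (fun b => ¬ ((nB b : ℝ) ≤ Z)), ((6 * ‖L0‖ + ‖L1‖) * (Real.log q) ^ 400) *
            (nm c * (1 / (∏ p ∈ b.1 ∪ b.2, (p : ℝ)))) := by
          refine (norm_sum_le _ _).trans (Finset.sum_le_sum fun b hb => ?_)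
          have hb1 := (Finset.mem_filter.1 hb).1
          have h8 := (hPd b hb1).2
          rw [norm_mul, norm_div, hsB, Complex.norm_natCast, mul_comm]
          have h9 : 0 < ∏ p ∈ b.1 ∪ b.2, (p : ℝ) := by
            refine Finset.prod_pos fun p hp => ?_
            rcases Finset.mem_union.1 hp with h | h
            · exact_mod_cast ((primes_of hb1).1 p h).pos
            · exact_mod_cast ((primes_of hb1).2 p h).pos
          have hm0 : (0 : ℝ) < mc f y c b := by linarith [hmc1 b]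
          refine mul_le_mul ?_ ?_ (by positivity) (by positivity)
          · refine (norm_add_le _ _).trans ?_
            rw [norm_mul, Complex.norm_real, Real.norm_eq_abs]
            have e1 := abs_log_le hy1 c hb1
            rw [hy2] at e1
            have e2 := mul_le_mul_of_nonneg_left e1 (norm_nonneg L0)
            have e3 := mul_le_mul_of_nonneg_left hl400 (norm_nonneg L0)
            have e4 := mul_le_mul_of_nonneg_left hl1 (norm_nonneg L1)
            linarith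
          · rw [mul_one_div, div_le_div_iff₀ hm0 h9, one_mul, mul_comm (nm c)]
            exact h8
      _ = ((6 * ‖L0‖ + ‖L1‖) * (Real.log q) ^ 400) *
          (nm c * ∑ b ∈ ((SP f y).powerset ×ˢ (SP f y).powerset).filter
          (fun b => ¬ ((nB b : ℝ) ≤ Z)), 1 / (∏ p ∈ b.1 ∪ b.2, (p : ℝ))) := by
          rw [Finset.mul_sum, Finset.mul_sum]
      _ ≤ _ := by
          refine mul_le_mul_of_nonneg_left ?_ (by positivity)
          refine mul_le_mul hcn ?_ ?_ (by positivity)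
          · convert h7 using 2
          · refine Finset.sum_nonneg fun b _ => ?_
            positivity
  calc _ ≤ _ := norm_sub_le _ _
    _ ≤ _ := add_le_add hA1 hD
    _ ≤ _ := n7

end Pool.Agent.TH936.AE
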