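import Pool.Agent.TH936.AE.Stmts
import Pool.Agent.TH936.AW.Phi2

/-!
# PHI2: bound for the coefficients of all primitive ideals, ring class characters
-/

set_option autoImplicit false

open Complex

namespace Pool.Agent.TH936.AE

open Pool.Agent.W192.HK Pool.Agent.TH936.AC Pool.Agent.TH936.AW Pool.Agent.TH936.AD

namespace Phi2

variable {R : Subring ℂ}

/-- a bound for the weight function -/
theorem U_le {U : ℝ → ℝ} {CU : ℝ} (hU : WG U CU) {η : ℝ} (hη : 0 < η) :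
    ∃ K : ℝ, 0 < K ∧ ∀ x : ℝ, 0 < x → U x ≤ K * (x ^ (-η) * Real.exp (-(x / 4))) := by
  have hC := hU.pos
  refine ⟨CU * Real.exp (η * Real.log (4 * η) - η), by positivity, fun x hx => ?_⟩
  have h1 := hU.dec x hx
  have h2 : 1 ≤ x ^ (-η) * (Real.exp (x / 4) * Real.exp (η * Real.log (4 * η) - η)) := by
    have h3 : x ^ η ≤ Real.exp (x / 4) * Real.exp (η * Real.log (4 * η) - η) := by
      rw [Real.rpow_def_of_pos hx, ← Real.exp_add]
      apply Real.exp_le_exp.2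
      have h4 := Real.log_le_sub_one_of_pos (x := x / (4 * η)) (by positivity)
      rw [Real.log_div hx.ne' (by positivity)] at h4
      have h5 : η * (Real.log x - Real.log (4 * η)) ≤ η * (x / (4 * η) - 1) :=
        mul_le_mul_of_nonneg_left h4 hη.le
      have h6 : η * (x / (4 * η) - 1) = x / 4 - η := by
        field_simp
      rw [h6] at h5
      linarith
    have h4 : x ^ (-η) * x ^ η = 1 := by
      rw [← Real.rpow_add hx]
      simp
    rw [← h4]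
    exact mul_le_mul_of_nonneg_left h3 (by positivity)
  have h3 : 0 ≤ CU * Real.exp (-(x / 2)) := by positivity
  have h4 : Real.exp (-(x / 2)) * Real.exp (x / 4) = Real.exp (-(x / 4)) := by
    rw [← Real.exp_add]
    congr 1
    ring
  calc U x ≤ CU * Real.exp (-(x / 2)) := h1
    _ ≤ CU * Real.exp (-(x / 2)) *
        (x ^ (-η) * (Real.exp (x / 4) * Real.exp (η * Real.log (4 * η) - η))) :=
      le_mul_of_one_le_right h3 h2
    _ = CU * Real.exp (η * Real.log (4 * η) - η) *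
        (x ^ (-η) * (Real.exp (-(x / 2)) * Real.exp (x / 4))) := by ring
    _ = CU * Real.exp (η * Real.log (4 * η) - η) * (x ^ (-η) * Real.exp (-(x / 4))) := by
      rw [h4]

theorem norm_g {ω : ℂ} (h1 : H_BASIC) (hR : QP R ω) {f : Ideal R}
    {g : Ideal R → ℂ} (h : GE f g) {m : ℕ} (hm : 1 ≤ m) : ‖g (sp (m : R))‖ ≤ m := by
  obtain ⟨-, b2, b3, b4, b5, -⟩ := h1 R ω hR.qr
  have hnm : nm (sp (m : R)) = (m : ℝ) ^ 2 := by
    rw [b5]
    simp [Complex.normSq_natCast, sq]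
  have hne : sp (m : R) ≠ ⊥ := by
    intro h0
    rw [h0, b2] at hnm
    have : (0 : ℝ) < m := by exact_mod_cast hm
    have : (0 : ℝ) < (m : ℝ) ^ 2 := by positivity
    linarith
  by_cases hc : IsCoprime (sp (m : R)) f
  · have e := h.nrm _ hne hc
    rw [hnm] at e
    have hm0 : (0 : ℝ) ≤ m := Nat.cast_nonneg m
    exact le_of_eq ((pow_left_inj₀ (norm_nonneg _) hm0 two_ne_zero).1 e)
  · rw [(h.zero _).2 (Or.inr hc), norm_zero]
    exact Nat.cast_nonneg m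

theorem lamV_le {ω : ℂ} (h1 : H_BASIC) (h5 : A_PROD) (hR : QP R ω) {f : Ideal R} (hf : f ≠ ⊥)
    {U : ℝ → ℝ} {CU : ℝ} (hU : WG U CU) {K η : ℝ} (hη : 0 < η) (hK : 0 < K)
    (hUK : ∀ x : ℝ, 0 < x → U x ≤ K * (x ^ (-η) * Real.exp (-(x / 4))))
    {C1 : ℝ} (_hC1 : 0 < C1) (hD : ∀ I : Ideal R, I ≠ ⊥ → {J : Ideal R | J ∣ I}.Finite ∧
      (Set.ncard {J : Ideal R | J ∣ I} : ℝ) ≤ C1 * (nm I) ^ η) (y Z X : ℝ) (hZ : 1 ≤ Z)
    (hX : 1 ≤ X) {c : Ideal R} (hc : c ≠ ⊥) {m : ℕ} (hm : 1 ≤ m) :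
    |lamV U f y Z X m c| ≤ K * (Z * X) ^ η *
      (C1 * ((m : ℝ) ^ 2 * nm c) ^ η * Real.exp (-((m : ℝ) ^ 2 * nm c / (4 * (Z * X))))) := by
  classical
  obtain ⟨-, b2, b3, b4, b5, -⟩ := h1 R ω hR.qr
  have hm0 : (0 : ℝ) < m := by exact_mod_cast hm
  have hm1 : (1 : ℝ) ≤ m := by exact_mod_cast hm
  have hN : 1 ≤ nm c := b3 c hc
  have hnm : nm (sp (m : R) * c) = (m : ℝ) ^ 2 * nm c := by
    rw [b4, b5]
    congr 1
    simp [Complex.normSq_natCast, sq]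
  have hpos : 0 < (m : ℝ) ^ 2 * nm c := by positivity
  have hone : 1 ≤ (m : ℝ) ^ 2 * nm c :=
    one_le_mul_of_one_le_of_one_le (one_le_pow₀ hm1) hN
  have hne : sp (m : R) * c ≠ ⊥ := by
    intro h0
    rw [h0, b2] at hnm
    linarith
  obtain ⟨hfin, hcard⟩ := hD _ hne
  rw [hnm] at hcard
  obtain ⟨-, hinj, -⟩ := h5 R ω hR f y hf
  set B : Finset (Finset ℕ × Finset ℕ) := (BB f y Z).filter (fun b => mB f b ∣ sp (m : R) * c)
    with hB
  have hBB : ∀ b ∈ BB f y Z, b ∈ (SP f y).powerset ×ˢ (SP f y).powerset ∧ (nB b : ℝ) ≤ Z := by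
    intro b hb
    unfold BB at hb
    exact Finset.mem_filter.1 hb
  have hBcard : (B.card : ℝ) ≤ C1 * ((m : ℝ) ^ 2 * nm c) ^ η := by
    refine le_trans ?_ hcard
    have h := Set.ncard_le_ncard_of_injOn (s := (B : Set (Finset ℕ × Finset ℕ)))
      (t := {J : Ideal R | J ∣ sp (m : R) * c}) (mB f)
      (fun b hb => (Finset.mem_filter.1 (Finset.mem_coe.1 hb)).2)
      (fun b hb b' hb' he => hinj b (hBB b (Finset.mem_filter.1 (Finset.mem_coe.1 hb)).1).1 b'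
        (hBB b' (Finset.mem_filter.1 (Finset.mem_coe.1 hb')).1).1 he) hfin
    rw [Set.ncard_coe_finset] at h
    exact_mod_cast h
  have hsum : lamV U f y Z X m c =
      ∑ b ∈ B, (sB b : ℝ) * U ((m : ℝ) ^ 2 * nm c / (nB b * X)) := by
    unfold lamV
    rw [hB, Finset.sum_filter]
  have hZX : 0 < Z * X := by positivity
  have hterm : ∀ b ∈ B, |(sB b : ℝ) * U ((m : ℝ) ^ 2 * nm c / (nB b * X))| ≤
      K * (Z * X) ^ η * Real.exp (-((m : ℝ) ^ 2 * nm c / (4 * (Z * X)))) := by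
    intro b hb
    obtain ⟨hb1, hb2⟩ := hBB b (Finset.mem_filter.1 hb).1
    have hnb : (1 : ℝ) ≤ nB b := by exact_mod_cast AC.Phi2.one_le_nB hb1
    have h0 : (0 : ℝ) < nB b * X := by positivity
    have h0' : (nB b : ℝ) * X ≤ Z * X := mul_le_mul_of_nonneg_right hb2 (by linarith)
    set x : ℝ := (m : ℝ) ^ 2 * nm c / (nB b * X) with hx
    have hx0 : 0 < x := by positivity
    have hxl : (m : ℝ) ^ 2 * nm c / (Z * X) ≤ x := div_le_div_of_nonneg_left hpos.le h0 h0'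
    rw [abs_mul, AC.Phi2.abs_sB, one_mul, abs_of_nonneg (hU.nonneg x hx0)]
    refine (hUK x hx0).trans ?_
    rw [mul_assoc]
    refine mul_le_mul_of_nonneg_left ?_ hK.le
    refine mul_le_mul ?_ ?_ (Real.exp_pos _).le (by positivity)
    · rw [Real.rpow_neg hx0.le, ← Real.inv_rpow hx0.le]
      apply Real.rpow_le_rpow (by positivity) _ hη.le
      rw [hx, inv_div]
      calc (nB b : ℝ) * X / ((m : ℝ) ^ 2 * nm c) ≤ (nB b : ℝ) * X := div_le_self h0.le hone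
        _ ≤ Z * X := h0'
    · refine Real.exp_le_exp.2 (neg_le_neg ?_)
      have : (m : ℝ) ^ 2 * nm c / (4 * (Z * X)) = (m : ℝ) ^ 2 * nm c / (Z * X) / 4 := by
        rw [div_div]
        congr 1
        ring
      rw [this]
      linarith
  calc |lamV U f y Z X m c|
      ≤ ∑ b ∈ B, |(sB b : ℝ) * U ((m : ℝ) ^ 2 * nm c / (nB b * X))| := by
        rw [hsum]
        exact Finset.abs_sum_le_sum_abs _ _
    _ ≤ ∑ _b ∈ B, K * (Z * X) ^ η * Real.exp (-((m : ℝ) ^ 2 * nm c / (4 * (Z * X)))) :=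
        Finset.sum_le_sum hterm
    _ = K * (Z * X) ^ η *
          ((B.card : ℝ) * Real.exp (-((m : ℝ) ^ 2 * nm c / (4 * (Z * X))))) := by
        rw [Finset.sum_const, nsmul_eq_mul]
        ring
    _ ≤ _ :=
        mul_le_mul_of_nonneg_left (mul_le_mul_of_nonneg_right hBcard (Real.exp_pos _).le)
          (by positivity)

end Phi2

theorem e_phi2 (h1 : H_BASIC) (h3 : H_DIVR) (_h4 : A_BAR) (h5 : A_PROD) : E_PHI2 := by
  intro R ω hR U CU hU f g hg η hη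
  obtain ⟨K, hK, hUK⟩ := Phi2.U_le hU hη
  obtain ⟨C1, hC1, hD⟩ := h3 R ω hR.qr η hη
  have hsum : Summable fun m : ℕ => 1 / (m : ℝ) ^ (1 + 2 * η) :=
    Real.summable_one_div_nat_rpow.2 (by linarith)
  set S : ℝ := ∑' m : ℕ, 1 / (m : ℝ) ^ (1 + 2 * η) with hS
  have hS0 : 0 ≤ S := tsum_nonneg fun m => by positivity
  refine ⟨K * (C1 * (2 * η) ^ (2 * η) * (2 : ℝ) ^ (2 * η) * (4 : ℝ) ^ (2 * η)) * S + 1,
    by positivity, fun y Z X q _hq hZ hX c hc => ?_⟩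
  obtain ⟨-, b2, b3, -⟩ := h1 R ω hR.qr
  have hN : 1 ≤ nm c := b3 c hc.1
  have hW0 : 1 ≤ Z * X := one_le_mul_of_one_le_of_one_le hZ hX
  have hW : 1 ≤ 4 * (Z * X) := by linarith
  set B : ℝ := K * (Z * X) ^ η * (C1 * (2 * η) ^ (2 * η) * (2 : ℝ) ^ (2 * η) *
    (4 * (Z * X)) ^ (2 * η) * (nm c) ^ η * Real.exp (-(nm c / (2 * (4 * (Z * X)))))) with hB
  have hKZ : 0 ≤ K * (Z * X) ^ η := by positivity
  have hterm : ∀ m : ℕ, ‖(if Nat.Coprime m q then g (sp (m : R)) / (m : ℂ) ^ 2 *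
      (lamV U f y Z X m c : ℂ) else 0)‖ ≤ B * (1 / (m : ℝ) ^ (1 + 2 * η)) := by
    intro m
    have hB0 : 0 ≤ B * (1 / (m : ℝ) ^ (1 + 2 * η)) := by positivity
    split_ifs with hmq
    · rcases Nat.eq_zero_or_pos m with h0 | h0
      · subst h0
        simpa using hB0
      · have hm0 : (0 : ℝ) < m := by exact_mod_cast h0
        have e3 := mul_le_mul_of_nonneg_left (AC.Phi2.real_bound hC1 hη hW hN h0) hKZ
        have e4 : K * (Z * X) ^ η * (C1 * (2 * η) ^ (2 * η) * (2 : ℝ) ^ (2 * η) *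
            (4 * (Z * X)) ^ (2 * η) * (nm c) ^ η * Real.exp (-(nm c / (2 * (4 * (Z * X))))) *
            (1 / (m : ℝ) ^ (1 + 2 * η))) = B * (1 / (m : ℝ) ^ (1 + 2 * η)) := by
          rw [hB]; ring
        rw [e4] at e3
        refine le_trans ?_ e3
        rw [norm_mul, norm_div, norm_pow, Complex.norm_natCast, Complex.norm_real, Real.norm_eq_abs]
        have e1 := Phi2.norm_g h1 hR hg h0
        have e2 := Phi2.lamV_le h1 h5 hR hg.ne hU hη hK hUK hC1 hD y Z X hZ hX hc.1 h0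
        have e5 : ‖g (sp (m : R))‖ / (m : ℝ) ^ 2 ≤ 1 / (m : ℝ) := by
          rw [div_le_div_iff₀ (by positivity) hm0]
          nlinarith
        calc ‖g (sp (m : R))‖ / (m : ℝ) ^ 2 * |lamV U f y Z X m c|
            ≤ 1 / (m : ℝ) * (K * (Z * X) ^ η * (C1 * ((m : ℝ) ^ 2 * nm c) ^ η *
                Real.exp (-((m : ℝ) ^ 2 * nm c / (4 * (Z * X)))))) :=
              mul_le_mul e5 e2 (abs_nonneg _) (by positivity)
          _ = K * (Z * X) ^ η * (1 / (m : ℝ) * (C1 * ((m : ℝ) ^ 2 * nm c) ^ η *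
                Real.exp (-((m : ℝ) ^ 2 * nm c / (4 * (Z * X)))))) := by ring
    · rw [norm_zero]
      exact hB0
  have hfin := tsum_of_norm_bounded (hsum.hasSum.mul_left B) hterm
  have hPh : ‖PhV U f y Z X q g c‖ ≤ B * S := hfin
  refine hPh.trans ?_
  have hT : 0 ≤ (Z * X) ^ (4 * η) * (nm c) ^ η * Real.exp (-(nm c / (8 * (Z * X)))) := by
    positivity
  have h2W : (4 * (Z * X)) ^ (2 * η) = (4 : ℝ) ^ (2 * η) * (Z * X) ^ (2 * η) :=
    Real.mul_rpow (by norm_num) (by linarith)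
  have h4 : 2 * (4 * (Z * X)) = 8 * (Z * X) := by ring
  have h6 : (Z * X) ^ η * (Z * X) ^ (2 * η) ≤ (Z * X) ^ (4 * η) := by
    rw [← Real.rpow_add (by linarith)]
    exact Real.rpow_le_rpow_of_exponent_le hW0 (by linarith)
  have hQ : 0 ≤ K * (C1 * (2 * η) ^ (2 * η) * (2 : ℝ) ^ (2 * η) * (4 : ℝ) ^ (2 * η)) * S := by
    positivity
  calc B * S = K * (C1 * (2 * η) ^ (2 * η) * (2 : ℝ) ^ (2 * η) * (4 : ℝ) ^ (2 * η)) * S *
        (((Z * X) ^ η * (Z * X) ^ (2 * η)) * ((nm c) ^ η * Real.exp (-(nm c / (8 * (Z * X)))))) := by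
        rw [hB, h2W, h4]; ring
    _ ≤ K * (C1 * (2 * η) ^ (2 * η) * (2 : ℝ) ^ (2 * η) * (4 : ℝ) ^ (2 * η)) * S *
        ((Z * X) ^ (4 * η) * ((nm c) ^ η * Real.exp (-(nm c / (8 * (Z * X)))))) :=
        mul_le_mul_of_nonneg_left (mul_le_mul_of_nonneg_right h6 (by positivity)) hQ
    _ = K * (C1 * (2 * η) ^ (2 * η) * (2 : ℝ) ^ (2 * η) * (4 : ℝ) ^ (2 * η)) * S *
        ((Z * X) ^ (4 * η) * (nm c) ^ η * Real.exp (-(nm c / (8 * (Z * X))))) := by ring
    _ ≤ (K * (C1 * (2 * η) ^ (2 * η) * (2 : ℝ) ^ (2 * η) * (4 : ℝ) ^ (2 * η)) * S + 1) *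
        ((Z * X) ^ (4 * η) * (nm c) ^ η * Real.exp (-(nm c / (8 * (Z * X))))) :=
        mul_le_mul_of_nonneg_right (by linarith) hT
    _ = _ := by ring

end Pool.Agent.TH936.AE
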