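import Pool.Agent.TH936.AE.Stmts

/-!
# AE-RAM (helper460): the ramified prime ideal of a principal imaginary quadratic ring
-/

set_option autoImplicit false

open Complex

namespace Pool.Agent.TH936.AE

open Pool.Agent.W192.HK Pool.Agent.TH936.AC Pool.Agent.TH936.AW Pool.Agent.TH936.AD

namespace Ram

theorem int_of_real {R : Subring ℂ} {ω : ℂ} (hq : QR R ω) (z : R) (h : (z : ℂ).im = 0) :
    ∃ n : ℤ, (z : ℂ) = n := by
  obtain ⟨x, y, hxy⟩ := (hq.mem z).1 z.2
  have h1 := congrArg Complex.im hxy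
  rw [h] at h1
  simp at h1
  rcases h1 with h2 | h2
  · refine ⟨x, ?_⟩
    rw [hxy, h2]
    simp
  · exact absurd h2 hq.im.ne'

/-- a prime ideal contains a prime number and is generated by it or has it as norm -/
theorem prime_card {R : Subring ℂ} {ω : ℂ} (hq : QR R ω)
    (c1 : ∀ I : Ideal R, I ≠ ⊥ → Finite (R ⧸ I))
    (c4 : ∀ I J : Ideal R, nm (I * J) = nm I * nm J)
    (c5 : ∀ α : R, nm (sp α) = Complex.normSq (α : ℂ))
    (c7 : ∀ I : Ideal R, nm I = 1 ↔ I = ⊤)
    (Q : Ideal R) (hQ : Q.IsPrime) (hQ0 : Q ≠ ⊥) :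
    ∃ l : ℕ, l.Prime ∧ (l : R) ∈ Q ∧ (Q = sp (l : R) ∨ Nat.card (R ⧸ Q) = l) := by
  have := hq.ded
  have := c1 Q hQ0
  have : IsDomain (R ⧸ Q) := Ideal.Quotient.isDomain Q
  set l := ringChar (R ⧸ Q) with hl
  have hlp : l.Prime := CharP.char_is_prime (R ⧸ Q) l
  have hmem : (l : R) ∈ Q := by
    rw [← Ideal.Quotient.eq_zero_iff_mem, map_natCast]
    exact ringChar.Nat.cast_ringChar
  refine ⟨l, hlp, hmem, ?_⟩
  have hdvd : Q ∣ sp (l : R) := by
    rw [Ideal.dvd_span_singleton]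
    exact hmem
  obtain ⟨J, hJ⟩ := hdvd
  have e1 : nm (sp (l : R)) = nm Q * nm J := by rw [hJ, c4]
  rw [c5] at e1
  have e2 : Nat.card (R ⧸ Q) * Nat.card (R ⧸ J) = l ^ 2 := by
    have : ((Nat.card (R ⧸ Q) * Nat.card (R ⧸ J) : ℕ) : ℝ) = ((l ^ 2 : ℕ) : ℝ) := by
      push_cast
      unfold nm at e1
      rw [← e1]
      have : (((l : R) : ℂ)) = ((l : ℝ) : ℂ) := by push_cast; rfl
      rw [this, Complex.normSq_ofReal]
      ring
    exact_mod_cast this
  have e3 : Nat.card (R ⧸ Q) ∣ l ^ 2 := Dvd.intro _ e2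
  obtain ⟨k, hk, hk2⟩ := (Nat.dvd_prime_pow hlp).1 e3
  have hcases : k = 0 ∨ k = 1 ∨ k = 2 := by omega
  rcases hcases with rfl | rfl | rfl
  · exfalso
    apply hQ.ne_top
    rw [← c7]
    unfold nm
    rw [hk2]
    simp
  · right
    rw [hk2, pow_one]
  · left
    have e4 : Nat.card (R ⧸ J) = 1 := by
      rw [hk2] at e2
      have : 0 < l ^ 2 := pow_pos hlp.pos 2
      exact Nat.eq_of_mul_eq_mul_left this (by rw [e2, mul_one])
    have e5 : J = ⊤ := by
      rw [← c7]
      unfold nm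
      rw [e4]
      simp
    rw [hJ, e5, Ideal.mul_top]

/-- the generator of an invariant prime ideal, up to a unit -/
theorem gen {R : Subring ℂ} {ω : ℂ} (hq : QR R ω) (hpid : IsPrincipalIdealRing R)
    (c5 : ∀ α : R, nm (sp α) = Complex.normSq (α : ℂ))
    (b1 : ∀ z : R, ∃ w : R, (w : ℂ) = (starRingEnd ℂ) (z : ℂ))
    (b2 : ∀ (I : Ideal R) (z w : R), (w : ℂ) = (starRingEnd ℂ) (z : ℂ) → (z ∈ bar I ↔ w ∈ I))
    (P : Ideal R) (hbar : bar P = P) {p : ℕ} (hp : p.Prime) (hcard : Nat.card (R ⧸ P) = p) :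
    ∃ (π : R) (u : Rˣ), P = sp π ∧ Complex.normSq (π : ℂ) = p ∧
      (starRingEnd ℂ) (π : ℂ) = (u : R) * (π : ℂ) ∧ ¬ IsSquare u := by
  obtain ⟨π, hπ⟩ := (hpid.principal P).principal
  have hP : P = sp π := hπ
  have hn : Complex.normSq (π : ℂ) = p := by
    rw [← c5, ← hP]
    unfold nm
    rw [hcard]
  have hπ0 : (π : ℂ) ≠ 0 := by
    intro h
    rw [h, map_zero] at hn
    have : (p : ℝ) ≠ 0 := by exact_mod_cast hp.ne_zero
    exact this hn.symm
  obtain ⟨w, hw⟩ := b1 π
  have hwP : w ∈ P := by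
    rw [← b2 P π w hw, hbar, hP]
    exact Ideal.mem_span_singleton_self π
  rw [hP, Ideal.mem_span_singleton] at hwP
  obtain ⟨u, hu⟩ := hwP
  have hu' : (starRingEnd ℂ) (π : ℂ) = (u : ℂ) * (π : ℂ) := by
    rw [← hw, hu]
    push_cast
    ring
  have hnu : Complex.normSq (u : ℂ) = 1 := by
    have := congrArg Complex.normSq hu'
    rw [Complex.normSq_conj, map_mul, hn] at this
    have hp0 : (p : ℝ) ≠ 0 := by exact_mod_cast hp.ne_zero
    exact (mul_right_cancel₀ hp0 (by rw [one_mul]; exact this)).symm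
  obtain ⟨u', hu2⟩ := b1 u
  have huu : u * u' = 1 := by
    apply Subtype.ext
    push_cast
    rw [hu2, Complex.mul_conj, hnu]
    simp
  refine ⟨π, Units.mkOfMulEqOne u u' huu, hP, hn, hu', ?_⟩
  rintro ⟨s, hs⟩
  have hs' : u = (s : R) * (s : R) := by
    have := congrArg (fun x : Rˣ => (x : R)) hs
    simpa using this
  have hsn : Complex.normSq ((s : R) : ℂ) = 1 := by
    have := hnu
    rw [hs'] at this
    push_cast at this
    rw [map_mul] at this
    have h0 := Complex.normSq_nonneg ((s : R) : ℂ)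
    nlinarith
  have hsc : (starRingEnd ℂ) ((s : R) : ℂ) * ((s : R) : ℂ) = 1 := by
    rw [mul_comm, Complex.mul_conj, hsn]
    simp
  have hreal : (starRingEnd ℂ) (((s : R) * π : R) : ℂ) = (((s : R) * π : R) : ℂ) := by
    push_cast
    rw [map_mul, hu', hs']
    push_cast
    linear_combination ((s : R) : ℂ) * (π : ℂ) * hsc
  have him := Complex.conj_eq_iff_im.1 hreal
  obtain ⟨n, hnn⟩ := int_of_real hq _ him
  have h4 : (p : ℝ) = (n : ℝ) ^ 2 := by
    have := congrArg Complex.normSq hnn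
    push_cast at this
    rw [map_mul, hsn, one_mul, hn] at this
    rw [this]
    have : ((n : ℤ) : ℂ) = ((n : ℝ) : ℂ) := by push_cast; rfl
    rw [this, Complex.normSq_ofReal]
    ring
  have h5 : (p : ℤ) = n ^ 2 := by exact_mod_cast h4
  have h6 : p = n.natAbs ^ 2 := by
    zify
    rw [sq_abs]
    exact h5
  exact (Nat.Prime.not_prime_pow (le_refl 2)) (h6 ▸ hp)

end Ram

open Ram in
theorem e_ram (h1 : H_BASIC) (h3 : A_BAR) : E_RAM := by
  intro R ω hq
  obtain ⟨b1, b2, b3, b4, b5, b6, b7, b8, b9, b10, b11, b12, b13, b14⟩ := h3 R ω hq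
  obtain ⟨c1, c2, c3, c4, c5, c6, c7, c8, c9⟩ := h1 R ω hq.qr
  have := hq.qr.ded
  have := hq.pid
  have him := hq.qr.im
  have hωR : ω ∈ R := (hq.qr.mem ω).2 ⟨0, 1, by simp⟩
  obtain ⟨ω', hω'⟩ := b1 ⟨ω, hωR⟩
  have hω'2 : (ω' : ℂ) = (starRingEnd ℂ) ω := hω'
  -- the trace
  obtain ⟨t, ht⟩ : ∃ t : ℤ, 2 * ω.re = t := by
    obtain ⟨x, y, hxy⟩ := (hq.qr.mem ω').1 ω'.2
    rw [hω'2] at hxy
    have h4 := congrArg Complex.im hxy
    have h5 := congrArg Complex.re hxy
    simp at h4 h5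
    have h6 : (y : ℝ) = -1 := by
      have : ((y : ℝ) + 1) * ω.im = 0 := by linarith
      rcases mul_eq_zero.1 this with h | h
      · linarith
      · exact absurd h him.ne'
    refine ⟨x, ?_⟩
    rw [h6] at h5
    linarith
  obtain ⟨n, hn⟩ := c8 ⟨ω, hωR⟩
  have hn2 : Complex.normSq ω = n := hn
  set δ : R := ⟨ω, hωR⟩ - ω' with hδ
  have hδc : (δ : ℂ) = ω - (starRingEnd ℂ) ω := by
    rw [hδ]
    push_cast
    rw [hω'2]
  have hδre : (δ : ℂ).re = 0 := by rw [hδc]; simp
  have hδim : (δ : ℂ).im = 2 * ω.im := by rw [hδc]; simp; ring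
  obtain ⟨D, hD⟩ := c8 δ
  have hD2 : (D : ℝ) = 4 * n - t ^ 2 := by
    rw [← hD, ← hn2, ← ht, Complex.normSq_apply, Complex.normSq_apply, hδre, hδim]
    ring
  have hD3 : (D : ℤ) = 4 * n - t ^ 2 := by exact_mod_cast hD2
  have hD1 : D ≠ 1 := by
    rintro rfl
    push_cast at hD3
    have h4 : t ^ 2 % 4 = 0 ∨ t ^ 2 % 4 = 1 := by
      rcases Int.even_or_odd t with ⟨k, hk⟩ | ⟨k, hk⟩
      · left; rw [hk]; ring_nf; omega
      · right; rw [hk]; ring_nf; omega
    omega
  have hδ0 : δ ≠ 0 := by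
    intro h
    rw [h] at hδim
    simp at hδim
    linarith
  have hne : sp δ ≠ ⊤ := by
    rw [Ne, ← c7, c5, hD]
    exact_mod_cast hD1
  obtain ⟨P, hPmax, hPle⟩ := Ideal.exists_le_maximal (sp δ) hne
  have hPp : P.IsPrime := hPmax.isPrime
  have hδP : δ ∈ P := hPle (Ideal.mem_span_singleton_self δ)
  have hP0 : P ≠ ⊥ := by
    rintro rfl
    exact hδ0 (by simpa using hδP)
  have hbar : bar P = P := by
    ext z
    obtain ⟨w, hw⟩ := b1 z
    rw [b2 P z w hw]
    obtain ⟨x, y, hxy⟩ := (hq.qr.mem z).1 z.2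
    have hwz : w = z - (y : R) * δ := by
      apply Subtype.ext
      rw [hw]
      push_cast
      rw [hδc, hxy]
      simp
      ring
    rw [hwz]
    exact Submodule.sub_mem_iff_left P (Ideal.mul_mem_left P _ hδP)
  obtain ⟨p, hp, hpP, hcase⟩ := prime_card hq.qr c1 c4 c5 c7 P hPp hP0
  have hcard : Nat.card (R ⧸ P) = p := by
    rcases hcase with h | h
    swap
    · exact h
    exfalso
    -- `P = (p)`
    have hmem2 : ∀ z : R, z ∈ P → ∀ (x : ℤ), (z : ℂ) = x + ω → p = 2 → False := by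
      intro z hz x hzx h2
      rw [h, Ideal.mem_span_singleton] at hz
      obtain ⟨c, hc⟩ := hz
      obtain ⟨a, b, hab⟩ := (hq.qr.mem c).1 c.2
      have h4 : (z : ℂ) = 2 * (a + b * ω) := by
        rw [hc, h2]
        push_cast
        rw [hab]
        rfl
      rw [hzx] at h4
      have h5 := congrArg Complex.im h4
      simp at h5
      have h6 : (1 - 2 * (b : ℝ)) * ω.im = 0 := by linarith
      rcases mul_eq_zero.1 h6 with h7 | h7
      · have h8 : (2 * b : ℤ) = 1 := by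
          have : (2 * (b : ℝ)) = 1 := by linarith
          exact_mod_cast this
        omega
      · exact absurd h7 him.ne'
    have hδ2 := hδP
    rw [h, Ideal.mem_span_singleton] at hδ2
    obtain ⟨c, hc⟩ := hδ2
    obtain ⟨x, y, hxy⟩ := (hq.qr.mem c).1 c.2
    have h4 : (δ : ℂ) = p * (x + y * ω) := by
      rw [hc]
      push_cast
      rw [hxy]
    have h5 := congrArg Complex.im h4
    rw [hδim] at h5
    simp at h5
    have h6 : ((p : ℝ) * y - 2) * ω.im = 0 := by linarith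
    have h7 : (p : ℤ) * y = 2 := by
      rcases mul_eq_zero.1 h6 with h7 | h7
      · have : (p : ℝ) * y = 2 := by linarith
        exact_mod_cast this
      · exact absurd h7 him.ne'
    have hp2 : p = 2 := by
      have h8 : (p : ℤ) ∣ 2 := Dvd.intro _ h7
      have h9 : p ∣ 2 := by exact_mod_cast h8
      exact (Nat.prime_dvd_prime_iff_eq hp Nat.prime_two).1 h9
    have hy : y = 1 := by
      rw [hp2] at h7
      push_cast at h7
      omega
    have hcc : (c : ℂ) = x + ω := by rw [hxy, hy]; push_cast; ring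
    have hcre : (c : ℂ).re = 0 := by
      have h10 := congrArg Complex.re h4
      rw [hδre, hp2, hy] at h10
      simp at h10
      rw [hcc]
      simp
      linarith
    obtain ⟨m, hm⟩ := c8 c
    have hc2 : c * c = -(m : R) := by
      apply Subtype.ext
      push_cast
      apply Complex.ext
      · rw [Complex.normSq_apply, hcre] at hm
        simp [hcre]
        linarith
      · simp [hcre]
    have h2P : (2 : R) ∈ P := by
      rw [hp2] at hpP
      exact_mod_cast hpP
    rcases Nat.even_or_odd m with ⟨k, hk⟩ | ⟨k, hk⟩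
    · have h11 : c * c ∈ P := by
        rw [hc2, hk]
        have : -(((k + k : ℕ) : R)) = -(k : R) * 2 := by push_cast; ring
        rw [this]
        exact Ideal.mul_mem_left P _ h2P
      have h12 : c ∈ P := (hPp.mem_or_mem h11).elim id id
      exact hmem2 c h12 x hcc hp2
    · have h11 : (c + 1) * (c + 1) ∈ P := by
        have : (c + 1) * (c + 1) = (c - (k : R)) * 2 := by
          have : (c + 1) * (c + 1) = c * c + 2 * c + 1 := by ring
          rw [this, hc2, hk]
          push_cast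
          ring
        rw [this]
        exact Ideal.mul_mem_left P _ h2P
      have h12 : c + 1 ∈ P := (hPp.mem_or_mem h11).elim id id
      refine hmem2 (c + 1) h12 (x + 1) ?_ hp2
      push_cast
      rw [hcc]
      ring
  have hsq : P * P = sp (p : R) := by
    have := b9 P hP0
    rw [hbar, hcard] at this
    exact this
  refine ⟨p, P, ⟨hp, hPp, by unfold nm; rw [hcard], hbar, hsq, ?_⟩⟩
  intro Q hQp hQ0 hQbar
  obtain ⟨l, hl, hlQ, hcaseQ⟩ := prime_card hq.qr c1 c4 c5 c7 Q hQp hQ0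
  rcases hcaseQ with h | hcardQ
  · exact Or.inl ⟨l, hl, h⟩
  right
  have hsqQ : Q * Q = sp (l : R) := by
    have := b9 Q hQ0
    rw [hQbar, hcardQ] at this
    exact this
  obtain ⟨π, u, hPπ, hπn, hπu, hus⟩ := gen hq.qr hq.pid c5 b1 b2 P hbar hp hcard
  obtain ⟨ρ, v, hQρ, hρn, hρv, hvs⟩ := gen hq.qr hq.pid c5 b1 b2 Q hQbar hl hcardQ
  have := c9
  -- the product of two non-squares is a square
  obtain ⟨s, hs⟩ : IsSquare (u * v) := by
    obtain ⟨g, hg⟩ := IsCyclic.exists_generator (α := Rˣ)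
    obtain ⟨a, ha⟩ := hg u
    obtain ⟨b, hb⟩ := hg v
    simp only at ha hb
    rcases Int.even_or_odd a with ⟨k, hk⟩ | ⟨k, hk⟩
    · exact absurd ⟨g ^ k, by rw [← ha, hk, zpow_add]⟩ hus
    · rcases Int.even_or_odd b with ⟨k', hk'⟩ | ⟨k', hk'⟩
      · exact absurd ⟨g ^ k', by rw [← hb, hk', zpow_add]⟩ hvs
      · refine ⟨g ^ (k + k' + 1), ?_⟩
        rw [← ha, ← hb, ← zpow_add, ← zpow_add, hk, hk']
        congr 1
        ring
  have hlp : l = p := by
    have hs' : ((u : R) : ℂ) * ((v : R) : ℂ) = ((s : R) : ℂ) * ((s : R) : ℂ) := by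
      have := congrArg (fun x : Rˣ => ((x : R) : ℂ)) hs
      simpa using this
    have hun : Complex.normSq ((u : R) : ℂ) = 1 := by
      have := congrArg Complex.normSq hπu
      rw [Complex.normSq_conj, map_mul, hπn] at this
      have hp0 : (p : ℝ) ≠ 0 := by exact_mod_cast hp.ne_zero
      exact (mul_right_cancel₀ hp0 (by rw [one_mul]; exact this)).symm
    have hvn : Complex.normSq ((v : R) : ℂ) = 1 := by
      have := congrArg Complex.normSq hρv
      rw [Complex.normSq_conj, map_mul, hρn] at this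
      have hp0 : (l : ℝ) ≠ 0 := by exact_mod_cast hl.ne_zero
      exact (mul_right_cancel₀ hp0 (by rw [one_mul]; exact this)).symm
    have hsn : Complex.normSq ((s : R) : ℂ) = 1 := by
      have := congrArg Complex.normSq hs'
      rw [map_mul, map_mul, hun, hvn] at this
      have h0 := Complex.normSq_nonneg ((s : R) : ℂ)
      nlinarith
    have hsc : (starRingEnd ℂ) ((s : R) : ℂ) * ((s : R) : ℂ) = 1 := by
      rw [mul_comm, Complex.mul_conj, hsn]
      simp
    have hreal : (starRingEnd ℂ) (((s : R) * (π * ρ) : R) : ℂ) = (((s : R) * (π * ρ) : R) : ℂ) := by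
      push_cast
      rw [map_mul, map_mul, hπu, hρv]
      linear_combination (starRingEnd ℂ) ((s : R) : ℂ) * (π : ℂ) * (ρ : ℂ) * hs' +
        ((s : R) : ℂ) * (π : ℂ) * (ρ : ℂ) * hsc
    obtain ⟨k, hk⟩ := int_of_real hq.qr _ (Complex.conj_eq_iff_im.1 hreal)
    have h4 : (p : ℝ) * l = (k : ℝ) ^ 2 := by
      have := congrArg Complex.normSq hk
      push_cast at this
      rw [map_mul, map_mul, hsn, one_mul, hπn, hρn] at this
      rw [this]
      have : ((k : ℤ) : ℂ) = ((k : ℝ) : ℂ) := by push_cast; rfl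
      rw [this, Complex.normSq_ofReal]
      ring
    have h5 : ((p * l : ℕ) : ℤ) = k ^ 2 := by
      have : (((p * l : ℕ) : ℤ) : ℝ) = ((k ^ 2 : ℤ) : ℝ) := by push_cast; exact h4
      exact_mod_cast this
    have h6 : p * l = k.natAbs ^ 2 := by
      zify
      rw [sq_abs]
      exact_mod_cast h5
    have h7 : p ∣ k.natAbs := hp.dvd_of_dvd_pow (Dvd.intro _ h6)
    obtain ⟨j, hj⟩ := h7
    rw [hj] at h6
    have h8 : l = p * j ^ 2 := by
      have : p * l = p * (p * j ^ 2) := by rw [h6]; ring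
      exact Nat.eq_of_mul_eq_mul_left hp.pos this
    have h9 : p ∣ l := Dvd.intro _ h8.symm
    exact ((Nat.prime_dvd_prime_iff_eq hp hl).1 h9).symm
  rw [hlp] at hsqQ
  have hQP : Q ≤ P := by
    have h4 : Q * Q ≤ P := by
      rw [hsqQ, ← hsq]
      exact Ideal.mul_le_left
    rcases (hPp.mul_le).1 h4 with h | h <;> exact h
  intro hcop
  rw [Ideal.isCoprime_iff_sup_eq, sup_eq_right.2 hQP] at hcop
  exact hPp.ne_top hcop

end Pool.Agent.TH936.AE
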