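import Pool.Agent.TH936.AE.Stmts
import Pool.Agent.TH936.AC.Reg

/-!
# REG : the product of the mollifier and the smoothed sum as a sum over primitive ideals
(adapted from `Pool/Agent/TH936/AD/Reg.lean`)
-/

set_option autoImplicit false

open Complex

namespace Pool.Agent.TH936.AE

open Pool.Agent.W192.HK Pool.Agent.TH936.AC Pool.Agent.TH936.AW Pool.Agent.TH936.AD

namespace Reg

open Pool.Agent.TH936.AC.Reg (nm_nonneg chi_le exp_le exp_le')

variable {R : Subring ℂ} {ω : ℂ}

lemma psi_le (hB : H_BASIC) (hR : QR R ω) {f : Ideal R} {g : Ideal R → ℂ}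
    (h : GE f g) (I : Ideal R) : ‖g I‖ ≤ nm I := by
  by_cases h0 : g I = 0
  · rw [h0, norm_zero]
    exact nm_nonneg I
  · have h1 : I ≠ ⊥ ∧ IsCoprime I f := by
      have h2 := mt (h.zero I).2 h0
      rw [not_or, not_not] at h2
      exact h2
    have h2 := h.nrm I h1.1 h1.2
    have h3 := (hB R ω hR).2.2.1 I h1.1
    have h4 := norm_nonneg (g I)
    nlinarith

/-- the general term without the weight -/
noncomputable def gv (g χ : Ideal R → ℂ) (J : Ideal R) : ℂ := χ J * g J / (nm J : ℂ)

lemma gv_bot {f : Ideal R} {g χ : Ideal R → ℂ} (h : GE f g) : gv g χ ⊥ = 0 := by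
  unfold gv
  rw [(h.zero ⊥).2 (Or.inl rfl), mul_zero, zero_div]

lemma gv_le (hB : H_BASIC) (hP : H_FPR) (hR : QR R ω) {f c : Ideal R}
    {g χ : Ideal R → ℂ} (h : GE f g) (hc : RC c χ) (J : Ideal R) : ‖gv g χ J‖ ≤ 1 := by
  unfold gv
  rw [norm_div, norm_mul, Complex.norm_real, Real.norm_eq_abs, abs_of_nonneg (nm_nonneg J)]
  refine div_le_one_of_le₀ ?_ (nm_nonneg J)
  have h1 := psi_le hB hR h J
  have h2 := chi_le hP hR hc J
  have h3 := norm_nonneg (g J)
  nlinarith [nm_nonneg J]

/-- bound of a term with the weight -/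
lemma term_le (hB : H_BASIC) (hP : H_FPR) (hR : QR R ω) {U : ℝ → ℝ} {CU : ℝ} (hU : WG U CU)
    {f c : Ideal R} {g χ : Ideal R → ℂ} (h : GE f g) (hc : RC c χ) {W : ℝ} (hW : 0 < W) :
    ∃ CV : ℝ, 0 < CV ∧ ∀ J : Ideal R,
    ‖gv g χ J * (U (nm J / W) : ℂ)‖ ≤ CV * (6 * (2 * W) ^ 3 * (nm J) ^ (-2 : ℝ)) := by
  have hCU := hU.pos
  refine ⟨CU, hCU, fun J => ?_⟩
  by_cases h0 : J = ⊥
  · rw [h0, gv_bot h, zero_mul, norm_zero]
    have := Real.rpow_nonneg (nm_nonneg (⊥ : Ideal R)) (-2 : ℝ)
    positivity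
  · have h1 := gv_le hB hP hR h hc J
    have hW2 : 0 < 2 * W := by linarith
    have hn := (hB R ω hR).2.2.1 J h0
    have h2 := exp_le' hn hW2
    have hx : 0 < nm J / W := div_pos (by linarith) hW
    have h3 : |U (nm J / W)| ≤ CU * Real.exp (-(nm J / W / 2)) := by
      rw [abs_of_nonneg (hU.nonneg _ hx)]
      exact hU.dec _ hx
    have e : nm J / W / 2 = nm J / (2 * W) := by
      rw [div_div, mul_comm W 2]
    rw [e] at h3
    rw [norm_mul, Complex.norm_real, Real.norm_eq_abs]
    calc ‖gv g χ J‖ * |U (nm J / W)| ≤ 1 * |U (nm J / W)| :=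
          mul_le_mul_of_nonneg_right h1 (abs_nonneg _)
      _ ≤ CU * Real.exp (-(nm J / (2 * W))) := by rw [one_mul]; exact h3
      _ ≤ CU * (6 * (2 * W) ^ 3 * (nm J) ^ (-2 : ℝ)) := mul_le_mul_of_nonneg_left h2 hCU.le

end Reg

open Reg

open Pool.Agent.TH936.AC.Reg (nm_nonneg chi_le exp_le exp_le')

theorem e_reg (h1 : H_BASIC) (h2 : H_CNT) (h4 : H_FPR) (h5 : A_BAR) (h6 : A_DEC)
    (h7 : A_PROD) (h8 : E_PHI2) : E_REG := by
  classical
  intro R ω hQ V CU hV f ψ hψ hRam q χ hχ y Z X hZ hX
  have hR := hQ.qr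
  have := hR.ded
  have hX0 : 0 < X := by linarith
  have hZ0 : 0 < Z := by linarith
  have hsum2 : Summable (fun I : Ideal R => (nm I) ^ (-2 : ℝ)) := (h2 R ω hR).2.1 2 (by norm_num)
  have hP := h7 R ω hQ f y hψ.ne
  have hb : ∀ b ∈ BB f y Z, nm (mB f b) = nB b ∧ mB f b ≠ ⊥ ∧ (0 : ℝ) < nB b := by
    intro b hb
    have hb1 := hP.1 b (Finset.mem_filter.1 hb).1
    refine ⟨hb1.1, hb1.2.1, ?_⟩
    have := (h1 R ω hR).2.2.1 _ hb1.2.1
    rw [hb1.1] at this
    linarith
  have hnmul := (h1 R ω hR).2.2.2.1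
  refine ⟨?_, ?_⟩
  · -- summability
    obtain ⟨C, hC, hCC⟩ := h8 R ω hQ V CU hV f ψ hψ 1 one_pos
    refine Summable.of_nonneg_of_le (fun c => ?_) (fun c => ?_)
      (hsum2.mul_left (C * (Z * X) ^ (4 * 1 : ℝ) * (6 * (8 * (Z * X)) ^ 3)))
    · split_ifs
      · exact norm_nonneg _
      · exact le_rfl
    · have h0 : 0 ≤ C * (Z * X) ^ (4 * 1 : ℝ) * (6 * (8 * (Z * X)) ^ 3) * (nm c) ^ (-2 : ℝ) := by
        have := Real.rpow_nonneg (nm_nonneg c) (-2 : ℝ)
        positivity
      split_ifs with hc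
      · have e1 := hCC y Z X q hχ.prime hZ hX c hc
        have hn := (h1 R ω hR).2.2.1 c hc.1
        rw [Real.rpow_one] at e1
        have e2 : ‖ψ c / (nm c : ℂ)‖ ≤ 1 := by
          rw [norm_div, Complex.norm_real, Real.norm_eq_abs, abs_of_nonneg (nm_nonneg c)]
          exact div_le_one_of_le₀ (psi_le h1 hR hψ c) (nm_nonneg c)
        have e3 := exp_le hn (W := 8 * (Z * X)) (by positivity)
        rw [norm_mul]
        calc ‖ψ c / (nm c : ℂ)‖ * ‖PhV V f y Z X q ψ c‖ ≤ 1 * ‖PhV V f y Z X q ψ c‖ :=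
              mul_le_mul_of_nonneg_right e2 (norm_nonneg _)
          _ ≤ C * (Z * X) ^ (4 * 1 : ℝ) * (nm c * Real.exp (-(nm c / (8 * (Z * X))))) := by
              rw [one_mul, ← mul_assoc]
              exact e1
          _ ≤ C * (Z * X) ^ (4 * 1 : ℝ) * (6 * (8 * (Z * X)) ^ 3 * (nm c) ^ (-2 : ℝ)) :=
              mul_le_mul_of_nonneg_left e3 (by positivity)
          _ = _ := by ring
      · exact h0
  · -- the identity
    set hb' : Finset ℕ × Finset ℕ → Ideal R → ℂ := fun b J =>
      (sB b : ℂ) * (gv ψ χ J * (V (nm J / (nB b * X)) : ℂ)) with hhb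
    have hmul : ∀ b ∈ BB f y Z, ∀ I : Ideal R,
        (sB b : ℂ) * (χ (mB f b) * ψ (mB f b)) / (nB b : ℂ) *
          (χ I * ψ I / (nm I : ℂ) * (V (nm I / X) : ℂ)) = hb' b (mB f b * I) := by
      intro b hbb I
      obtain ⟨e1, e2, e3⟩ := hb b hbb
      rw [hhb]
      unfold gv
      simp only
      rw [hχ.rc.mul, hψ.mul, hnmul, e1]
      have e4 : (nB b : ℝ) * nm I / (nB b * X) = nm I / X := by
        field_simp
      rw [e4]
      push_cast
      ring
    have hsumb : ∀ b ∈ BB f y Z, Summable (fun J : Ideal R =>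
        if mB f b ∣ J then hb' b J else 0) := by
      intro b hbb
      obtain ⟨e1, e2, e3⟩ := hb b hbb
      obtain ⟨CV, hCV, hterm⟩ := term_le h1 h4 hR hV hψ hχ.rc (W := nB b * X) (by positivity)
      refine Summable.of_norm_bounded (g := fun J : Ideal R => |(sB b : ℝ)| *
        (CV * (6 * (2 * (nB b * X)) ^ 3 * (nm J) ^ (-2 : ℝ)))) (((hsum2.mul_left _).mul_left _).mul_left _)
        fun J => ?_
      have h0 := hterm J
      have h0' := (norm_nonneg _).trans h0
      split_ifs
      · rw [hhb]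
        simp only
        rw [norm_mul]
        have e5 : ‖((sB b : ℤ) : ℂ)‖ = |((sB b : ℤ) : ℝ)| := by
          rw [← Complex.ofReal_intCast, Complex.norm_real, Real.norm_eq_abs]
        rw [e5]
        exact mul_le_mul_of_nonneg_left h0 (abs_nonneg _)
      · rw [norm_zero]
        exact mul_nonneg (abs_nonneg _) h0'
    -- the function on the ideals
    set G : Ideal R → ℂ := fun J => ∑ b ∈ BB f y Z, if mB f b ∣ J then hb' b J else 0 with hG
    have hGsum : Summable G := summable_sum hsumb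
    have hGbot : G ⊥ = 0 := by
      rw [hG]
      simp only
      refine Finset.sum_eq_zero fun b _ => ?_
      rw [hhb]
      simp only
      rw [gv_bot hψ, zero_mul, mul_zero, ite_self]
    have hGcop : ∀ J : Ideal R, ¬ IsCoprime J f → G J = 0 := by
      intro J hJ
      rw [hG]
      simp only
      refine Finset.sum_eq_zero fun b _ => ?_
      rw [hhb]
      unfold gv
      simp only
      rw [(hψ.zero J).2 (Or.inr hJ)]
      simp
    have hprod : Ml f y Z ψ χ * smo V ψ X χ = ∑' J : Ideal R, G J := by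
      unfold Ml smo
      rw [hG, Summable.tsum_finsetSum hsumb, Finset.sum_mul]
      refine Finset.sum_congr rfl fun b hbb => ?_
      rw [← tsum_mul_left]
      simp only [hmul b hbb]
      have hinj : Function.Injective (fun I : Ideal R => mB f b * I) := fun I I' h =>
        mul_left_cancel₀ (hb b hbb).2.1 h
      rw [← hinj.tsum_eq (f := fun J : Ideal R => if mB f b ∣ J then hb' b J else 0)]
      · refine tsum_congr fun I => ?_
        rw [if_pos (dvd_mul_right _ _)]
      · intro J hJ
        rw [Function.mem_support] at hJ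
        by_cases hd : mB f b ∣ J
        · obtain ⟨I, hI⟩ := hd
          exact ⟨I, hI.symm⟩
        · rw [if_neg hd] at hJ
          exact absurd rfl hJ
    have hdec := ((h6 R ω hQ).2 f hψ.ne hRam G hGsum hGbot hGcop).2
    rw [hprod, hdec]
    refine tsum_congr fun c => ?_
    by_cases hc : Pri c
    · rw [if_pos hc]
      unfold PhV
      rw [← mul_assoc, ← tsum_mul_left]
      refine tsum_congr fun m => ?_
      by_cases hm : 0 < m
      · rw [if_pos ⟨hc, hm⟩]
        have hq2 : sp (q : R) ≠ ⊤ := by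
          intro ht
          have e1 := ((h1 R ω hR).2.2.2.2.2.2.1 (sp (q : R))).2 ht
          rw [(h1 R ω hR).2.2.2.2.1] at e1
          have e2 : (((q : R)) : ℂ) = ((q : ℝ) : ℂ) := by push_cast; rfl
          rw [e2, Complex.normSq_ofReal] at e1
          have e3 : (2 : ℝ) ≤ q := by exact_mod_cast hχ.prime.two_le
          nlinarith
        have hnm : nm (sp (m : R) * c) = (m : ℝ) ^ 2 * nm c := by
          rw [hnmul, (h1 R ω hR).2.2.2.2.1]
          have e2 : (((m : R)) : ℂ) = ((m : ℝ) : ℂ) := by push_cast; rfl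
          rw [e2, Complex.normSq_ofReal, sq]
        have hGe : G (sp (m : R) * c) = gv ψ χ (sp (m : R) * c) * (lamV V f y Z X m c : ℂ) := by
          rw [hG, hhb]
          simp only
          unfold lamV
          rw [Complex.ofReal_sum, Finset.mul_sum]
          refine Finset.sum_congr rfl fun b _ => ?_
          rw [hnm]
          split_ifs
          · push_cast
            ring
          · simp
        rw [hGe]
        by_cases hcq : Nat.Coprime m q
        · rw [if_pos hcq]
          unfold gv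
          rw [hχ.rc.mul, hψ.mul, hχ.int m hcq, hnm]
          push_cast
          ring
        · rw [if_neg hcq, mul_zero]
          have e1 : ¬ IsCoprime (sp (m : R)) (sp (q : R)) := by
            rw [Nat.coprime_comm, hχ.prime.coprime_iff_not_dvd, not_not] at hcq
            obtain ⟨l, hl⟩ := hcq
            rw [Ideal.isCoprime_iff_sup_eq]
            have e2 : sp (m : R) ≤ sp (q : R) := by
              rw [Ideal.span_singleton_le_span_singleton]
              exact ⟨(l : R), by rw [hl]; push_cast; rfl⟩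
            rw [sup_eq_right.2 e2]
            exact hq2
          unfold gv
          rw [hχ.rc.mul, (hχ.rc.zero _).2 (Or.inr e1)]
          simp
      · have hm0 : m = 0 := by omega
        subst hm0
        rw [if_neg (fun h => hm h.2), if_neg, mul_zero]
        rw [Nat.coprime_zero_left]
        exact hχ.prime.one_lt.ne'
    · rw [if_neg hc]
      have : ∀ m : ℕ, (if Pri c ∧ 0 < m then G (sp (m : R) * c) else 0) = 0 := fun m =>
        if_neg fun h => hc h.1
      simp only [this, tsum_zero]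

end Pool.Agent.TH936.AE

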