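import Pool.Agent.TH936.AE.Stmts
import Pool.Agent.W513.HK.V

/-!
# Project AE, part V: the weight functions with the Euler factor at the ramified prime
(job 5042 of helper936, written by helper626)
-/

set_option autoImplicit false

open Set MeasureTheory Filter

namespace Pool.Agent.TH936.AE.V

open Pool.Agent.W192.HK

lemma int0 : IntegrableOn (fun t : ℝ => Real.exp (-t) * t ^ (-1 / 2 : ℝ)) (Ioi 0) := by
  have e : (1 / 2 : ℝ) - 1 = -1 / 2 := by norm_num
  have h := Real.GammaIntegral_convergent (show (0 : ℝ) < 1 / 2 by norm_num)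
  rw [e] at h
  exact h

lemma intp {p : ℝ} (hp : 1 ≤ p) :
    IntegrableOn (fun t : ℝ => Real.exp (-(p * t)) * t ^ (-1 / 2 : ℝ)) (Ioi 0) := by
  refine Integrable.mono' int0 ?_ ?_
  · have h : Measurable (fun t : ℝ => Real.exp (-(p * t)) * t ^ (-1 / 2 : ℝ)) := by fun_prop
    exact h.aestronglyMeasurable
  · refine (ae_restrict_iff' measurableSet_Ioi).mpr (Eventually.of_forall fun t ht => ?_)
    have ht' : (0 : ℝ) < t := ht
    rw [Real.norm_of_nonneg (by positivity)]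
    refine mul_le_mul_of_nonneg_right (Real.exp_le_exp.2 ?_) (by positivity)
    nlinarith

lemma scal {p x : ℝ} (hp : 0 < p) (hx : 0 ≤ x) : V0 (p * x) / Real.sqrt p =
    (1 / Real.sqrt Real.pi) * ∫ t in Ioi x, Real.exp (-(p * t)) * t ^ (-1 / 2 : ℝ) := by
  have h := integral_comp_mul_left_Ioi (fun t : ℝ => Real.exp (-t) * t ^ (-1 / 2 : ℝ)) x hp
  have h2 : ∫ t in Ioi x, Real.exp (-(p * t)) * (p * t) ^ (-1 / 2 : ℝ) =
      (Real.sqrt p)⁻¹ * ∫ t in Ioi x, Real.exp (-(p * t)) * t ^ (-1 / 2 : ℝ) := by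
    rw [← integral_const_mul]
    refine setIntegral_congr_fun measurableSet_Ioi (fun t ht => ?_)
    have h3 : 0 ≤ t := hx.trans (le_of_lt ht)
    have h4 : p ^ (-1 / 2 : ℝ) = (Real.sqrt p)⁻¹ := by
      rw [neg_div, Real.rpow_neg hp.le, Real.sqrt_eq_rpow]
    rw [Real.mul_rpow hp.le h3, h4]
    ring
  have h5 : (∫ t in Ioi (p * x), Real.exp (-t) * t ^ (-1 / 2 : ℝ)) =
      p * ((Real.sqrt p)⁻¹ * ∫ t in Ioi x, Real.exp (-(p * t)) * t ^ (-1 / 2 : ℝ)) := by
    rw [← h2, h, smul_eq_mul, ← mul_assoc, mul_inv_cancel₀ hp.ne', one_mul]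
  unfold V0
  rw [h5]
  have h6 : Real.sqrt p ≠ 0 := (Real.sqrt_pos.2 hp).ne'
  have h7 : p = Real.sqrt p * Real.sqrt p := (Real.mul_self_sqrt hp.le).symm
  generalize (∫ t in Ioi x, Real.exp (-(p * t)) * t ^ (-1 / 2 : ℝ)) = K
  have h8 : p * ((Real.sqrt p)⁻¹ * K) = Real.sqrt p * K := by
    conv_lhs => rw [h7]
    rw [Real.sqrt_mul_self (Real.sqrt_nonneg p)]
    field_simp
  rw [h8]
  field_simp

lemma V0_nonneg {x : ℝ} (hx : 0 ≤ x) : 0 ≤ V0 x := by
  unfold V0
  refine mul_nonneg (by positivity) (setIntegral_nonneg measurableSet_Ioi fun t ht => ?_)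
  have h1 : x < t := ht
  have : (0 : ℝ) < t := by linarith
  positivity

lemma V0_anti {x y : ℝ} (hx : 0 ≤ x) (hxy : x ≤ y) : V0 y ≤ V0 x := by
  unfold V0
  refine mul_le_mul_of_nonneg_left ?_ (by positivity)
  refine setIntegral_mono_set (int0.mono_set (Ioi_subset_Ioi hx)) ?_
    (Eventually.of_forall (Ioi_subset_Ioi hxy))
  refine (ae_restrict_iff' measurableSet_Ioi).mpr (Eventually.of_forall fun t ht => ?_)
  have h1 : x < t := ht
  have : (0 : ℝ) < t := by linarith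
  show (0 : ℝ) ≤ Real.exp (-t) * t ^ (-1 / 2 : ℝ)
  positivity

/-- the pair of the terms `0` and `1` -/
noncomputable def gg (p : ℕ) (η : ℝ) (x : ℝ) : ℝ := V0 x + η * (V0 (p * x) / Real.sqrt p)

lemma gg_neg {p : ℕ} (hp : 1 ≤ p) {x : ℝ} (hx : 0 ≤ x) : gg p (-1) x =
    (1 / Real.sqrt Real.pi) *
      ∫ t in Ioi x, (Real.exp (-t) - Real.exp (-(p * t))) * t ^ (-1 / 2 : ℝ) := by
  have hp1 : (1 : ℝ) ≤ p := by exact_mod_cast hp
  unfold gg
  rw [scal (by linarith) hx]
  unfold V0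
  have h1 : ∫ t in Ioi x, (Real.exp (-t) - Real.exp (-(p * t))) * t ^ (-1 / 2 : ℝ) =
      (∫ t in Ioi x, Real.exp (-t) * t ^ (-1 / 2 : ℝ)) -
        ∫ t in Ioi x, Real.exp (-(p * t)) * t ^ (-1 / 2 : ℝ) := by
    rw [← integral_sub (int0.mono_set (Ioi_subset_Ioi hx))
      ((intp hp1).mono_set (Ioi_subset_Ioi hx))]
    refine setIntegral_congr_fun measurableSet_Ioi (fun t _ => ?_)
    ring
  rw [h1]
  ring

lemma gg_nonneg {p : ℕ} (hp : 1 ≤ p) {η : ℝ} (hη : η = 1 ∨ η = -1) {x : ℝ} (hx : 0 ≤ x) :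
    0 ≤ gg p η x := by
  have hp1 : (1 : ℝ) ≤ p := by exact_mod_cast hp
  rcases hη with rfl | rfl
  · unfold gg
    have h1 := V0_nonneg hx
    have h2 := V0_nonneg (x := p * x) (by positivity)
    positivity
  · rw [gg_neg hp hx]
    refine mul_nonneg (by positivity) (setIntegral_nonneg measurableSet_Ioi fun t ht => ?_)
    have h1 : x < t := ht
    have h2 : (0 : ℝ) < t := by linarith
    refine mul_nonneg (sub_nonneg.2 (Real.exp_le_exp.2 ?_)) (by positivity)
    nlinarith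

lemma gg_anti {p : ℕ} (hp : 1 ≤ p) {η : ℝ} (hη : η = 1 ∨ η = -1) {x y : ℝ} (hx : 0 ≤ x)
    (hxy : x ≤ y) : gg p η y ≤ gg p η x := by
  have hp1 : (1 : ℝ) ≤ p := by exact_mod_cast hp
  rcases hη with rfl | rfl
  · unfold gg
    have h1 := V0_anti hx hxy
    have h2 := V0_anti (x := p * x) (y := p * y) (by positivity)
      (mul_le_mul_of_nonneg_left hxy (by positivity))
    have h3 := div_le_div_of_nonneg_right h2 (Real.sqrt_nonneg (p : ℝ))
    linarith
  · rw [gg_neg hp hx, gg_neg hp (hx.trans hxy)]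
    refine mul_le_mul_of_nonneg_left ?_ (by positivity)
    refine setIntegral_mono_set ?_ ?_ (Eventually.of_forall (Ioi_subset_Ioi hxy))
    · have h1 := (int0.mono_set (Ioi_subset_Ioi hx)).sub
        ((intp hp1).mono_set (Ioi_subset_Ioi hx))
      refine h1.congr (Eventually.of_forall fun t => ?_)
      simp only [Pi.sub_apply]
      ring
    · refine (ae_restrict_iff' measurableSet_Ioi).mpr (Eventually.of_forall fun t ht => ?_)
      have h1 : x < t := ht
      have h2 : (0 : ℝ) < t := by linarith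
      show (0 : ℝ) ≤ (Real.exp (-t) - Real.exp (-(p * t))) * t ^ (-1 / 2 : ℝ)
      refine mul_nonneg (sub_nonneg.2 (Real.exp_le_exp.2 ?_)) (by positivity)
      nlinarith

end Pool.Agent.TH936.AE.V

namespace Pool.Agent.TH936.AE

open Pool.Agent.W192.HK Pool.Agent.TH936.AE.V

theorem e_v : E_V := by
  intro p hp η hη
  obtain ⟨C, hC⟩ := Pool.Agent.W513.HK.n_v
  obtain ⟨hC0, hC1, hC2⟩ := hC
  have hp2 : (2 : ℝ) ≤ p := by exact_mod_cast hp.two_le
  have hp0 : (0 : ℝ) < p := by linarith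
  have hsp : 0 < Real.sqrt p := Real.sqrt_pos.2 hp0
  obtain ⟨r, hr⟩ : ∃ r : ℝ, r = 1 / Real.sqrt p := ⟨_, rfl⟩
  have hr0 : 0 < r := by rw [hr]; positivity
  have hr1 : r < 1 := by
    rw [hr, div_lt_one hsp, Real.lt_sqrt (by norm_num)]
    linarith
  have hηabs : |η| = 1 := by
    rcases hη with rfl | rfl <;> simp
  have hη2 : η * η = 1 := by
    rcases hη with rfl | rfl <;> norm_num
  have hq : η / Real.sqrt p = η * r := by rw [hr]; ring
  have habs : |η * r| = r := by rw [abs_mul, hηabs, one_mul, abs_of_pos hr0]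
  have hgeo : Summable (fun k : ℕ => r ^ k) := summable_geometric_of_lt_one hr0.le hr1
  -- the terms
  obtain ⟨T, hT⟩ : ∃ T : ℝ → ℕ → ℝ, T = fun x k => (η / Real.sqrt p) ^ k * V0 ((p : ℝ) ^ k * x) :=
    ⟨_, rfl⟩
  have hVe : ∀ x, Ve p η x = ∑' k, T x k := by
    intro x
    rw [hT]
    rfl
  have hpk : ∀ k : ℕ, (1 : ℝ) ≤ (p : ℝ) ^ k := fun k => one_le_pow₀ (by linarith)
  have hTb : ∀ x : ℝ, 0 < x → ∀ k, |T x k| ≤ r ^ k * (C * Real.exp (-(x / 2))) := by
    intro x hx k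
    rw [hT]
    simp only
    rw [abs_mul, abs_pow, hq, habs]
    refine mul_le_mul_of_nonneg_left ?_ (by positivity)
    have hk := hpk k
    have h1 := hC1 ((p : ℝ) ^ k * x) (by positivity)
    refine h1.trans ?_
    refine mul_le_mul_of_nonneg_left (Real.exp_le_exp.2 ?_) hC0.le
    have : x ≤ (p : ℝ) ^ k * x := le_mul_of_one_le_left hx.le hk
    linarith
  have hTs : ∀ x : ℝ, 0 < x → Summable (T x) := by
    intro x hx
    refine Summable.of_norm_bounded (hgeo.mul_right (C * Real.exp (-(x / 2)))) fun k => ?_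
    rw [Real.norm_eq_abs]
    exact hTb x hx k
  -- the pairs
  have hpair : ∀ x : ℝ, 0 < x → HasSum (fun j : ℕ => r ^ (2 * j) * gg p η ((p : ℝ) ^ (2 * j) * x))
      (Ve p η x) := by
    intro x hx
    have h1 := hTs x hx
    have he : Summable (fun j : ℕ => T x (2 * j)) :=
      h1.comp_injective (i := fun j : ℕ => 2 * j) (fun a b h => by
        simp only at h
        omega)
    have ho : Summable (fun j : ℕ => T x (2 * j + 1)) :=
      h1.comp_injective (i := fun j : ℕ => 2 * j + 1) (fun a b h => by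
        simp only at h
        omega)
    have h2 := tsum_even_add_odd he ho
    rw [hVe, ← h2]
    have h3 : (fun j : ℕ => r ^ (2 * j) * gg p η ((p : ℝ) ^ (2 * j) * x)) =
        fun j : ℕ => T x (2 * j) + T x (2 * j + 1) := by
      funext j
      rw [hT]
      simp only
      unfold gg
      have h4 : (η / Real.sqrt p) ^ (2 * j) = r ^ (2 * j) := by
        rw [hq, pow_mul, pow_mul, mul_pow, sq η, hη2, one_mul]
      rw [pow_succ (η / Real.sqrt p), h4, pow_succ (p : ℝ)]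
      have h5 : (p : ℝ) ^ (2 * j) * p * x = p * ((p : ℝ) ^ (2 * j) * x) := by ring
      rw [h5]
      ring
    rw [h3]
    exact he.hasSum.add ho.hasSum
  have hgs : ∀ x : ℝ, 0 < x → 0 ≤ Ve p η x := by
    intro x hx
    refine (hpair x hx).nonneg fun j => ?_
    exact mul_nonneg (by positivity) (gg_nonneg hp.one_le hη (by positivity))
  have hanti : AntitoneOn (Ve p η) (Ioi 0) := by
    intro x hx y hy hxy
    have hx' : (0 : ℝ) < x := hx
    have hy' : (0 : ℝ) < y := hy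
    refine hasSum_le (fun j => ?_) (hpair y hy') (hpair x hx')
    refine mul_le_mul_of_nonneg_left ?_ (by positivity)
    exact gg_anti hp.one_le hη (by positivity) (mul_le_mul_of_nonneg_left hxy (by positivity))
  -- the limit
  obtain ⟨s, hs⟩ : ∃ s : ℝ, s = r * (p : ℝ) ^ (2 / 5 : ℝ) := ⟨_, rfl⟩
  have hs0 : 0 < s := by rw [hs]; positivity
  have hs1 : s < 1 := by
    have h1 : r = (p : ℝ) ^ (-(1 / 2) : ℝ) := by
      rw [hr, Real.rpow_neg hp0.le, Real.sqrt_eq_rpow, one_div]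
    rw [hs, h1, ← Real.rpow_add hp0]
    refine Real.rpow_lt_one_of_one_lt_of_neg (by linarith) (by norm_num)
  have hgs' : Summable (fun k : ℕ => s ^ k) := summable_geometric_of_lt_one hs0.le hs1
  have h25 : ∀ y : ℝ, 0 < y → |V0 y - 1| ≤ (C + 1) * y ^ (2 / 5 : ℝ) := by
    intro y hy
    rcases le_total y 1 with h1 | h1
    · have h2 := hC2 y hy.le
      rw [abs_sub_comm]
      refine h2.trans ?_
      have h3 : Real.sqrt y ≤ y ^ (2 / 5 : ℝ) := by
        rw [Real.sqrt_eq_rpow]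
        exact Real.rpow_le_rpow_of_exponent_ge hy h1 (by norm_num)
      have h4 : 0 ≤ y ^ (2 / 5 : ℝ) := by positivity
      have h5 := mul_le_mul_of_nonneg_left h3 hC0.le
      linarith
    · have h2 := hC1 y hy.le
      have h3 : Real.exp (-(y / 2)) ≤ 1 := by
        rw [Real.exp_le_one_iff]
        linarith
      have h4 : |V0 y| ≤ C := h2.trans (by nlinarith)
      have h5 : |V0 y - 1| ≤ C + 1 := by
        refine (abs_sub _ _).trans ?_
        rw [abs_one]
        linarith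
      refine h5.trans ?_
      have h6 : (1 : ℝ) ≤ y ^ (2 / 5 : ℝ) := Real.one_le_rpow h1 (by norm_num)
      nlinarith
  have hgA : HasSum (fun k : ℕ => (η * r) ^ k) (1 - η * r)⁻¹ :=
    hasSum_geometric_of_abs_lt_one (by rw [habs]; exact hr1)
  have hA0 : 0 < (1 - η * r)⁻¹ := by
    rw [inv_pos, sub_pos]
    exact lt_of_le_of_lt (le_abs_self _) (by rw [habs]; exact hr1)
  have hlim : ∀ x : ℝ, 0 < x →
      |Ve p η x - (1 - η * r)⁻¹| ≤ (C + 1) * x ^ (2 / 5 : ℝ) * (1 - s)⁻¹ := by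
    intro x hx
    have h1 : HasSum (T x) (Ve p η x) := by
      rw [hVe]
      exact (hTs x hx).hasSum
    have h2 := h1.sub hgA
    have h3 : HasSum (fun k : ℕ => (C + 1) * x ^ (2 / 5 : ℝ) * s ^ k)
        ((C + 1) * x ^ (2 / 5 : ℝ) * (1 - s)⁻¹) :=
      (hasSum_geometric_of_lt_one hs0.le hs1).mul_left _
    rw [← h2.tsum_eq, ← Real.norm_eq_abs]
    refine tsum_of_norm_bounded h3 fun k => ?_
    rw [Real.norm_eq_abs, hT]
    simp only
    have h4 : (η / Real.sqrt p) ^ k * V0 ((p : ℝ) ^ k * x) - (η * r) ^ k =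
        (η * r) ^ k * (V0 ((p : ℝ) ^ k * x) - 1) := by
      rw [hq]
      ring
    rw [h4, abs_mul, abs_pow, habs]
    have h5 := h25 ((p : ℝ) ^ k * x) (by positivity)
    have h6 : ((p : ℝ) ^ k * x) ^ (2 / 5 : ℝ) = ((p : ℝ) ^ (2 / 5 : ℝ)) ^ k * x ^ (2 / 5 : ℝ) := by
      rw [Real.mul_rpow (by positivity) hx.le]
      congr 1
      rw [← Real.rpow_natCast, ← Real.rpow_mul hp0.le, ← Real.rpow_natCast, ← Real.rpow_mul hp0.le,
        mul_comm]
    rw [h6] at h5
    have h7 := mul_le_mul_of_nonneg_left h5 (pow_nonneg hr0.le k)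
    refine h7.trans (le_of_eq ?_)
    rw [hs, mul_pow]
    ring
  have hdec : ∀ x : ℝ, 0 < x → Ve p η x ≤ (C * (1 - r)⁻¹) * Real.exp (-(x / 2)) := by
    intro x hx
    have h3 : HasSum (fun k : ℕ => r ^ k * (C * Real.exp (-(x / 2))))
        ((1 - r)⁻¹ * (C * Real.exp (-(x / 2)))) :=
      (hasSum_geometric_of_lt_one hr0.le hr1).mul_right _
    have h1 : HasSum (T x) (Ve p η x) := by
      rw [hVe]
      exact (hTs x hx).hasSum
    have h4 := hasSum_le (fun k => (le_abs_self _).trans (hTb x hx k)) h1 h3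
    linarith
  have h1r : 0 < (1 - r)⁻¹ := inv_pos.2 (by linarith)
  have h1s : 0 < (1 - s)⁻¹ := inv_pos.2 (by linarith)
  refine ⟨C * (1 - r)⁻¹ + (C + 1) * (1 - s)⁻¹, (1 - η * r)⁻¹, ⟨by positivity, hgs, ?_, hanti⟩,
    hA0, ?_⟩
  · intro x hx
    refine (hdec x hx).trans (mul_le_mul_of_nonneg_right ?_ (Real.exp_pos _).le)
    have : 0 ≤ (C + 1) * (1 - s)⁻¹ := by positivity
    linarith
  · intro x hx
    refine (hlim x hx).trans ?_
    have h1 : 0 ≤ C * (1 - r)⁻¹ * x ^ (2 / 5 : ℝ) := by positivity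
    have h2 : (C * (1 - r)⁻¹ + (C + 1) * (1 - s)⁻¹) * x ^ (2 / 5 : ℝ) =
      C * (1 - r)⁻¹ * x ^ (2 / 5 : ℝ) + (C + 1) * x ^ (2 / 5 : ℝ) * (1 - s)⁻¹ := by ring
    rw [h2]
    linarith

end Pool.Agent.TH936.AE
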