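import Pool.Agent.TH936.AE.Fin
import Pool.Agent.TH936.AE.Ram
import Pool.Agent.TH936.AE.V
import Pool.Agent.TH936.AE.Eps
import Pool.Agent.TH936.AE.Fe
import Pool.Agent.TH936.AE.Phi
import Pool.Agent.TH936.AE.Phi2
import Pool.Agent.TH936.AE.Reg
import Pool.Agent.TH936.AD.Dl
import Pool.Agent.TH936.AD.Rbd
import Pool.Agent.TH936.AD.Scount
import Pool.Agent.TH936.AD.Ssum
import Pool.Agent.TH936.AC.Bar
import Pool.Agent.TH936.AC.Dec
import Pool.Agent.TH936.AC.Line
import Pool.Agent.TH936.AC.Ori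
import Pool.Agent.TH936.AC.Count
import Pool.Agent.TH936.AC.Tail
import Pool.Agent.TH936.AC.Rough
import Pool.Agent.TH936.AC.Prd
import Pool.Agent.TH936.AC.Rank
import Pool.Agent.TH936.AC.Rbd
import Pool.Agent.W216.CY.Div
import Pool.Agent.W287.HK.Basic
import Pool.Agent.W571.HK.Cls
import Pool.Agent.W53.HK.Fp
import Pool.Agent.W366.HK.Fpr
import Pool.Agent.W585.HK.LAT
import Pool.Agent.W692.HK.Ker
import Pool.Agent.W584.HK.CNT
import Pool.Agent.W513.HK.Divr
import Pool.Agent.W513.HK.V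
import Pool.Agent.W930.HK.Mob
import Pool.Agent.W856.HK.Dec
import Pool.Agent.W636.HK.Gauss
import Pool.Agent.W348.HK.Pois
import Pool.Agent.W644.HK.Theta0
import Pool.Agent.W283.HK.AFE0
import Pool.Agent.W283.HK.PW

/-!
# Project AE: the final theorem in the notation of the library
-/

set_option autoImplicit false

open Complex

namespace Pool.Agent.TH936.AE

open Pool.Agent.W192.HK Pool.Agent.TH936.AC Pool.Agent.TH936.AW Pool.Agent.TH936.AD

variable {R : Subring ℂ} {ω : ℂ}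

/-- the final theorem -/
theorem final (hQ : QP R ω) : ∃ (p : ℕ) (P : Ideal R), RP p P ∧
    ∃ L : (Ideal R → ℂ) → ℂ → ℂ,
      (∀ (q : ℕ) (χ : Ideal R → ℂ), q ≠ p → HC 0 (sp (q : R)) χ → RG q χ → IsL0 χ (L χ)) ∧
      ∀ M : ℕ, 1 ≤ M → ∀ ε : ℝ, 0 < ε → ∃ q0 : ℝ, ∀ (q : ℕ) (χ : Ideal R → ℂ),
        HC 0 (sp (q : R)) χ → RG q χ → q0 ≤ q → ∀ d : ℕ, Od χ d → (q : ℝ) ^ (2 / 3 + ε) ≤ d →
        ∀ M₁ : ℕ, 1 ≤ M₁ → M₁ ≤ M → M₁ ∣ d →
        (d : ℝ) * (q : ℝ) ^ (-5 / 8 : ℝ) ≤ (Set.ncard {a : ℕ | a < d ∧ Nat.Coprime a d ∧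
          a % M₁ = 1 % M₁ ∧ (q : ℝ) ^ (-1 / 9 : ℝ) ≤ ‖L (pw χ a) (1 / 2)‖} : ℝ) := by
  have hbasic := Pool.Agent.W287.HK.h_basic
  have hcls := Pool.Agent.W571.HK.h_cls hbasic
  have hfp := Pool.Agent.W53.HK.h_fp hbasic hcls
  have hfpr := Pool.Agent.W366.HK.h_fpr hbasic hcls
  have hlat := Pool.Agent.W585.HK.h_lat hbasic
  have hker := Pool.Agent.W692.HK.h_ker hbasic hcls hfpr
  have hcnt := Pool.Agent.W584.HK.h_cnt hbasic hcls hfpr hlat hker
  have hdivr := Pool.Agent.W513.HK.h_divr hbasic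
  have hmob := Pool.Agent.W930.HK.h_mob
  have hdiv := Pool.Agent.W216.CY.t_div
  have hdec := Pool.Agent.W856.HK.h_dec hbasic
  have hgauss := Pool.Agent.W636.HK.h_gauss hbasic hfp
  have hpois := Pool.Agent.W348.HK.h_pois hbasic
  have htheta := Pool.Agent.W644.HK.n_theta hbasic hfp hdec hgauss hpois hcnt
  have hafe := Pool.Agent.W283.HK.n_afe hbasic hfp hcnt hgauss htheta
  have hpw := Pool.Agent.W283.HK.PW.h_pw hbasic
  -- project AC
  have abar := Pool.Agent.TH936.AC.a_bar hbasic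
  have adec := Pool.Agent.TH936.AC.a_dec hbasic abar
  have aline := Pool.Agent.TH936.AC.a_line hbasic hfpr hker abar
  have aori := Pool.Agent.TH936.AC.a_ori abar
  have acount := Pool.Agent.TH936.AC.a_count hbasic hcnt hdivr hfpr abar aline aori
  have arcount := Pool.Agent.TH936.AC.a_rcount hbasic hcnt hfpr abar aline aori
  have atail := Pool.Agent.TH936.AC.a_tail hbasic hcnt acount
  have arough := Pool.Agent.TH936.AC.a_rough hbasic hcnt arcount
  have aprod := Pool.Agent.TH936.AC.a_prod hbasic abar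
  have arbd := Pool.Agent.TH936.AC.a_rbd hmob
  -- project AD
  have ddl := d_dl hbasic abar aprod
  have dscount := d_scount hbasic hcnt abar aline aori
  have dssum := d_ssum hdiv hbasic hcnt Pool.Agent.TH936.AC.a_mert d_rbd dscount
  -- project AE
  have eeps := e_eps hbasic abar
  have ephi := e_phi hbasic abar aprod Pool.Agent.TH936.AC.a_rank
  have ephi2 := e_phi2 hbasic hdivr abar aprod
  have ereg := e_reg hbasic hcnt hfpr abar adec aprod ephi2
  have efe := e_fe hbasic hcls hfp hfpr hcnt hpw hgauss hafe abar Pool.Agent.W513.HK.n_v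
  obtain ⟨p, P, hP⟩ := e_ram hbasic abar R ω hQ
  have hP0 : P ≠ ⊥ := by
    intro h0
    have h2 : sp (p : R) = ⊥ := by rw [← hP.sq, h0, Ideal.bot_mul]
    have h3 : (p : R) = 0 := Ideal.span_singleton_eq_bot.1 h2
    have h4 : ((p : R) : ℂ) = 0 := by rw [h3]; rfl
    rw [Subring.coe_natCast] at h4
    exact hP.prime.ne_zero (by exact_mod_cast h4)
  have hge := ge_gP hbasic hQ hP0
  have hcs := cs_gP abar hQ hP.bar
  exact ⟨p, P, hP, many hbasic hpw abar e_v eeps efe hQ hP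
    (fun V CV hV L0 L1 CE hE x0 hx0 M hM ε hε => core hdiv hbasic hcnt hmob abar ereg ephi ephi2
      atail arough Pool.Agent.TH936.AC.a_mert arbd ddl dssum aprod hQ hV hge hcs hP.ram hE x0 hx0 M
      hM ε hε)⟩

end Pool.Agent.TH936.AE
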