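import Pool.Agent.TH936.AE.Stmts
import Pool.Agent.TH936.AD.Core0

/-!
# Project AE: trivial bounds for the mollifier and the smoothed sum
-/

set_option autoImplicit false

open Complex

namespace Pool.Agent.TH936.AE

open Pool.Agent.W192.HK Pool.Agent.TH936.AC Pool.Agent.TH936.AW Pool.Agent.TH936.AD

variable {R : Subring ℂ} {ω : ℂ}

theorem wg_pow {U : ℝ → ℝ} {C : ℝ} (hU : WG U C) : ∃ C' : ℝ, 0 < C' ∧ ∀ x : ℝ, 0 < x →
    |U x| ≤ C' * x ^ (-(13 / 25) : ℝ) := by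
  refine ⟨2 * C, by linarith [hU.pos], fun x hx => ?_⟩
  have hC := hU.pos
  have e1 := hU.dec x hx
  rw [abs_of_nonneg (hU.nonneg x hx)]
  have e2 : Real.exp (-(x / 2)) ≤ 2 * x ^ (-(13 / 25) : ℝ) := by
    rcases le_or_gt x 1 with h1 | h1
    · have e2 : 1 ≤ x ^ (-(13 / 25) : ℝ) :=
        Real.one_le_rpow_of_pos_of_le_one_of_nonpos hx h1 (by norm_num)
      have e3 : Real.exp (-(x / 2)) ≤ 1 := Real.exp_le_one_iff.2 (by linarith)
      linarith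
    · rw [Real.rpow_neg hx.le, Real.exp_neg]
      have e3 : x ^ (13 / 25 : ℝ) ≤ x := by
        calc x ^ (13 / 25 : ℝ) ≤ x ^ (1 : ℝ) := Real.rpow_le_rpow_of_exponent_le h1.le (by norm_num)
          _ = x := Real.rpow_one x
      have e4 : x ≤ 2 * Real.exp (x / 2) := by
        have := Real.add_one_le_exp (x / 2)
        linarith
      have e5 : 0 < x ^ (13 / 25 : ℝ) := Real.rpow_pos_of_pos hx _
      rw [inv_le_iff_one_le_mul₀ (Real.exp_pos _)]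
      have e6 : 1 = (x ^ (13 / 25 : ℝ))⁻¹ * x ^ (13 / 25 : ℝ) := (inv_mul_cancel₀ e5.ne').symm
      calc (1 : ℝ) = (x ^ (13 / 25 : ℝ))⁻¹ * x ^ (13 / 25 : ℝ) := e6
        _ ≤ (x ^ (13 / 25 : ℝ))⁻¹ * (2 * Real.exp (x / 2)) := by
            refine mul_le_mul_of_nonneg_left (e3.trans e4) (inv_nonneg.2 e5.le)
        _ = _ := by ring
  calc U x ≤ C * Real.exp (-(x / 2)) := e1
    _ ≤ C * (2 * x ^ (-(13 / 25) : ℝ)) := mul_le_mul_of_nonneg_left e2 hC.le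
    _ = _ := by ring

/-- the trivial bound for the smoothed sum -/
theorem smo_le (h1 : H_BASIC) (h3 : H_CNT) (hR : QP R ω) {U : ℝ → ℝ} {CU : ℝ} (hU : WG U CU)
    {f : Ideal R} {g : Ideal R → ℂ} (hg : GE f g) : ∃ C : ℝ, 0 < C ∧
    ∀ X : ℝ, 1 ≤ X → ∀ χ : Ideal R → ℂ, (∀ I, ‖χ I‖ ≤ 1) → ‖smo U g X χ‖ ≤ C * X ^ (13 / 25 : ℝ) := by
  obtain ⟨b1, b2, b3, b4, b5, b6, b7, b8, b9⟩ := h1 R ω hR.qr
  obtain ⟨hfin, hsum, -⟩ := h3 R ω hR.qr
  obtain ⟨C', hC', hb⟩ := wg_pow hU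
  have hs := hsum (51 / 50) (by norm_num)
  obtain ⟨S, hS⟩ : ∃ S : ℝ, S = ∑' I : Ideal R, (nm I) ^ (-(51 / 50 : ℝ)) := ⟨_, rfl⟩
  have hS0 : 0 ≤ S := by
    rw [hS]
    exact tsum_nonneg fun I => Real.rpow_nonneg (Nat.cast_nonneg _) _
  refine ⟨C' * (S + 1), by positivity, fun X hX χ hχ => ?_⟩
  have hX0 : 0 < X := by linarith
  have hterm : ∀ I : Ideal R, ‖χ I * g I / (nm I : ℂ) * (U (nm I / X) : ℂ)‖ ≤
      C' * X ^ (13 / 25 : ℝ) * (nm I) ^ (-(51 / 50 : ℝ)) := by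
    intro I
    have hn0' : 0 ≤ nm I := Nat.cast_nonneg _
    by_cases hI : I = ⊥ ∨ ¬ IsCoprime I f
    · rw [(hg.zero I).2 hI, mul_zero, zero_div, zero_mul, norm_zero]
      positivity
    · push Not at hI
      have hn1 : 1 ≤ nm I := b3 I hI.1
      have hn0 : 0 < nm I := by linarith
      have e1 : ‖g I‖ = (nm I) ^ (1 / 2 : ℝ) := by
        rw [← Real.sqrt_eq_rpow, ← hg.nrm I hI.1 hI.2, Real.sqrt_sq (norm_nonneg _)]
      rw [norm_mul, norm_div, norm_mul, Complex.norm_real, Complex.norm_real,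
        Real.norm_of_nonneg hn0.le, Real.norm_eq_abs, e1]
      have e2 := hb (nm I / X) (by positivity)
      have e3 : (nm I / X) ^ (-(13 / 25) : ℝ) = (nm I) ^ (-(13 / 25) : ℝ) * X ^ (13 / 25 : ℝ) := by
        rw [Real.div_rpow hn0.le hX0.le, Real.rpow_neg hX0.le, div_inv_eq_mul]
      rw [e3] at e2
      calc ‖χ I‖ * (nm I) ^ (1 / 2 : ℝ) / nm I * |U (nm I / X)| ≤
            1 * (nm I) ^ (1 / 2 : ℝ) / nm I *
              (C' * ((nm I) ^ (-(13 / 25) : ℝ) * X ^ (13 / 25 : ℝ))) := by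
            gcongr
            exact hχ I
        _ = C' * X ^ (13 / 25 : ℝ) *
              ((nm I) ^ (1 / 2 : ℝ) * (nm I) ^ (-1 : ℝ) * (nm I) ^ (-(13 / 25) : ℝ)) := by
            rw [Real.rpow_neg_one]
            ring
        _ = _ := by
            rw [← Real.rpow_add hn0, ← Real.rpow_add hn0]
            norm_num
  have h := tsum_of_norm_bounded (hs.mul_left (C' * X ^ (13 / 25 : ℝ))).hasSum hterm
  rw [tsum_mul_left, ← hS] at h
  have hX1 : 0 ≤ X ^ (13 / 25 : ℝ) := Real.rpow_nonneg hX0.le _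
  calc ‖smo U g X χ‖ ≤ C' * X ^ (13 / 25 : ℝ) * S := h
    _ ≤ C' * X ^ (13 / 25 : ℝ) * (S + 1) := by
        refine mul_le_mul_of_nonneg_left (by linarith) (by positivity)
    _ = _ := by ring

/-- the trivial bound for the mollifier -/
theorem ml_le (h1 : H_BASIC) (h3 : H_CNT) (h5 : A_PROD) (hR : QP R ω) : ∃ C : ℝ, 0 < C ∧
    ∀ (f : Ideal R) (g : Ideal R → ℂ), GE f g →
    ∀ y Z : ℝ, 1 ≤ Z → ∀ χ : Ideal R → ℂ, (∀ I, ‖χ I‖ ≤ 1) → ‖Ml f y Z g χ‖ ≤ C * Z := by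
  classical
  obtain ⟨b1, b2, b3, b4, b5, b6, b7, b8, b9⟩ := h1 R ω hR.qr
  obtain ⟨hfin, hsum, C, hC, hcnt, -⟩ := h3 R ω hR.qr
  refine ⟨C, hC, fun f g hg y Z hZ χ hχ => ?_⟩
  obtain ⟨p1, p2, -⟩ := h5 R ω hR f y hg.ne
  have hmem : ∀ b ∈ BB f y Z, b ∈ (SP f y).powerset ×ˢ (SP f y).powerset ∧ (nB b : ℝ) ≤ Z := by
    intro b hb
    unfold BB at hb
    exact Finset.mem_filter.1 hb
  have hterm : ∀ b ∈ BB f y Z, ‖(sB b : ℂ) * (χ (mB f b) * g (mB f b)) / (nB b : ℂ)‖ ≤ 1 := by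
    intro b hb
    obtain ⟨q1, q2, q3⟩ := p1 b (hmem b hb).1
    have hn1 : 1 ≤ nm (mB f b) := b3 _ q2
    have hs : ‖(sB b : ℂ)‖ = 1 := by
      unfold sB
      push_cast
      rw [norm_pow, norm_neg, norm_one, one_pow]
    have e1 : ‖g (mB f b)‖ ≤ nm (mB f b) := by
      have e2 := hg.nrm _ q2 q3
      by_contra hno
      push Not at hno
      have e3 : nm (mB f b) * nm (mB f b) < ‖g (mB f b)‖ * ‖g (mB f b)‖ :=
        mul_lt_mul'' hno hno (by linarith) (by linarith)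
      have e4 : nm (mB f b) ≤ nm (mB f b) * nm (mB f b) := le_mul_of_one_le_left (by linarith) hn1
      rw [← pow_two ‖g (mB f b)‖, e2] at e3
      linarith
    have hnb : ((nB b : ℕ) : ℂ) = ((nm (mB f b) : ℝ) : ℂ) := by
      rw [q1]
      push_cast
      rfl
    rw [hnb, norm_div, norm_mul, hs, one_mul, norm_mul, Complex.norm_real,
      Real.norm_of_nonneg (by linarith), div_le_one (by linarith)]
    calc ‖χ (mB f b)‖ * ‖g (mB f b)‖ ≤ 1 * nm (mB f b) := by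
          refine mul_le_mul (hχ _) e1 (norm_nonneg _) zero_le_one
      _ = _ := one_mul _
  have hcard : ((BB f y Z).card : ℝ) ≤ C * Z := by
    refine le_trans ?_ (hcnt Z hZ)
    have e1 : (BB f y Z).card = ((BB f y Z).image (mB f)).card := by
      symm
      refine Finset.card_image_of_injOn fun b hb b' hb' h => ?_
      exact p2 b (hmem b hb).1 b' (hmem b' hb').1 h
    have e2 : ((BB f y Z).image (mB f) : Set (Ideal R)) ⊆ {I : Ideal R | nm I ≤ Z} := by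
      intro I hI
      rw [Finset.mem_coe, Finset.mem_image] at hI
      obtain ⟨b, hb, rfl⟩ := hI
      show nm (mB f b) ≤ Z
      rw [(p1 b (hmem b hb).1).1]
      exact (hmem b hb).2
    have e3 := Set.ncard_le_ncard e2 (hfin Z)
    rw [Set.ncard_coe_finset, ← e1] at e3
    exact_mod_cast e3
  calc ‖Ml f y Z g χ‖ ≤ ∑ b ∈ BB f y Z, ‖(sB b : ℂ) * (χ (mB f b) * g (mB f b)) / (nB b : ℂ)‖ :=
        norm_sum_le _ _
    _ ≤ ∑ _b ∈ BB f y Z, (1 : ℝ) := Finset.sum_le_sum hterm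
    _ = (BB f y Z).card := by rw [Finset.sum_const, nsmul_eq_mul, mul_one]
    _ ≤ C * Z := hcard

end Pool.Agent.TH936.AE
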